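import Mathlib

set_option autoImplicit false

/-!
# Disjoint balanced blow-ups of the five-cycle

`k` disjoint copies of the blow-up of `C₅` in which every vertex is replaced by `r` independent
vertices: all degrees are `2 r`, there are `5 k r²` edges and every induced matching has at most
`k` edges.
-/

namespace MP433

open Finset

/-- `k` disjoint copies of the balanced blow-up of `C₅` with classes of size `r`. -/
def blow (k r : ℕ) : SimpleGraph (Fin k × ZMod 5 × Fin r) where
  Adj x y := x.1 = y.1 ∧ (y.2.1 = x.2.1 + 1 ∨ y.2.1 = x.2.1 + 4)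
  symm := ⟨fun x y h => ⟨h.1.symm, by
    rcases h.2 with h' | h'
    · right; rw [h']; generalize x.2.1 = c; revert c; decide
    · left; rw [h']; generalize x.2.1 = c; revert c; decide⟩⟩
  loopless := ⟨fun x h => by
    have h2 := h.2
    generalize x.2.1 = c at h2
    revert c; decide⟩

instance (k r : ℕ) : DecidableRel (blow k r).Adj := fun x y => by
  unfold blow; infer_instance

lemma blow_degree (k r : ℕ) (v : Fin k × ZMod 5 × Fin r) : (blow k r).degree v = 2 * r := by
  rw [← SimpleGraph.card_neighborFinset_eq_degree]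
  have h : (blow k r).neighborFinset v =
      ({v.1} : Finset (Fin k)) ×ˢ (({v.2.1 + 1, v.2.1 + 4} : Finset (ZMod 5)) ×ˢ
        (univ : Finset (Fin r))) := by
    ext w
    rw [SimpleGraph.mem_neighborFinset]
    simp only [blow, mem_product, mem_singleton, mem_insert, mem_univ, and_true]
    constructor
    · rintro ⟨h1, h2⟩
      exact ⟨h1.symm, h2⟩
    · rintro ⟨h1, h2⟩
      exact ⟨h1.symm, h2⟩
  rw [h, card_product, card_product, card_singleton, card_univ, Fintype.card_fin]
  have h2 : ({v.2.1 + 1, v.2.1 + 4} : Finset (ZMod 5)).card = 2 := by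
    generalize v.2.1 = c
    revert c; decide
  rw [h2, one_mul]

lemma blow_edges (k r : ℕ) : (blow k r).edgeFinset.card = 5 * k * r ^ 2 := by
  have h := (blow k r).sum_degrees_eq_twice_card_edges
  simp only [blow_degree, sum_const, card_univ, Fintype.card_prod, Fintype.card_fin, ZMod.card,
    smul_eq_mul] at h
  have h2 : 2 * (blow k r).edgeFinset.card = 2 * (5 * k * r ^ 2) := by
    rw [← h]; ring
  omega

/-- Any two edges in the same copy share a vertex or are joined by an edge. -/
lemma blow_touch (k r : ℕ) {u v x y : Fin k × ZMod 5 × Fin r} (huv : (blow k r).Adj u v)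
    (hxy : (blow k r).Adj x y) (h : u.1 = x.1) :
    (blow k r).Adj u x ∨ (blow k r).Adj u y ∨ (blow k r).Adj v x ∨ (blow k r).Adj v y := by
  obtain ⟨h1, h2⟩ := huv
  obtain ⟨h3, h4⟩ := hxy
  have key : ∀ a b c d : ZMod 5, (b = a + 1 ∨ b = a + 4) → (d = c + 1 ∨ d = c + 4) →
      ((c = a + 1 ∨ c = a + 4) ∨ (d = a + 1 ∨ d = a + 4) ∨ (c = b + 1 ∨ c = b + 4) ∨
        (d = b + 1 ∨ d = b + 4)) := by decide
  have h5 := key _ _ _ _ h2 h4
  have e1 : u.1 = y.1 := h.trans h3
  have e2 : v.1 = x.1 := h1.symm.trans h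
  have e3 : v.1 = y.1 := e2.trans h3
  rcases h5 with h5 | h5 | h5 | h5
  · exact Or.inl ⟨h, h5⟩
  · exact Or.inr (Or.inl ⟨e1, h5⟩)
  · exact Or.inr (Or.inr (Or.inl ⟨e2, h5⟩))
  · exact Or.inr (Or.inr (Or.inr ⟨e3, h5⟩))

/-- Every induced matching of `blow k r` has at most `k` edges. -/
lemma blow_matching (k r : ℕ) (M : Finset (Sym2 (Fin k × ZMod 5 × Fin r)))
    (h1 : ∀ e ∈ M, e ∈ (blow k r).edgeSet)
    (h2 : ∀ e ∈ M, ∀ e' ∈ M, e ≠ e' → ∀ x ∈ e, ∀ y ∈ e', x ≠ y ∧ ¬ (blow k r).Adj x y) :
    M.card ≤ k := by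
  classical
  -- every edge has both ends in one copy
  have hcopy : ∀ e ∈ M, ∃ i : Fin k, ∀ x ∈ e, x.1 = i := by
    intro e he
    have := h1 e he
    induction e using Sym2.inductionOn with
    | hf u v =>
      refine ⟨u.1, fun x hx => ?_⟩
      rcases Sym2.mem_iff.1 hx with rfl | rfl
      · rfl
      · exact this.1.symm
  rcases M.eq_empty_or_nonempty with hM0 | ⟨e0, he0⟩
  · rw [hM0, card_empty]; exact Nat.zero_le _
  have : Nonempty (Fin k) := ⟨(hcopy e0 he0).choose⟩
  choose! i hi using hcopy
  have hinj : Set.InjOn i M := by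
    intro e he e' he' hee
    by_contra hne
    have he1 := h1 e he
    have he2 := h1 e' he'
    have hi1 := hi e he
    have hi2 := hi e' he'
    have hM := h2 e he e' he' hne
    clear he he' hne
    revert hee he1 he2 hi1 hi2 hM
    generalize i e = a
    generalize i e' = a'
    intro hee he1 he2 hi1 hi2 hM
    induction e using Sym2.inductionOn with
    | hf u v =>
      induction e' using Sym2.inductionOn with
      | hf x y =>
        have hux : u.1 = x.1 := by
          rw [hi1 u (Sym2.mem_mk_left u v), hi2 x (Sym2.mem_mk_left x y), hee]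
        rcases blow_touch k r he1 he2 hux with h | h | h | h
        · exact (hM u (Sym2.mem_mk_left u v) x (Sym2.mem_mk_left x y)).2 h
        · exact (hM u (Sym2.mem_mk_left u v) y (Sym2.mem_mk_right x y)).2 h
        · exact (hM v (Sym2.mem_mk_right u v) x (Sym2.mem_mk_left x y)).2 h
        · exact (hM v (Sym2.mem_mk_right u v) y (Sym2.mem_mk_right x y)).2 h
  have := Finset.card_le_card_of_injOn (s := M) (t := (univ : Finset (Fin k))) i
    (fun _ _ => mem_coe.2 (mem_univ _)) hinj
  simpa using this

end MP433
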