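import Pool.Agent.Work.MP_433a35_co.Edge

/-!
# Counting identities and the covering inequality (MP_433a35_co)
-/

set_option linter.unusedSectionVars false

namespace MP433

open Finset

variable {V : Type*} [Fintype V] [DecidableEq V]
variable {G F : SimpleGraph V} [DecidableRel G.Adj] [DecidableRel F.Adj]

theorem sum_a_left (u : V) : ∑ w, a G F w u = g G F u := by
  simp only [a_eq, g_eq, f_eq]
  rw [Finset.sum_comm]
  refine Finset.sum_congr rfl fun x _ => ?_
  rw [Finset.mul_sum]
  refine Finset.sum_congr rfl fun w _ => ?_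
  rw [AA_symm F w x]
  ring

theorem sum_a_right (u : V) : ∑ w, a G F u w = ∑ v ∈ F.neighborFinset u, d G v := by
  rw [sum_nbr F (fun v => d G v) u]
  simp only [a_eq, d_eq]
  rw [Finset.sum_comm]
  refine Finset.sum_congr rfl fun x _ => ?_
  rw [Finset.mul_sum]
  refine Finset.sum_congr rfl fun w _ => ?_
  rw [AA_symm G w x]

theorem sum_z (u : V) : ∑ w, z F u w = ∑ v ∈ F.neighborFinset u, f F v := by
  rw [sum_nbr F (fun v => f F v) u]
  simp only [z_eq, f_eq]
  rw [Finset.sum_comm]
  refine Finset.sum_congr rfl fun x _ => ?_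
  rw [Finset.mul_sum]
  refine Finset.sum_congr rfl fun w _ => ?_
  rw [AA_symm F w x]

theorem z_symm (u w : V) : z F u w = z F w u := by
  unfold z; rw [Finset.inter_comm]

theorem z_nonneg (u w : V) : 0 ≤ z F u w := by unfold z; positivity

theorem f_nonneg (u : V) : 0 ≤ f F u := by unfold f; positivity

theorem d_nonneg (u : V) : 0 ≤ d G u := by unfold d; positivity

theorem z_le_a (hFG : F ≤ G) (u w : V) : z F u w ≤ a G F u w := by
  rw [z_eq, a_eq]
  apply Finset.sum_le_sum
  intro x _
  exact mul_le_mul_of_nonneg_left (AA_le hFG w x) (AA_nonneg F u x)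

theorem AA_le_one (G : SimpleGraph V) [DecidableRel G.Adj] (u v : V) : AA G u v ≤ 1 := by
  unfold AA; split_ifs <;> norm_num

theorem a_le_f (u w : V) : a G F u w ≤ f F u := by
  rw [a_eq, f_eq]
  apply Finset.sum_le_sum
  intro x _
  have h1 := AA_nonneg F u x
  have h2 := AA_le_one G w x
  nlinarith

/-- `F(w)` and `F(u) ∩ N(w)` are contained in `N(w)` -/
theorem room (hFG : F ≤ G) (u w : V) : f F w + a G F u w - z F u w ≤ d G w := by
  rw [a_eq, f_eq, z_eq, d_eq, ← Finset.sum_add_distrib, ← Finset.sum_sub_distrib]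
  apply Finset.sum_le_sum
  intro x _
  have h1 := AA_le hFG w x
  have h2 := AA_le_one F u x
  have h3 := AA_nonneg F u x
  nlinarith [mul_nonneg (sub_nonneg.2 h1) (sub_nonneg.2 h2)]

/-- the number of untouched edges -/
theorem phi_sub_g (u : V) :
    phi F - g G F u = 1 / 2 * ∑ w ∈ univ.filter (fun w => ¬ G.Adj u w), (f F w - a G F w u) -
      1 / 2 * ∑ w ∈ G.neighborFinset u, a G F w u := by
  have h1 : ∑ w ∈ univ.filter (fun w => ¬ G.Adj u w), (f F w - a G F w u) =
      ∑ w, (f F w - a G F w u) - ∑ w ∈ G.neighborFinset u, (f F w - a G F w u) := by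
    have h2 : G.neighborFinset u = univ.filter (fun w => G.Adj u w) := by
      ext w; simp
    rw [h2, ← Finset.sum_filter_add_sum_filter_not univ (fun w => G.Adj u w)
      (fun w => f F w - a G F w u)]
    ring
  rw [h1, Finset.sum_sub_distrib, Finset.sum_sub_distrib, sum_a_left]
  unfold phi
  have h3 : g G F u = ∑ w ∈ G.neighborFinset u, f F w := rfl
  rw [← h3]
  ring

/-- the covering inequality -/
theorem covering (hF : StrongClique G F) (u : V) :
    0 ≤ ∑ w ∈ univ.filter (fun w => ¬ G.Adj u w), (a G F u w - f F u / 2) * (f F w - a G F w u) := by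
  set N : V → ℝ := fun w => 1 - AA G u w with hN
  have hfa : ∀ w, f F w - a G F w u = ∑ y, AA F w y * N y := by
    intro w
    rw [f_eq, a_eq, ← Finset.sum_sub_distrib]
    refine Finset.sum_congr rfl fun y _ => ?_
    rw [hN]; ring
  have h1 : ∑ w ∈ univ.filter (fun w => ¬ G.Adj u w), (a G F u w - f F u / 2) * (f F w - a G F w u) =
      ∑ w, ∑ y, N w * N y * AA F w y * (a G F u w - f F u / 2) := by
    rw [Finset.sum_filter]
    refine Finset.sum_congr rfl fun w _ => ?_
    rw [hfa, Finset.mul_sum]
    by_cases h : G.Adj u w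
    · have h2 : N w = 0 := by rw [hN]; simp [AA, h]
      rw [if_neg (by simp [h]), h2]
      simp
    · have h2 : N w = 1 := by rw [hN]; simp [AA, h]
      rw [if_pos h, h2]
      refine Finset.sum_congr rfl fun y _ => ?_
      ring
  have h2 : ∑ w, ∑ y, N w * N y * AA F w y * (a G F u w - f F u / 2) =
      ∑ w, ∑ y, N w * N y * AA F w y * (a G F u y - f F u / 2) := by
    rw [Finset.sum_comm]
    refine Finset.sum_congr rfl fun y _ => Finset.sum_congr rfl fun w _ => ?_
    rw [AA_symm F w y]
    ring
  have h3 : 0 ≤ ∑ w, ∑ y, N w * N y * AA F w y * (a G F u w + a G F u y - f F u) := by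
    refine Finset.sum_nonneg fun w _ => Finset.sum_nonneg fun y _ => ?_
    by_cases hw : G.Adj u w
    · have : N w = 0 := by rw [hN]; simp [AA, hw]
      rw [this]; simp
    by_cases hy : G.Adj u y
    · have : N y = 0 := by rw [hN]; simp [AA, hy]
      rw [this]; simp
    by_cases hwy : F.Adj w y
    · have hw' : N w = 1 := by rw [hN]; simp [AA, hw]
      have hy' : N y = 1 := by rw [hN]; simp [AA, hy]
      have hwy' : AA F w y = 1 := by simp [AA, hwy]
      rw [hw', hy', hwy']
      have : f F u ≤ a G F u w + a G F u y := by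
        rw [f_eq, a_eq, a_eq, ← Finset.sum_add_distrib]
        apply Finset.sum_le_sum
        intro v _
        by_cases hv : F.Adj u v
        · have h4 := hF.2 u v w y hv hwy
          have h5 : G.Adj v w ∨ G.Adj v y := by tauto
          have h6 : AA F u v = 1 := by simp [AA, hv]
          rw [h6]
          rcases h5 with h5 | h5
          · have h7 : AA G w v = 1 := by simp [AA, h5.symm]
            have h8 := AA_nonneg G y v
            rw [h7]; linarith
          · have h7 : AA G y v = 1 := by simp [AA, h5.symm]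
            have h8 := AA_nonneg G w v
            rw [h7]; linarith
        · have h6 : AA F u v = 0 := by simp [AA, hv]
          rw [h6]; simp
      linarith
    · have : AA F w y = 0 := by simp [AA, hwy]
      rw [this]; simp
  rw [h1]
  have h4 : ∑ w, ∑ y, N w * N y * AA F w y * (a G F u w + a G F u y - f F u) =
      ∑ w, ∑ y, N w * N y * AA F w y * (a G F u w - f F u / 2) +
      ∑ w, ∑ y, N w * N y * AA F w y * (a G F u y - f F u / 2) := by
    simp only [← Finset.sum_add_distrib]
    refine Finset.sum_congr rfl fun w _ => Finset.sum_congr rfl fun y _ => ?_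
    ring
  rw [h4, ← h2] at h3
  linarith

end MP433
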