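import Mathlib

/-!
# Strong cliques: common definitions (MP_433a35_co)

`G` is a finite simple graph, `F ≤ G` a set of edges of `G` (as a spanning subgraph).
`F` is a strong clique when any two edges of `F` share an endpoint or are joined by an edge of `G`.
All counting functions are real valued.
-/

namespace MP433

open Finset

variable {V : Type*} [Fintype V] [DecidableEq V]

/-- `F` is a strong clique of `G`.  (Two edges `uv`, `xy` of `F` which share an endpoint satisfy the
disjunction automatically, e.g. `u = x` gives `G.Adj v x`.) -/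
def StrongClique (G F : SimpleGraph V) : Prop :=
  F ≤ G ∧ ∀ u v x y, F.Adj u v → F.Adj x y →
    (G.Adj u x ∨ G.Adj u y ∨ G.Adj v x ∨ G.Adj v y)

variable (G F : SimpleGraph V) [DecidableRel G.Adj] [DecidableRel F.Adj]

/-- `G`-degree -/
noncomputable def d (u : V) : ℝ := ((G.neighborFinset u).card : ℝ)

/-- `F`-degree -/
noncomputable def f (u : V) : ℝ := ((F.neighborFinset u).card : ℝ)

/-- `|F(u) ∩ N(w)|` -/
noncomputable def a (u w : V) : ℝ := ((F.neighborFinset u ∩ G.neighborFinset w).card : ℝ)

/-- `|F(u) ∩ F(w)|` -/
noncomputable def z (u w : V) : ℝ := ((F.neighborFinset u ∩ F.neighborFinset w).card : ℝ)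

/-- `∑_{w ∼ u} f(w)` -/
noncomputable def g (u : V) : ℝ := ∑ w ∈ G.neighborFinset u, f F w

/-- number of edges of `F` -/
noncomputable def phi : ℝ := (∑ u, f F u) / 2

/-- Twice the number of edges of `G` at distance at most one from `uv`: the number of ordered
adjacent pairs `(x, y)` with an endpoint adjacent to `u` or `v`. -/
noncomputable def N2 (u v : V) : ℝ :=
  (((univ : Finset (V × V)).filter (fun p => G.Adj p.1 p.2 ∧
    (G.Adj u p.1 ∨ G.Adj u p.2 ∨ G.Adj v p.1 ∨ G.Adj v p.2))).card : ℝ)

end MP433
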