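import Pool.Agent.Work.MP_433a35_co.Defs

/-!
# Counting touched edges (MP_433a35_co)

`edge_count`: lower bound for the sum over the edges `e` of a strong clique of
`2 D ^ 2 - |N[e]|` (in ordered form), by counting adjacent endpoint pairs.
-/

set_option linter.unusedSectionVars false

namespace MP433

open Finset

variable {V : Type*} [Fintype V] [DecidableEq V]
variable (G F : SimpleGraph V) [DecidableRel G.Adj] [DecidableRel F.Adj]

/-- adjacency indicator -/
noncomputable def AA (G : SimpleGraph V) [DecidableRel G.Adj] (u v : V) : ℝ :=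
  if G.Adj u v then 1 else 0

theorem AA_symm (u v : V) : AA G u v = AA G v u := by
  unfold AA
  simp [SimpleGraph.adj_comm]

theorem AA_nonneg (u v : V) : 0 ≤ AA G u v := by
  unfold AA; split_ifs <;> norm_num

theorem d_eq (u : V) : d G u = ∑ x, AA G u x := by
  unfold d AA
  rw [Finset.sum_boole]
  congr 2
  ext x; simp

theorem f_eq (u : V) : f F u = ∑ x, AA F u x := by
  unfold f AA
  rw [Finset.sum_boole]
  congr 2
  ext x; simp

theorem a_eq (u w : V) : a G F u w = ∑ x, AA F u x * AA G w x := by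
  unfold a AA
  have : ∀ x, ((if F.Adj u x then 1 else 0 : ℝ) * if G.Adj w x then 1 else 0) =
      if (F.Adj u x ∧ G.Adj w x) then 1 else 0 := by
    intro x
    by_cases h1 : F.Adj u x <;> by_cases h2 : G.Adj w x <;> simp [h1, h2]
  simp only [this]
  rw [Finset.sum_boole]
  congr 2
  ext x; simp

theorem z_eq (u w : V) : z F u w = ∑ x, AA F u x * AA F w x := by
  unfold z AA
  have : ∀ x, ((if F.Adj u x then 1 else 0 : ℝ) * if F.Adj w x then 1 else 0) =
      if (F.Adj u x ∧ F.Adj w x) then 1 else 0 := by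
    intro x
    by_cases h1 : F.Adj u x <;> by_cases h2 : F.Adj w x <;> simp [h1, h2]
  simp only [this]
  rw [Finset.sum_boole]
  congr 2
  ext x; simp

theorem sum_nbr (h : V → ℝ) (u : V) :
    ∑ w ∈ G.neighborFinset u, h w = ∑ w, AA G u w * h w := by
  unfold AA
  simp only [ite_mul, one_mul, zero_mul]
  rw [← Finset.sum_filter]
  apply Finset.sum_congr _ (fun _ _ => rfl)
  ext x; simp

theorem g_eq (u : V) : g G F u = ∑ w, AA G u w * f F w := by
  unfold g
  exact sum_nbr G _ u

/-- indicator of touching -/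
noncomputable def TI (u v x y : V) : ℝ :=
  if (G.Adj u x ∨ G.Adj u y ∨ G.Adj v x ∨ G.Adj v y) then 1 else 0

theorem N2_eq (u v : V) : N2 G u v = ∑ x, ∑ y, AA G x y * TI G u v x y := by
  unfold N2
  rw [← Fintype.sum_prod_type' (f := fun x y => AA G x y * TI G u v x y)]
  have : ∀ p : V × V, AA G p.1 p.2 * TI G u v p.1 p.2 =
      if (G.Adj p.1 p.2 ∧ (G.Adj u p.1 ∨ G.Adj u p.2 ∨ G.Adj v p.1 ∨ G.Adj v p.2)) then 1 else 0 := by
    intro p
    unfold AA TI
    by_cases h1 : G.Adj p.1 p.2 <;>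
      by_cases h2 : (G.Adj u p.1 ∨ G.Adj u p.2 ∨ G.Adj v p.1 ∨ G.Adj v p.2) <;> simp [h1, h2]
  rw [Finset.sum_congr rfl (fun p _ => this p), Finset.sum_boole]

theorem TI_bound (u v x y : V) :
    TI G u v x y ≤ (AA G u x + AA G u y + AA G v x + AA G v y) -
      (AA G u x * AA G v y + AA G u y * AA G v x) := by
  unfold TI AA
  by_cases h1 : G.Adj u x <;> by_cases h2 : G.Adj u y <;> by_cases h3 : G.Adj v x <;>
    by_cases h4 : G.Adj v y <;> simp [h1, h2, h3, h4]

theorem TI_le_one (u v x y : V) : TI G u v x y ≤ 1 := by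
  unfold TI; split_ifs <;> norm_num

variable {G F}

theorem AA_le (hFG : F ≤ G) (u v : V) : AA F u v ≤ AA G u v := by
  unfold AA
  by_cases h1 : F.Adj u v
  · simp [h1, hFG h1]
  · simp only [h1, if_false]
    split_ifs <;> norm_num

theorem AA_mul (hFG : F ≤ G) (u v : V) : AA F u v * AA G u v = AA F u v := by
  unfold AA
  by_cases h1 : F.Adj u v
  · simp [h1, hFG h1]
  · simp [h1]

theorem AA_idem (u v : V) : AA F u v * AA F u v = AA F u v := by
  unfold AA
  by_cases h1 : F.Adj u v <;> simp [h1]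

/-- pointwise inequality -/
theorem point (hFG : F ≤ G) (u v x y : V) :
    AA F u v * (AA G x y * TI G u v x y) ≤
      AA F u v * AA G x y * (AA G u x + AA G u y + AA G v x + AA G v y) -
      AA F u v * AA F x y * ((AA G u x + AA G u y + AA G v x + AA G v y) - 1) -
      AA F u v * (AA G x y - AA F x y) * (AA G u x * AA G v y + AA G u y * AA G v x) := by
  have hb := AA_nonneg F u v
  by_cases h : F.Adj x y
  · have h1 : AA F x y = 1 := by unfold AA; simp [h]
    have h2 : AA G x y = 1 := by unfold AA; simp [hFG h]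
    rw [h1, h2]
    have h3 := TI_le_one G u v x y
    nlinarith [mul_le_mul_of_nonneg_left h3 hb]
  · have h1 : AA F x y = 0 := by unfold AA; simp [h]
    rw [h1]
    have h2 := TI_bound G u v x y
    have h3 := AA_nonneg G x y
    have h4 := mul_le_mul_of_nonneg_left h2 (mul_nonneg hb h3)
    nlinarith [h4]

theorem common (hFG : F ≤ G) (u y : V) :
    a G F u y + a G F y u - z F u y ≤ ∑ x, AA G u x * AA G y x := by
  rw [a_eq, a_eq, z_eq, ← Finset.sum_add_distrib, ← Finset.sum_sub_distrib]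
  apply Finset.sum_le_sum
  intro x _
  have h1 := AA_le hFG u x
  have h2 := AA_le hFG y x
  nlinarith [mul_nonneg (sub_nonneg.2 h1) (sub_nonneg.2 h2)]

theorem a_nonneg (u w : V) : 0 ≤ a G F u w := by unfold a; positivity

theorem edge_count (hF : StrongClique G F) (D : ℝ) :
    4 * ∑ u, f F u * g G F u - (∑ u, f F u) ^ 2 +
      2 * ∑ u, ∑ w, a G F u w * (a G F u w - z F u w) +
      4 * ∑ u, f F u * (D ^ 2 - ∑ x ∈ G.neighborFinset u, d G x) ≤
    ∑ u, ∑ v ∈ F.neighborFinset u, (4 * D ^ 2 - N2 G u v) := by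
  have hFG := hF.1
  -- the right side
  have hR : ∑ u, ∑ v ∈ F.neighborFinset u, (4 * D ^ 2 - N2 G u v) =
      4 * D ^ 2 * ∑ u, f F u - ∑ u, ∑ v, ∑ x, ∑ y, AA F u v * (AA G x y * TI G u v x y) := by
    have h1 : ∀ u, ∑ v ∈ F.neighborFinset u, (4 * D ^ 2 - N2 G u v) =
        4 * D ^ 2 * f F u - ∑ v, ∑ x, ∑ y, AA F u v * (AA G x y * TI G u v x y) := by
      intro u
      rw [sum_nbr F (fun v => 4 * D ^ 2 - N2 G u v) u, f_eq, Finset.mul_sum,
        ← Finset.sum_sub_distrib]
      refine Finset.sum_congr rfl fun v _ => ?_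
      rw [N2_eq]
      simp only [← Finset.mul_sum]
      ring
    rw [Finset.sum_congr rfl (fun u _ => h1 u), Finset.sum_sub_distrib, Finset.mul_sum]
  have hP : ∑ u, ∑ v, ∑ x, ∑ y, AA F u v * (AA G x y * TI G u v x y) ≤
      ∑ u, ∑ v, ∑ x, ∑ y, (AA F u v * AA G x y * (AA G u x + AA G u y + AA G v x + AA G v y) -
      AA F u v * AA F x y * ((AA G u x + AA G u y + AA G v x + AA G v y) - 1) -
      AA F u v * (AA G x y - AA F x y) * (AA G u x * AA G v y + AA G u y * AA G v x)) :=
    Finset.sum_le_sum fun u _ => Finset.sum_le_sum fun v _ => Finset.sum_le_sum fun x _ =>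
      Finset.sum_le_sum fun y _ => point hFG u v x y
  -- general swaps
  have swuv : ∀ h : V → V → V → V → ℝ, ∑ u, ∑ v, ∑ x, ∑ y, h u v x y =
      ∑ u, ∑ v, ∑ x, ∑ y, h v u x y := fun h => Finset.sum_comm
  have swxy : ∀ h : V → V → V → V → ℝ, ∑ u, ∑ v, ∑ x, ∑ y, h u v x y =
      ∑ u, ∑ v, ∑ x, ∑ y, h u v y x := fun h =>
    Finset.sum_congr rfl fun u _ => Finset.sum_congr rfl fun v _ => Finset.sum_comm
  have base : ∀ H : SimpleGraph V, ∀ [DecidableRel H.Adj],
      ∑ u, ∑ v, ∑ x, ∑ y, AA F u v * AA H x y * AA G u x =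
      ∑ u, f F u * ∑ x, AA G u x * ∑ y, AA H x y := by
    intro H _
    refine Finset.sum_congr rfl fun u _ => ?_
    rw [f_eq, Finset.sum_mul]
    refine Finset.sum_congr rfl fun v _ => ?_
    rw [Finset.mul_sum]
    refine Finset.sum_congr rfl fun x _ => ?_
    rw [Finset.mul_sum, Finset.mul_sum]
    refine Finset.sum_congr rfl fun y _ => ?_
    ring
  have four : ∀ H : SimpleGraph V, ∀ [DecidableRel H.Adj],
      ∑ u, ∑ v, ∑ x, ∑ y, AA F u v * AA H x y * (AA G u x + AA G u y + AA G v x + AA G v y) =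
      4 * ∑ u, f F u * ∑ x, AA G u x * ∑ y, AA H x y := by
    intro H _
    have e1 : ∑ u, ∑ v, ∑ x, ∑ y, AA F u v * AA H x y * AA G u y =
        ∑ u, f F u * ∑ x, AA G u x * ∑ y, AA H x y := by
      rw [swxy, ← base H]
      refine Finset.sum_congr rfl fun u _ => Finset.sum_congr rfl fun v _ =>
        Finset.sum_congr rfl fun x _ => Finset.sum_congr rfl fun y _ => ?_
      rw [AA_symm H y x]
    have e2 : ∑ u, ∑ v, ∑ x, ∑ y, AA F u v * AA H x y * AA G v x =
        ∑ u, f F u * ∑ x, AA G u x * ∑ y, AA H x y := by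
      rw [swuv, ← base H]
      refine Finset.sum_congr rfl fun u _ => Finset.sum_congr rfl fun v _ =>
        Finset.sum_congr rfl fun x _ => Finset.sum_congr rfl fun y _ => ?_
      rw [AA_symm F v u]
    have e3 : ∑ u, ∑ v, ∑ x, ∑ y, AA F u v * AA H x y * AA G v y =
        ∑ u, f F u * ∑ x, AA G u x * ∑ y, AA H x y := by
      rw [swuv, swxy, ← base H]
      refine Finset.sum_congr rfl fun u _ => Finset.sum_congr rfl fun v _ =>
        Finset.sum_congr rfl fun x _ => Finset.sum_congr rfl fun y _ => ?_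
      rw [AA_symm F v u, AA_symm H y x]
    have e0 := base H
    simp only [mul_add, Finset.sum_add_distrib]
    linarith
  have t1 := four G
  have t2 := four F
  have t1' : ∑ u, f F u * ∑ x, AA G u x * ∑ y, AA G x y =
      ∑ u, f F u * ∑ x ∈ G.neighborFinset u, d G x := by
    refine Finset.sum_congr rfl fun u _ => ?_
    rw [sum_nbr]
    simp only [d_eq]
  have t2' : ∑ u, f F u * ∑ x, AA G u x * ∑ y, AA F x y = ∑ u, f F u * g G F u := by
    refine Finset.sum_congr rfl fun u _ => ?_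
    rw [g_eq]
    simp only [f_eq]
  have t3 : ∑ u, ∑ v, ∑ x, ∑ y, AA F u v * AA F x y = (∑ u, f F u) ^ 2 := by
    simp only [← Finset.mul_sum, ← f_eq]
    rw [pow_two, Finset.sum_mul]
    refine Finset.sum_congr rfl fun u _ => ?_
    rw [← Finset.sum_mul, ← f_eq]
  have t4 : ∑ u, ∑ w, a G F u w * (a G F u w - z F u w) ≤
      ∑ u, ∑ v, ∑ x, ∑ y, AA F u v * (AA G x y - AA F x y) * (AA G u x * AA G v y) := by
    have h1 : ∑ u, ∑ v, ∑ x, ∑ y, AA F u v * (AA G x y - AA F x y) * (AA G u x * AA G v y) =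
        ∑ u, ∑ y, a G F u y * ((∑ x, AA G u x * AA G y x) - a G F y u) := by
      refine Finset.sum_congr rfl fun u _ => ?_
      have h2 : ∀ y, a G F u y * ((∑ x, AA G u x * AA G y x) - a G F y u) =
          ∑ v, ∑ x, AA F u v * (AA G x y - AA F x y) * (AA G u x * AA G v y) := by
        intro y
        rw [a_eq, a_eq, ← Finset.sum_sub_distrib, Finset.sum_mul]
        refine Finset.sum_congr rfl fun v _ => ?_
        rw [Finset.mul_sum]
        refine Finset.sum_congr rfl fun x _ => ?_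
        rw [AA_symm G y v, AA_symm G y x, AA_symm F y x]
        ring
      rw [Finset.sum_congr rfl (fun y _ => h2 y)]
      symm
      rw [Finset.sum_comm]
      refine Finset.sum_congr rfl fun v _ => ?_
      rw [Finset.sum_comm]
    rw [h1]
    refine Finset.sum_le_sum fun u _ => Finset.sum_le_sum fun y _ => ?_
    apply mul_le_mul_of_nonneg_left _ (a_nonneg u y)
    have := common hFG u y
    linarith
  have t5 : ∑ u, ∑ v, ∑ x, ∑ y, AA F u v * (AA G x y - AA F x y) * (AA G u y * AA G v x) =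
      ∑ u, ∑ v, ∑ x, ∑ y, AA F u v * (AA G x y - AA F x y) * (AA G u x * AA G v y) := by
    rw [swxy]
    refine Finset.sum_congr rfl fun u _ => Finset.sum_congr rfl fun v _ =>
      Finset.sum_congr rfl fun x _ => Finset.sum_congr rfl fun y _ => ?_
    rw [AA_symm G y x, AA_symm F y x]
  have hsplit : ∑ u, ∑ v, ∑ x, ∑ y,
      (AA F u v * AA G x y * (AA G u x + AA G u y + AA G v x + AA G v y) -
      AA F u v * AA F x y * ((AA G u x + AA G u y + AA G v x + AA G v y) - 1) -
      AA F u v * (AA G x y - AA F x y) * (AA G u x * AA G v y + AA G u y * AA G v x)) =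
      4 * ∑ u, f F u * ∑ x ∈ G.neighborFinset u, d G x -
      (4 * ∑ u, f F u * g G F u - (∑ u, f F u) ^ 2) -
      (∑ u, ∑ v, ∑ x, ∑ y, AA F u v * (AA G x y - AA F x y) * (AA G u x * AA G v y) +
       ∑ u, ∑ v, ∑ x, ∑ y, AA F u v * (AA G x y - AA F x y) * (AA G u y * AA G v x)) := by
    rw [← t1', ← t2', ← t1, ← t2, ← t3]
    simp only [← Finset.sum_add_distrib, ← Finset.sum_sub_distrib]
    refine Finset.sum_congr rfl fun u _ => Finset.sum_congr rfl fun v _ =>
      Finset.sum_congr rfl fun x _ => Finset.sum_congr rfl fun y _ => ?_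
    ring
  have hlast : 4 * ∑ u, f F u * (D ^ 2 - ∑ x ∈ G.neighborFinset u, d G x) =
      4 * D ^ 2 * ∑ u, f F u - 4 * ∑ u, f F u * ∑ x ∈ G.neighborFinset u, d G x := by
    simp only [mul_sub, Finset.sum_sub_distrib, ← Finset.sum_mul]
    ring
  rw [hR, hlast]
  rw [hsplit, t5] at hP
  linarith

end MP433
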