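import Pool.Agent.Work.MP_433a35_co.Weights

/-!
# The edge inequality (MP_433a35_co)

`4 t - 3 ≤ t * FF p q t` for all `p, q ∈ [0,1]`.  `FF p q t = t * S - C` with
`S = om p + om q`; it is enough that `(4 + C)^2 ≤ 12 S`.  `C` depends linearly on `p q`
when `p + q` is fixed, so the two extreme values of `p q` are enough, and there a
polynomial of degree 6 in `s = p + q` has to be nonnegative (Bernstein form).
-/

set_option linter.unusedVariables false

namespace MP433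

noncomputable def C1 (s : ℝ) : ℝ := 823/500 - 1981/3000 * s + 503/1500 * s^2 - 613/3000 * s^3

lemma C1_le0 {s : ℝ} (h0 : 0 ≤ s) (h1 : s ≤ 1/2) :
    (4 + C1 s)^2 ≤ 12 * (2660/1000 - 473/1000 * s) := by
  have hx : 0 ≤ s - 0 := by linarith
  have hy : 0 ≤ 1/2 - s := by linarith
  have key : 0 ≤ 42684/15625 * (1/2 - s)^6
      + 1146346/15625 * (s - 0)^1 * (1/2 - s)^5
      + 145289303/562500 * (s - 0)^2 * (1/2 - s)^4
      + 17631751/46875 * (s - 0)^3 * (1/2 - s)^3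
      + 6745877/25000 * (s - 0)^4 * (1/2 - s)^2
      + 11780061/125000 * (s - 0)^5 * (1/2 - s)^1
      + 12849951/1000000 * (s - 0)^6 := by positivity
  have e : 12 * (2660/1000 - 473/1000 * s) - (4 + C1 s)^2 = 42684/15625 * (1/2 - s)^6
      + 1146346/15625 * (s - 0)^1 * (1/2 - s)^5
      + 145289303/562500 * (s - 0)^2 * (1/2 - s)^4
      + 17631751/46875 * (s - 0)^3 * (1/2 - s)^3
      + 6745877/25000 * (s - 0)^4 * (1/2 - s)^2
      + 11780061/125000 * (s - 0)^5 * (1/2 - s)^1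
      + 12849951/1000000 * (s - 0)^6 := by
    unfold C1; ring
  linarith

lemma C1_le1 {s : ℝ} (h0 : 1/2 ≤ s) (h1 : s ≤ 1) :
    (4 + C1 s)^2 ≤ 12 * (2660/1000 - 473/1000 * s) := by
  have hx : 0 ≤ s - 1/2 := by linarith
  have hy : 0 ≤ 1 - s := by linarith
  have key : 0 ≤ 12849951/1000000 * (1 - s)^6
      + 14989731/250000 * (s - 1/2)^1 * (1 - s)^5
      + 4921363/50000 * (s - 1/2)^2 * (1 - s)^4
      + 6460243/93750 * (s - 1/2)^3 * (1 - s)^3
      + 3124559/140625 * (s - 1/2)^4 * (1 - s)^2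
      + 49208/5625 * (s - 1/2)^5 * (1 - s)^1
      + 4588/1125 * (s - 1/2)^6 := by positivity
  have e : 12 * (2660/1000 - 473/1000 * s) - (4 + C1 s)^2 = 12849951/1000000 * (1 - s)^6
      + 14989731/250000 * (s - 1/2)^1 * (1 - s)^5
      + 4921363/50000 * (s - 1/2)^2 * (1 - s)^4
      + 6460243/93750 * (s - 1/2)^3 * (1 - s)^3
      + 3124559/140625 * (s - 1/2)^4 * (1 - s)^2
      + 49208/5625 * (s - 1/2)^5 * (1 - s)^1
      + 4588/1125 * (s - 1/2)^6 := by
    unfold C1; ring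
  linarith

lemma C1_le {s : ℝ} (h0 : 0 ≤ s) (h1 : s ≤ 1) :
    (4 + C1 s)^2 ≤ 12 * (2660/1000 - 473/1000 * s) := by
  rcases le_total s (1/2) with h | h
  · exact C1_le0 h0 h
  · exact C1_le1 h h1

noncomputable def C2 (s : ℝ) : ℝ := 3541/1500 - 1981/1000 * s + 353/375 * s^2 - 613/3000 * s^3

lemma C2_le0 {s : ℝ} (h0 : 1 ≤ s) (h1 : s ≤ 6/5) :
    (4 + C2 s)^2 ≤ 12 * (2660/1000 - 473/1000 * s) := by
  have hx : 0 ≤ s - 1 := by linarith
  have hy : 0 ≤ 6/5 - s := by linarith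
  have key : 0 ≤ 143375/144 * (6/5 - s)^6
      + 395435/36 * (s - 1)^1 * (6/5 - s)^5
      + 135253511/3600 * (s - 1)^2 * (6/5 - s)^4
      + 109208849/1800 * (s - 1)^3 * (6/5 - s)^3
      + 18536553791/360000 * (s - 1)^4 * (6/5 - s)^2
      + 13938054/625 * (s - 1)^5 * (6/5 - s)^1
      + 548469329/140625 * (s - 1)^6 := by positivity
  have e : 12 * (2660/1000 - 473/1000 * s) - (4 + C2 s)^2 = 143375/144 * (6/5 - s)^6
      + 395435/36 * (s - 1)^1 * (6/5 - s)^5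
      + 135253511/3600 * (s - 1)^2 * (6/5 - s)^4
      + 109208849/1800 * (s - 1)^3 * (6/5 - s)^3
      + 18536553791/360000 * (s - 1)^4 * (6/5 - s)^2
      + 13938054/625 * (s - 1)^5 * (6/5 - s)^1
      + 548469329/140625 * (s - 1)^6 := by
    unfold C2; ring
  linarith

lemma C2_le {s : ℝ} (h0 : 1 ≤ s) (h1 : s ≤ 6/5) :
    (4 + C2 s)^2 ≤ 12 * (2660/1000 - 473/1000 * s) := by
  exact C2_le0 h0 h1

noncomputable def C3 (s : ℝ) : ℝ := 823/500 - 1981/3000 * s + 47/300 * s^2 - 317/6000 * s^3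

lemma C3_le0 {s : ℝ} (h0 : 11/10 ≤ s) (h1 : s ≤ 3/2) :
    (4 + C3 s)^2 ≤ 12 * (2660/1000 - 473/1000 * s) := by
  have hx : 0 ≤ s - 11/10 := by linarith
  have hy : 0 ≤ 3/2 - s := by linarith
  have key : 0 ≤ 10299603707471/147456000000 * (3/2 - s)^6
      + 5370446115349/14745600000 * (s - 11/10)^1 * (3/2 - s)^5
      + 504762172457/655360000 * (s - 11/10)^2 * (3/2 - s)^4
      + 248837627027/294912000 * (s - 11/10)^3 * (3/2 - s)^3
      + 118925373761/235929600 * (s - 11/10)^4 * (3/2 - s)^2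
      + 244915835/1572864 * (s - 11/10)^5 * (3/2 - s)^1
      + 20510375/1048576 * (s - 11/10)^6 := by positivity
  have e : 12 * (2660/1000 - 473/1000 * s) - (4 + C3 s)^2 = 10299603707471/147456000000 * (3/2 - s)^6
      + 5370446115349/14745600000 * (s - 11/10)^1 * (3/2 - s)^5
      + 504762172457/655360000 * (s - 11/10)^2 * (3/2 - s)^4
      + 248837627027/294912000 * (s - 11/10)^3 * (3/2 - s)^3
      + 118925373761/235929600 * (s - 11/10)^4 * (3/2 - s)^2
      + 244915835/1572864 * (s - 11/10)^5 * (3/2 - s)^1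
      + 20510375/1048576 * (s - 11/10)^6 := by
    unfold C3; ring
  linarith

lemma C3_le1 {s : ℝ} (h0 : 3/2 ≤ s) (h1 : s ≤ 2) :
    (4 + C3 s)^2 ≤ 12 * (2660/1000 - 473/1000 * s) := by
  have hx : 0 ≤ s - 3/2 := by linarith
  have hy : 0 ≤ 2 - s := by linarith
  have key : 0 ≤ 164083/32000 * (2 - s)^6
      + 1091903/60000 * (s - 3/2)^1 * (2 - s)^5
      + 12275339/562500 * (s - 3/2)^2 * (2 - s)^4
      + 6318253/562500 * (s - 3/2)^3 * (2 - s)^3
      + 473303/62500 * (s - 3/2)^4 * (2 - s)^2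
      + 1194772/140625 * (s - 3/2)^5 * (2 - s)^1
      + 478256/140625 * (s - 3/2)^6 := by positivity
  have e : 12 * (2660/1000 - 473/1000 * s) - (4 + C3 s)^2 = 164083/32000 * (2 - s)^6
      + 1091903/60000 * (s - 3/2)^1 * (2 - s)^5
      + 12275339/562500 * (s - 3/2)^2 * (2 - s)^4
      + 6318253/562500 * (s - 3/2)^3 * (2 - s)^3
      + 473303/62500 * (s - 3/2)^4 * (2 - s)^2
      + 1194772/140625 * (s - 3/2)^5 * (2 - s)^1
      + 478256/140625 * (s - 3/2)^6 := by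
    unfold C3; ring
  linarith

lemma C3_le {s : ℝ} (h0 : 11/10 ≤ s) (h1 : s ≤ 2) :
    (4 + C3 s)^2 ≤ 12 * (2660/1000 - 473/1000 * s) := by
  rcases le_total s (3/2) with h | h
  · exact C3_le0 h0 h
  · exact C3_le1 h h1

/-- the cost part of `FF` -/
noncomputable def CC (p q : ℝ) : ℝ :=
  mu p * (1 - q) + mu q * (1 - p) + ka p * q + ka q * p
    + (1 - p) * ga p + (1 - q) * ga q + rh p * (2 - p)^2 / 3 + rh q * (2 - q)^2 / 3

lemma FF_eq (p q t : ℝ) : FF p q t = t * (2660/1000 - 473/1000 * (p + q)) - CC p q := by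
  unfold FF CC om; ring

lemma CC_nonneg {p q : ℝ} (hp0 : 0 ≤ p) (hp1 : p ≤ 1) (hq0 : 0 ≤ q) (hq1 : q ≤ 1) :
    0 ≤ CC p q := by
  have m0 : ∀ x : ℝ, 0 ≤ x → x ≤ 1 → 0 ≤ mu x := by
    intro x h0 h1; unfold mu; nlinarith [mul_nonneg h0 (sub_nonneg.2 h1), sq_nonneg (1 - x)]
  have k0 : ∀ x : ℝ, 0 ≤ x → x ≤ 1 → 0 ≤ ka x := by
    intro x h0 h1; unfold ka; nlinarith [mul_nonneg h0 (sub_nonneg.2 h1), sq_nonneg (1 - x)]
  have g0 : ∀ x : ℝ, 0 ≤ x → 0 ≤ ga x := by
    intro x h0; unfold ga; positivity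
  have r0 : ∀ x : ℝ, 0 ≤ x → 0 ≤ rh x := by
    intro x h0; unfold rh; positivity
  have a1 : 0 ≤ 1 - p := by linarith
  have a2 : 0 ≤ 1 - q := by linarith
  have := mul_nonneg (m0 p hp0 hp1) a2
  have := mul_nonneg (m0 q hq0 hq1) a1
  have := mul_nonneg (k0 p hp0 hp1) hq0
  have := mul_nonneg (k0 q hq0 hq1) hp0
  have := mul_nonneg a1 (g0 p hp0)
  have := mul_nonneg a2 (g0 q hq0)
  have := mul_nonneg (r0 p hp0) (sq_nonneg (2 - p))
  have := mul_nonneg (r0 q hq0) (sq_nonneg (2 - q))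
  unfold CC
  linarith

lemma CC_sq_le {p q : ℝ} (hp0 : 0 ≤ p) (hp1 : p ≤ 1) (hq0 : 0 ≤ q) (hq1 : q ≤ 1) :
    (4 + CC p q)^2 ≤ 12 * (2660/1000 - 473/1000 * (p + q)) := by
  have hC := CC_nonneg hp0 hp1 hq0 hq1
  have hr0 : 0 ≤ p * q := mul_nonneg hp0 hq0
  have hr1 : p + q - 1 ≤ p * q := by nlinarith [mul_nonneg (sub_nonneg.2 hp1) (sub_nonneg.2 hq1)]
  have hr2 : p * q ≤ (p + q)^2 / 4 := by nlinarith [sq_nonneg (p - q)]
  have e : CC p q = C1 (p + q) + (p * q) * (-(268/375) + 303/500 * (p + q)) := by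
    unfold CC C1 mu ka ga rh; ring
  rcases le_total (p + q) 1 with h | h
  · have h2 : CC p q ≤ C1 (p + q) := by
      rw [e]; nlinarith
    have h3 := C1_le (s := p + q) (by linarith) h
    nlinarith
  · rcases le_total (-(268/375) + 303/500 * (p + q)) 0 with h' | h'
    · have h2 : CC p q ≤ C2 (p + q) := by
        have e2 : C2 (p + q) = C1 (p + q) + (p + q - 1) * (-(268/375) + 303/500 * (p + q)) := by
          unfold C2 C1; ring
        rw [e, e2]; nlinarith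
      have h3 := C2_le (s := p + q) h (by linarith)
      nlinarith
    · have h2 : CC p q ≤ C3 (p + q) := by
        have e2 : C3 (p + q) = C1 (p + q) + ((p + q)^2/4) * (-(268/375) + 303/500 * (p + q)) := by
          unfold C3 C1; ring
        rw [e, e2]; nlinarith
      have h3 := C3_le (s := p + q) (by linarith) (by linarith)
      nlinarith

/-- **The edge inequality.** -/
theorem F_ineq {p q t : ℝ} (hp0 : 0 ≤ p) (hp1 : p ≤ 1) (hq0 : 0 ≤ q) (hq1 : q ≤ 1)
    (ht1 : 1 ≤ t) (ht2 : t ≤ 4/3) : 4 * t - 3 ≤ t * FF p q t := by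
  rw [FF_eq]
  have hC := CC_nonneg hp0 hp1 hq0 hq1
  have hs := CC_sq_le hp0 hp1 hq0 hq1
  set S := 2660/1000 - 473/1000 * (p + q) with hS
  set C := CC p q with hCC
  have hSpos : 0 < S := by rw [hS]; linarith
  have h4 : 0 ≤ 4 * S * (t * (t * S - C) - (4 * t - 3)) := by
    have : 4 * S * (t * (t * S - C) - (4 * t - 3))
        = (2 * t * S - (4 + C))^2 + (12 * S - (4 + C)^2) := by ring
    rw [this]
    have := sq_nonneg (2 * t * S - (4 + C))
    linarith
  have h5 : 0 < 4 * S := by linarith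
  have := nonneg_of_mul_nonneg_right h4 h5
  linarith

end MP433
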