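import Pool.Agent.Work.MP_433a35_co.Defs

set_option autoImplicit false

/-!
# The Faron–Postle bound for a strong clique of edges

If `F ≤ G` is a strong clique and `d u + d v ≤ σ` for every edge `uv` of `F`, then `3 |F| ≤ σ²`.
-/

namespace MP433

open Finset

section Classical

variable {V : Type*} [Fintype V]

open Classical in
/-- The degree (with classical decidability). -/
noncomputable def dg (G : SimpleGraph V) (v : V) : ℕ := (univ.filter fun w => G.Adj v w).card

/-- The number of edges, as a real number. -/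
noncomputable def ec (F : SimpleGraph V) : ℝ := (∑ v, (dg F v : ℝ)) / 2

open Classical in
/-- The number of `F`-edges touched by the neighbours of `u` in `G`, with multiplicity. -/
noncomputable def gs (G F : SimpleGraph V) (u : V) : ℝ := ∑ w, if G.Adj u w then (dg F w : ℝ) else 0

open Classical in
lemma dg_cast (G : SimpleGraph V) (v : V) :
    (dg G v : ℝ) = ∑ w, if G.Adj v w then (1 : ℝ) else 0 := by
  unfold dg
  rw [Finset.sum_ite, Finset.sum_const_zero, add_zero, Finset.sum_const, nsmul_eq_mul, mul_one]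

open Classical in
lemma sum_pairs (F : SimpleGraph V) :
    (∑ a, ∑ b, if F.Adj a b then (1 : ℝ) else 0) = 2 * ec F := by
  unfold ec
  rw [mul_div_cancel₀ _ (two_ne_zero' ℝ)]
  exact Finset.sum_congr rfl fun a _ => (dg_cast F a).symm

open Classical in
lemma sum_pairs_left (G F : SimpleGraph V) (u : V) :
    (∑ a, ∑ b, if F.Adj a b ∧ G.Adj u a then (1 : ℝ) else 0) = gs G F u := by
  unfold gs
  refine Finset.sum_congr rfl fun a _ => ?_
  by_cases h : G.Adj u a
  · simp [h, dg_cast]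
  · simp [h]

open Classical in
lemma sum_pairs_right (G F : SimpleGraph V) (u : V) :
    (∑ a, ∑ b, if F.Adj a b ∧ G.Adj u b then (1 : ℝ) else 0) = gs G F u := by
  rw [Finset.sum_comm, ← sum_pairs_left]
  refine Finset.sum_congr rfl fun a _ => Finset.sum_congr rfl fun b _ => ?_
  simp [F.adj_comm]

lemma dg_nonneg (G : SimpleGraph V) (v : V) : (0 : ℝ) ≤ dg G v := Nat.cast_nonneg _

lemma ec_nonneg (F : SimpleGraph V) : 0 ≤ ec F :=
  div_nonneg (Finset.sum_nonneg fun v _ => dg_nonneg F v) (by norm_num)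

lemma dg_mono {G H : SimpleGraph V} (h : G ≤ H) (v : V) : dg G v ≤ dg H v := by
  classical
  unfold dg
  exact Finset.card_le_card fun w hw => by
    simp only [mem_filter, mem_univ, true_and] at hw ⊢
    exact h hw

lemma dg_pos_of_adj {F : SimpleGraph V} {u v : V} (h : F.Adj u v) : 1 ≤ dg F u := by
  classical
  unfold dg
  exact Finset.card_pos.2 ⟨v, by simp [h]⟩

/-- The `F`-edges with no endpoint adjacent to `u`. -/
def Rg (G F : SimpleGraph V) (u : V) : SimpleGraph V where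
  Adj x y := F.Adj x y ∧ ¬ G.Adj u x ∧ ¬ G.Adj u y
  symm := ⟨fun _ _ h => ⟨h.1.symm, h.2.2, h.2.1⟩⟩
  loopless := ⟨fun x h => F.loopless.irrefl x h.1⟩

/-- `G` with the edges meeting `F(u)` deleted. -/
def Dg (G F : SimpleGraph V) (u : V) : SimpleGraph V where
  Adj x y := G.Adj x y ∧ ¬ F.Adj u x ∧ ¬ F.Adj u y
  symm := ⟨fun _ _ h => ⟨h.1.symm, h.2.2, h.2.1⟩⟩
  loopless := ⟨fun x h => G.loopless.irrefl x h.1⟩

omit [Fintype V] in
lemma strongClique_Rg {G F : SimpleGraph V} (hF : StrongClique G F) (u : V) :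
    StrongClique (Dg G F u) (Rg G F u) := by
  have key : ∀ x, ¬ G.Adj u x → ¬ F.Adj u x := fun x hx h => hx (hF.1 h)
  refine ⟨fun x y h => ⟨hF.1 h.1, key x h.2.1, key y h.2.2⟩, fun a b x y h1 h2 => ?_⟩
  have ha := key a h1.2.1
  have hb := key b h1.2.2
  have hx := key x h2.2.1
  have hy := key y h2.2.2
  rcases hF.2 a b x y h1.1 h2.1 with h | h | h | h
  · exact Or.inl ⟨h, ha, hx⟩
  · exact Or.inr (Or.inl ⟨h, ha, hy⟩)
  · exact Or.inr (Or.inr (Or.inl ⟨h, hb, hx⟩))
  · exact Or.inr (Or.inr (Or.inr ⟨h, hb, hy⟩))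

lemma ore_Rg {G F : SimpleGraph V} (hF : StrongClique G F) (u : V) {x y : V}
    (h : (Rg G F u).Adj x y) :
    (dg (Dg G F u) x : ℝ) + dg (Dg G F u) y + dg F u ≤ dg G x + dg G y := by
  classical
  rw [dg_cast, dg_cast, dg_cast, dg_cast, dg_cast, ← Finset.sum_add_distrib,
    ← Finset.sum_add_distrib, ← Finset.sum_add_distrib]
  refine Finset.sum_le_sum fun w _ => ?_
  have key : F.Adj u w → (G.Adj x w ∨ G.Adj y w) := by
    intro hw
    rcases hF.2 u w x y hw h.1 with h' | h' | h' | h'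
    · exact absurd h' h.2.1
    · exact absurd h' h.2.2
    · exact Or.inl h'.symm
    · exact Or.inr h'.symm
  have e1 : (Dg G F u).Adj x w ↔ G.Adj x w ∧ ¬ F.Adj u x ∧ ¬ F.Adj u w := Iff.rfl
  have e2 : (Dg G F u).Adj y w ↔ G.Adj y w ∧ ¬ F.Adj u y ∧ ¬ F.Adj u w := Iff.rfl
  by_cases hw : F.Adj u w
  · have n1 : ¬ (Dg G F u).Adj x w := fun h' => (e1.1 h').2.2 hw
    have n2 : ¬ (Dg G F u).Adj y w := fun h' => (e2.1 h').2.2 hw
    rw [if_neg n1, if_neg n2, if_pos hw]
    rcases key hw with h' | h'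
    · rw [if_pos h']
      split_ifs <;> norm_num
    · rw [if_pos h']
      split_ifs <;> norm_num
  · rw [if_neg hw, add_zero]
    refine add_le_add ?_ ?_
    · by_cases h1 : (Dg G F u).Adj x w
      · rw [if_pos h1, if_pos (e1.1 h1).1]
      · rw [if_neg h1]
        split_ifs <;> norm_num
    · by_cases h1 : (Dg G F u).Adj y w
      · rw [if_pos h1, if_pos (e2.1 h1).1]
      · rw [if_neg h1]
        split_ifs <;> norm_num

lemma ec_le_gs_add (G F : SimpleGraph V) (u : V) : ec F ≤ gs G F u + ec (Rg G F u) := by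
  classical
  have h : (∑ a, ∑ b, if F.Adj a b then (1 : ℝ) else 0) ≤
      ∑ a, ∑ b, (((if F.Adj a b ∧ G.Adj u a then (1 : ℝ) else 0) +
        (if F.Adj a b ∧ G.Adj u b then (1 : ℝ) else 0)) +
        if (Rg G F u).Adj a b then (1 : ℝ) else 0) := by
    refine Finset.sum_le_sum fun a _ => Finset.sum_le_sum fun b _ => ?_
    have e : (Rg G F u).Adj a b ↔ F.Adj a b ∧ ¬ G.Adj u a ∧ ¬ G.Adj u b := Iff.rfl
    by_cases h1 : F.Adj a b <;> by_cases h2 : G.Adj u a <;> by_cases h3 : G.Adj u b <;>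
      simp [e, h1, h2, h3]
  simp only [Finset.sum_add_distrib] at h
  rw [sum_pairs, sum_pairs_left, sum_pairs_right, sum_pairs] at h
  linarith

lemma ec_le_gs_gs {G F : SimpleGraph V} (hF : StrongClique G F) {u v : V} (h : F.Adj u v) :
    ec F ≤ gs G F u + gs G F v := by
  classical
  have h : (∑ a, ∑ b, if F.Adj a b then (1 : ℝ) else 0) ≤
      ∑ a, ∑ b, (((if F.Adj a b ∧ G.Adj u a then (1 : ℝ) else 0) +
        (if F.Adj a b ∧ G.Adj u b then (1 : ℝ) else 0)) +
        ((if F.Adj a b ∧ G.Adj v a then (1 : ℝ) else 0) +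
        (if F.Adj a b ∧ G.Adj v b then (1 : ℝ) else 0))) := by
    refine Finset.sum_le_sum fun a _ => Finset.sum_le_sum fun b _ => ?_
    by_cases h1 : F.Adj a b
    · have h' := hF.2 u v a b h h1
      rw [if_pos h1]
      rcases h' with h' | h' | h' | h'
      · rw [if_pos (⟨h1, h'⟩ : F.Adj a b ∧ G.Adj u a)]
        split_ifs <;> norm_num
      · rw [if_pos (⟨h1, h'⟩ : F.Adj a b ∧ G.Adj u b)]
        split_ifs <;> norm_num
      · rw [if_pos (⟨h1, h'⟩ : F.Adj a b ∧ G.Adj v a)]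
        split_ifs <;> norm_num
      · rw [if_pos (⟨h1, h'⟩ : F.Adj a b ∧ G.Adj v b)]
        split_ifs <;> norm_num
    · rw [if_neg h1]
      split_ifs <;> norm_num
  simp only [Finset.sum_add_distrib] at h
  rw [sum_pairs, sum_pairs_left, sum_pairs_right, sum_pairs_left, sum_pairs_right] at h
  linarith

/-- `gs u ≤ k j + (D - k) k`. -/
lemma gs_le_max {G F : SimpleGraph V} (hle : F ≤ G) (u : V) (k j : ℕ)
    (hk : ∀ w, dg F w ≤ k) (hj : ∀ w, F.Adj u w → dg F w ≤ j) :
    gs G F u ≤ (dg F u : ℝ) * j + ((dg G u : ℝ) - dg F u) * k := by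
  classical
  have h : gs G F u ≤ ∑ w, ((if F.Adj u w then (1 : ℝ) else 0) * j +
      ((if G.Adj u w then (1 : ℝ) else 0) - (if F.Adj u w then (1 : ℝ) else 0)) * k) := by
    unfold gs
    refine Finset.sum_le_sum fun w _ => ?_
    by_cases h1 : F.Adj u w
    · rw [if_pos h1, if_pos (hle h1), if_pos (hle h1)]
      have : (dg F w : ℝ) ≤ j := by exact_mod_cast hj w h1
      linarith
    · rw [if_neg h1]
      by_cases h2 : G.Adj u w
      · rw [if_pos h2, if_pos h2]
        have : (dg F w : ℝ) ≤ k := by exact_mod_cast hk w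
        linarith
      · rw [if_neg h2, if_neg h2]
        linarith
  rw [dg_cast, dg_cast, Finset.sum_mul, ← Finset.sum_sub_distrib, Finset.sum_mul,
    ← Finset.sum_add_distrib]
  exact h

lemma gs_le_max' {G F : SimpleGraph V} (u : V) (k : ℕ) (hk : ∀ w, dg F w ≤ k) :
    gs G F u ≤ (dg G u : ℝ) * k := by
  classical
  unfold gs
  rw [dg_cast, Finset.sum_mul]
  refine Finset.sum_le_sum fun w _ => ?_
  by_cases h2 : G.Adj u w
  · rw [if_pos h2, if_pos h2, one_mul]
    exact_mod_cast hk w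
  · rw [if_neg h2, if_neg h2, zero_mul]

/-- The elementary inequality behind the induction. -/
lemma fp_real {σ k j D E : ℝ} (hj : 0 < j) (hjk : j ≤ k) (hkD : k ≤ D) (hjD : j ≤ σ - D)
    (h1 : E ≤ k * j + (D - k) * k + (σ - k) ^ 2 / 3)
    (h2 : E ≤ (σ - D) * k + (σ - j) ^ 2 / 3)
    (h3 : E ≤ k * j + (D - k) * k + (σ - D) * k) : 3 * E ≤ σ ^ 2 := by
  by_contra hcon
  push Not at hcon
  have hk : 0 < k := lt_of_lt_of_le hj hjk
  have hσ : 0 < σ := by linarith
  -- (i)
  have i1 : 3 * (σ - D) < σ - 2 * k + 3 * j := by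
    have : 0 < k * (3 * j + 3 * D - 2 * k - 2 * σ) := by nlinarith
    have := (mul_pos_iff_of_pos_left hk).1 this
    linarith
  -- (ii)
  have i2 : 0 < j ^ 2 + (3 * k - 2 * σ) * j + k * (σ - 2 * k) := by
    have : k * (3 * (σ - D)) < k * (σ - 2 * k + 3 * j) := mul_lt_mul_of_pos_left i1 hk
    nlinarith
  -- (iii)
  have i3 : σ ^ 2 < 3 * k * (σ + j - k) := by nlinarith
  have hk3 : σ < 3 * k := by
    by_contra hc
    push Not at hc
    have : 3 * k * (σ + j - k) ≤ 3 * k * σ := by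
      apply mul_le_mul_of_nonneg_left _ (by positivity)
      linarith
    nlinarith
  have hkσ : k < σ := by linarith
  obtain ⟨j0, hj0⟩ : ∃ j0 : ℝ, 3 * k * (j0 + σ - k) = σ ^ 2 := by
    refine ⟨σ ^ 2 / (3 * k) - σ + k, ?_⟩
    field_simp
    ring
  have hjj0 : j0 < j := by
    have : 3 * k * (j0 + σ - k) < 3 * k * (σ + j - k) := by rw [hj0]; exact i3
    have := lt_of_mul_lt_mul_left this (by positivity)
    linarith
  have hE0 : j0 ^ 2 + (3 * k - 2 * σ) * j0 + k * (σ - 2 * k) < 0 := by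
    have e : 9 * k ^ 2 * (j0 ^ 2 + (3 * k - 2 * σ) * j0 + k * (σ - 2 * k)) =
        σ ^ 4 - 12 * σ ^ 3 * k + 42 * σ ^ 2 * k ^ 2 - 54 * σ * k ^ 3 + 18 * k ^ 4 := by
      have hx : 3 * k * j0 = σ ^ 2 - 3 * k * σ + 3 * k ^ 2 := by linarith
      have : 9 * k ^ 2 * (j0 ^ 2 + (3 * k - 2 * σ) * j0 + k * (σ - 2 * k)) =
          (3 * k * j0) ^ 2 + (3 * k - 2 * σ) * 3 * k * (3 * k * j0) +
            9 * k ^ 3 * (σ - 2 * k) := by ring
      rw [this, hx]
      ring
    have hneg : σ ^ 4 - 12 * σ ^ 3 * k + 42 * σ ^ 2 * k ^ 2 - 54 * σ * k ^ 3 + 18 * k ^ 4 < 0 := by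
      rcases le_total (2 * k) σ with hc | hc
      · -- k ∈ (σ/3, σ/2]
        obtain ⟨p, hp⟩ : ∃ p : ℝ, p = 3 * k - σ := ⟨_, rfl⟩
        obtain ⟨q, hq⟩ : ∃ q : ℝ, q = σ - 2 * k := ⟨_, rfl⟩
        have hp0 : 0 < p := by linarith
        have hq0 : 0 ≤ q := by linarith
        have hk' : k = p + q := by linarith
        have hs' : σ = 2 * p + 3 * q := by linarith
        have e2 : σ ^ 4 - 12 * σ ^ 3 * k + 42 * σ ^ 2 * k ^ 2 - 54 * σ * k ^ 3 + 18 * k ^ 4 =
            -(2 * p ^ 4 + 6 * p ^ 3 * q + 12 * p ^ 2 * q ^ 2 + 18 * p * q ^ 3 + 9 * q ^ 4) := by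
          rw [hk', hs']
          ring
        rw [e2, neg_lt_zero]
        positivity
      · -- k ∈ [σ/2, σ)
        obtain ⟨p, hp⟩ : ∃ p : ℝ, p = 2 * k - σ := ⟨_, rfl⟩
        obtain ⟨q, hq⟩ : ∃ q : ℝ, q = σ - k := ⟨_, rfl⟩
        have hp0 : 0 ≤ p := by linarith
        have hq0 : 0 < q := by linarith
        have hk' : k = p + q := by linarith
        have hs' : σ = p + 2 * q := by linarith
        have e2 : σ ^ 4 - 12 * σ ^ 3 * k + 42 * σ ^ 2 * k ^ 2 - 54 * σ * k ^ 3 + 18 * k ^ 4 =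
            -(5 * p ^ 4 + 22 * p ^ 3 * q + 24 * p ^ 2 * q ^ 2 + 10 * p * q ^ 3 + 2 * q ^ 4) := by
          rw [hk', hs']
          ring
        rw [e2, neg_lt_zero]
        positivity
    have : 9 * k ^ 2 * (j0 ^ 2 + (3 * k - 2 * σ) * j0 + k * (σ - 2 * k)) < 0 := by
      rw [e]; exact hneg
    by_contra hc
    push Not at hc
    have : 0 ≤ 9 * k ^ 2 * (j0 ^ 2 + (3 * k - 2 * σ) * j0 + k * (σ - 2 * k)) := by positivity
    linarith
  -- the upper end of the range of `j`
  obtain ⟨m, hjm, hEm⟩ : ∃ m : ℝ, j ≤ m ∧ m ^ 2 + (3 * k - 2 * σ) * m + k * (σ - 2 * k) ≤ 0 := by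
    rcases le_total (2 * k) σ with hc | hc
    · refine ⟨k, hjk, ?_⟩
      have : k ^ 2 + (3 * k - 2 * σ) * k + k * (σ - 2 * k) = -(k * (σ - 2 * k)) := by ring
      rw [this, neg_nonpos]
      exact mul_nonneg hk.le (by linarith)
    · refine ⟨σ - k, by linarith, ?_⟩
      have : (σ - k) ^ 2 + (3 * k - 2 * σ) * (σ - k) + k * (σ - 2 * k) = -(σ - 2 * k) ^ 2 := by ring
      rw [this, neg_nonpos]
      positivity
  have hmj : 0 < m - j0 := by linarith
  have e3 : (m - j0) * (j ^ 2 + (3 * k - 2 * σ) * j + k * (σ - 2 * k)) =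
      (m - j) * (j0 ^ 2 + (3 * k - 2 * σ) * j0 + k * (σ - 2 * k)) +
      (j - j0) * (m ^ 2 + (3 * k - 2 * σ) * m + k * (σ - 2 * k)) -
      (m - j) * (j - j0) * (m - j0) := by ring
  have p1 : 0 < (m - j0) * (j ^ 2 + (3 * k - 2 * σ) * j + k * (σ - 2 * k)) := mul_pos hmj i2
  have p2 : (m - j) * (j0 ^ 2 + (3 * k - 2 * σ) * j0 + k * (σ - 2 * k)) ≤ 0 :=
    mul_nonpos_of_nonneg_of_nonpos (by linarith) hE0.le
  have p3 : (j - j0) * (m ^ 2 + (3 * k - 2 * σ) * m + k * (σ - 2 * k)) ≤ 0 :=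
    mul_nonpos_of_nonneg_of_nonpos (by linarith) hEm
  have p4 : 0 ≤ (m - j) * (j - j0) * (m - j0) :=
    mul_nonneg (mul_nonneg (by linarith) (by linarith)) hmj.le
  linarith

/-- The main induction, on the number of ordered `F`-pairs. -/
lemma fp_aux (n : ℕ) : ∀ (G F : SimpleGraph V) (σ : ℝ), (∑ w, dg F w) ≤ n →
    StrongClique G F → (∀ x y, F.Adj x y → (dg G x : ℝ) + dg G y ≤ σ) → 3 * ec F ≤ σ ^ 2 := by
  induction n with
  | zero =>
    intro G F σ hn hF hore
    have h0 : (∑ w, (dg F w : ℝ)) = 0 := by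
      have : (∑ w, dg F w) = 0 := Nat.le_zero.1 hn
      exact_mod_cast this
    unfold ec
    rw [h0]
    simp only [zero_div, mul_zero]
    positivity
  | succ n ih =>
    intro G F σ hn hF hore
    by_cases hne : ∃ x y, F.Adj x y
    swap
    · have h0 : (∑ w, (dg F w : ℝ)) = 0 := by
        refine Finset.sum_eq_zero fun w _ => ?_
        rw [dg_cast]
        refine Finset.sum_eq_zero fun x _ => ?_
        rw [if_neg fun h => hne ⟨w, x, h⟩]
      unfold ec
      rw [h0]
      simp only [zero_div, mul_zero]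
      positivity
    classical
    obtain ⟨x0, y0, hxy⟩ := hne
    -- the general bound for the remainder
    have hR : ∀ x, 1 ≤ dg F x → 3 * ec (Rg G F x) ≤ (σ - dg F x) ^ 2 := by
      intro x hx
      refine ih (Dg G F x) (Rg G F x) (σ - dg F x) ?_ (strongClique_Rg hF x) ?_
      · -- fewer pairs
        have hle : Rg G F x ≤ F := fun a b h => h.1
        have hlt : (∑ w, dg (Rg G F x) w) < ∑ w, dg F w := by
          refine Finset.sum_lt_sum (fun w _ => dg_mono hle w) ⟨x, mem_univ x, ?_⟩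
          refine lt_of_lt_of_le ?_ hx
          rw [Nat.lt_one_iff]
          unfold dg
          rw [Finset.card_eq_zero, Finset.filter_eq_empty_iff]
          intro w _ hw
          exact hw.2.2 (hF.1 hw.1)
        omega
      · intro a b hab
        have h1 := ore_Rg hF x hab
        have h2 := hore a b hab.1
        linarith
    -- a vertex of maximal `F`-degree
    obtain ⟨u, -, hu⟩ := Finset.exists_max_image univ (fun w => dg F w) ⟨x0, mem_univ x0⟩
    have hk1 : 1 ≤ dg F u := (dg_pos_of_adj hxy).trans (hu x0 (mem_univ _))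
    obtain ⟨v, hv, hvmax⟩ := Finset.exists_max_image (univ.filter fun w => F.Adj u w)
      (fun w => dg F w) (Finset.card_pos.1 hk1)
    have huv : F.Adj u v := by simpa using hv
    have hj1 : 1 ≤ dg F v := dg_pos_of_adj huv.symm
    have hk : ∀ w, dg F w ≤ dg F u := fun w => hu w (mem_univ _)
    have hj : ∀ w, F.Adj u w → dg F w ≤ dg F v := fun w hw => hvmax w (by simp [hw])
    have hDu : (dg F u : ℝ) ≤ dg G u := by exact_mod_cast dg_mono hF.1 u
    have hDv : (dg F v : ℝ) ≤ dg G v := by exact_mod_cast dg_mono hF.1 v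
    have hσD := hore u v huv
    have gu := gs_le_max hF.1 u (dg F u) (dg F v) hk hj
    have gv : gs G F v ≤ (σ - dg G u) * dg F u := by
      refine (gs_le_max' v (dg F u) hk).trans ?_
      exact mul_le_mul_of_nonneg_right (by linarith) (dg_nonneg _ _)
    have ru := hR u hk1
    have rv := hR v hj1
    have eu := ec_le_gs_add G F u
    have ev := ec_le_gs_add G F v
    have euv := ec_le_gs_gs hF huv
    refine fp_real (k := dg F u) (j := dg F v) (D := dg G u) ?_ ?_ hDu ?_ ?_ ?_ ?_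
    · exact_mod_cast hj1
    · exact_mod_cast hk v
    · linarith
    · linarith
    · linarith
    · linarith

end Classical

variable {V : Type*} [Fintype V] [DecidableEq V]
variable {G F : SimpleGraph V} [DecidableRel G.Adj] [DecidableRel F.Adj]

omit [DecidableEq V] in
lemma dg_eq_d (G : SimpleGraph V) [DecidableRel G.Adj] (v : V) : (dg G v : ℝ) = d G v := by
  unfold dg d
  congr 2
  ext w
  simp

omit [DecidableEq V] in
lemma dg_eq_f (F : SimpleGraph V) [DecidableRel F.Adj] (v : V) : (dg F v : ℝ) = f F v :=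
  dg_eq_d F v

omit [DecidableEq V] in
lemma ec_eq_phi (F : SimpleGraph V) [DecidableRel F.Adj] : ec F = phi F := by
  unfold ec phi
  congr 1
  exact Finset.sum_congr rfl fun v _ => dg_eq_f F v

omit [DecidableEq V] in
/-- **Faron–Postle**, `F`-edge version. -/
theorem faron_postle (hF : StrongClique G F) (σ : ℝ)
    (h : ∀ u v, F.Adj u v → d G u + d G v ≤ σ) : 3 * phi F ≤ σ ^ 2 := by
  rw [← ec_eq_phi]
  refine fp_aux (∑ w, dg F w) G F σ le_rfl hF fun x y hxy => ?_
  rw [dg_eq_d, dg_eq_d]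
  exact h x y hxy

/-- The number of `F`-edges which avoid the neighbourhood of `u`. -/
theorem R_bound (hF : StrongClique G F) (D : ℝ) (hD : ∀ u, d G u ≤ D) (u : V) :
    3 * (1 / 2 * ∑ w ∈ univ.filter (fun w => ¬ G.Adj u w), (f F w - a G F w u)) ≤
      (2 * D - f F u) ^ 2 := by
  classical
  have key : 3 * ec (Rg G F u) ≤ (2 * D - f F u) ^ 2 := by
    refine fp_aux (∑ w, dg (Rg G F u) w) (Dg G F u) (Rg G F u) _ le_rfl
      (strongClique_Rg hF u) fun x y hxy => ?_
    have h1 := ore_Rg hF u hxy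
    rw [dg_eq_d G, dg_eq_d G, dg_eq_f F] at h1
    have h2 := hD x
    have h3 := hD y
    linarith
  have e : (1 / 2 * ∑ w ∈ univ.filter (fun w => ¬ G.Adj u w), (f F w - a G F w u)) =
      ec (Rg G F u) := by
    unfold ec
    rw [Finset.sum_filter]
    rw [one_div, inv_mul_eq_div]
    congr 1
    refine Finset.sum_congr rfl fun w _ => ?_
    by_cases hw : G.Adj u w
    · rw [if_neg (not_not.2 hw), dg_cast]
      symm
      refine Finset.sum_eq_zero fun x _ => ?_
      rw [if_neg fun h => h.2.1 hw]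
    · rw [if_pos hw]
      have h1 : (F.neighborFinset w).card =
          (F.neighborFinset w ∩ G.neighborFinset u).card + dg (Rg G F u) w := by
        rw [← Finset.card_inter_add_card_sdiff (F.neighborFinset w) (G.neighborFinset u)]
        congr 1
        unfold dg
        congr 1
        ext x
        simp only [mem_sdiff, SimpleGraph.mem_neighborFinset, mem_filter, mem_univ, true_and]
        exact ⟨fun h => ⟨h.1, hw, h.2⟩, fun h => ⟨h.1, h.2.2⟩⟩
      unfold f a
      rw [h1]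
      push_cast
      ring
  rw [e]
  exact key

end MP433
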