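import Mathlib

/-!
# A harmonic local version of the fractional Reed bound (MP_433a35_co)

Fractional covers of a finite graph `H` by independent sets: if `X` is a positive function with
`∑ f ∈ T, 1 / X f ≤ 1` for every clique `T`, then `H` has a fractional colouring of total weight at
most `max (X e + |N[e]|) / 2`.
-/

namespace MP433.Reed

open Finset

variable {V : Type*} [Fintype V] [DecidableEq V]

/-- `S` is an independent set of `H`. -/
def Indep (H : SimpleGraph V) (S : Finset V) : Prop :=
  ∀ a ∈ S, ∀ b ∈ S, ¬ H.Adj a b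

section
variable (H : SimpleGraph V)

open Classical in
/-- closed neighbourhood -/
noncomputable def nb (e : V) : Finset V := univ.filter fun f => f = e ∨ H.Adj e f

open Classical in
/-- independent sets inside `U` -/
noncomputable def ind (U : Finset V) : Finset (Finset V) := U.powerset.filter fun S => Indep H S

open Classical in
/-- maximum independent sets inside `U` -/
noncomputable def mis (U : Finset V) : Finset (Finset V) :=
  (ind H U).filter fun S => ∀ T ∈ ind H U, T.card ≤ S.card

lemma mem_nb {e f : V} : f ∈ nb H e ↔ f = e ∨ H.Adj e f := by simp [nb]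

lemma mem_ind {U S : Finset V} : S ∈ ind H U ↔ S ⊆ U ∧ Indep H S := by simp [ind]

lemma mem_mis {U S : Finset V} :
    S ∈ mis H U ↔ (S ⊆ U ∧ Indep H S) ∧ ∀ T, T ⊆ U → Indep H T → T.card ≤ S.card := by
  simp only [mis, mem_filter, mem_ind]
  constructor
  · rintro ⟨h1, h2⟩; exact ⟨h1, fun T hT hT' => h2 T ⟨hT, hT'⟩⟩
  · rintro ⟨h1, h2⟩; exact ⟨h1, fun T hT => h2 T hT.1 hT.2⟩

lemma indep_mono {S T : Finset V} (h : S ⊆ T) (hT : Indep H T) : Indep H S :=
  fun a ha b hb => hT a (h ha) b (h hb)

lemma indep_insert {S : Finset V} {f : V} (hS : Indep H S) (hf : ∀ r ∈ S, ¬ H.Adj r f) :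
    Indep H (insert f S) := by
  intro a ha b hb
  rw [mem_insert] at ha hb
  rcases ha with rfl | ha
  · rcases hb with rfl | hb
    · exact H.loopless.irrefl _
    · exact fun h => hf b hb h.symm
  · rcases hb with rfl | hb
    · exact hf a ha
    · exact hS a ha b hb

lemma mis_nonempty (U : Finset V) : (mis H U).Nonempty := by
  have h : (ind H U).Nonempty := ⟨∅, by rw [mem_ind]; exact ⟨empty_subset _, fun a ha => by simp at ha⟩⟩
  obtain ⟨S, hS, hmax⟩ := exists_max_image (ind H U) Finset.card h
  exact ⟨S, by rw [mis, mem_filter]; exact ⟨hS, hmax⟩⟩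

/-- weight of a set -/
noncomputable def wt (lam : V → ℝ) (S : Finset V) : ℝ := ∏ f ∈ S, lam f

lemma wt_pos (lam : V → ℝ) (hl : ∀ v, 0 < lam v) (S : Finset V) : 0 < wt lam S :=
  prod_pos fun v _ => hl v

/-- total weight of the maximum independent sets inside `U` -/
noncomputable def tot (lam : V → ℝ) (U : Finset V) : ℝ := ∑ S ∈ mis H U, wt lam S

lemma tot_pos (lam : V → ℝ) (hl : ∀ v, 0 < lam v) (U : Finset V) : 0 < tot H lam U :=
  sum_pos (fun S _ => wt_pos lam hl S) (mis_nonempty H U)

/-- The local inequality for weighted random maximum independent sets. -/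
lemma local_ineq (lam : V → ℝ) (hl : ∀ v, 0 < lam v) (c : V → ℝ) (X : ℝ) (e : V) (hX0 : 0 ≤ X)
    (hc : ∀ f ∈ nb H e, 1 / 2 ≤ c f)
    (hX : ∀ W : Finset V, e ∈ W → W ⊆ nb H e → (∀ a ∈ W, ∀ b ∈ W, a ≠ b → H.Adj a b) →
      ∑ f ∈ W, lam f ≤ X * lam e + ∑ f ∈ W, lam f * c f)
    (U : Finset V) (he : e ∈ U) :
    tot H lam U ≤
      ∑ S ∈ mis H U, wt lam S * ((if e ∈ S then X else 0) + ∑ f ∈ S ∩ nb H e, c f) := by
  classical
  -- partition by the part outside nb e
  have key : ∀ R ∈ (mis H U).image (fun S => S \ nb H e),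
      ∑ S ∈ (mis H U).filter (fun S => S \ nb H e = R), wt lam S ≤
      ∑ S ∈ (mis H U).filter (fun S => S \ nb H e = R),
        wt lam S * ((if e ∈ S then X else 0) + ∑ f ∈ S ∩ nb H e, c f) := by
    intro R hR
    rw [mem_image] at hR
    obtain ⟨S₀, hS₀, hR₀⟩ := hR
    have hS₀' := (mem_mis H).1 hS₀
    have hRnb : ∀ r ∈ R, r ∉ nb H e := by
      intro r hr; rw [← hR₀, mem_sdiff] at hr; exact hr.2
    have hRS : R ⊆ S₀ := by rw [← hR₀]; exact sdiff_subset
    have hRU : R ⊆ U := hRS.trans hS₀'.1.1
    have hRind : Indep H R := indep_mono H hRS hS₀'.1.2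
    -- card of S ∩ nb is constant
    have hcard : ∀ S ∈ (mis H U).filter (fun S => S \ nb H e = R),
        R.card + (S ∩ nb H e).card = S₀.card := by
      intro S hS
      rw [mem_filter] at hS
      have h1 := (mem_mis H).1 hS.1
      have h2 : S.card = S₀.card :=
        le_antisymm (hS₀'.2 S h1.1.1 h1.1.2) (h1.2 S₀ hS₀'.1.1 hS₀'.1.2)
      have h3 := card_sdiff_add_card_inter S (nb H e)
      rw [hS.2] at h3
      omega
    have heR : Indep H (insert e R) := by
      refine indep_insert H hRind ?_
      intro r hr h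
      exact hRnb r hr ((mem_nb H).2 (Or.inr h.symm))
    have heR' : e ∉ R := fun h => hRnb e h ((mem_nb H).2 (Or.inl rfl))
    have hlt : R.card + 1 ≤ S₀.card := by
      have := hS₀'.2 (insert e R) (insert_subset he hRU) heR
      rwa [card_insert_of_notMem heR'] at this
    rcases Nat.lt_or_ge (R.card + 1) S₀.card with h2 | h2
    · -- at least two
      refine sum_le_sum ?_
      intro S hS
      have h3 := hcard S hS
      have h4 : 2 ≤ (S ∩ nb H e).card := by omega
      have h5 : ∑ f ∈ S ∩ nb H e, (1 / 2 : ℝ) ≤ ∑ f ∈ S ∩ nb H e, c f :=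
        sum_le_sum fun f hf => hc f (mem_inter.1 hf).2
      rw [sum_const, nsmul_eq_mul] at h5
      have h6 : (2 : ℝ) ≤ ((S ∩ nb H e).card : ℝ) := by exact_mod_cast h4
      have h7 : (0 : ℝ) ≤ if e ∈ S then X else 0 := by split_ifs <;> simp [hX0]
      have h8 : (1 : ℝ) ≤ (if e ∈ S then X else 0) + ∑ f ∈ S ∩ nb H e, c f := by linarith
      exact le_mul_of_one_le_right (wt_pos lam hl S).le h8
    · have hcard1 : S₀.card = R.card + 1 := le_antisymm h2 hlt
      set W : Finset V := (U ∩ nb H e).filter fun f => ∀ r ∈ R, ¬ H.Adj r f with hW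
      have hWR : ∀ f ∈ W, f ∉ R := by
        intro f hf h
        rw [hW, mem_filter, mem_inter] at hf
        exact hRnb f h hf.1.2
      have hWind : ∀ f ∈ W, Indep H (insert f R) := by
        intro f hf
        rw [hW, mem_filter] at hf
        exact indep_insert H hRind hf.2
      have hfib : (mis H U).filter (fun S => S \ nb H e = R) = W.image (fun f => insert f R) := by
        ext S
        rw [mem_filter, mem_image]
        constructor
        · rintro ⟨hS, hSR⟩
          have h1 := (mem_mis H).1 hS
          have h3 := hcard S (by rw [mem_filter]; exact ⟨hS, hSR⟩)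
          have h4 : (S ∩ nb H e).card = 1 := by omega
          obtain ⟨f, hf⟩ := card_eq_one.1 h4
          have hfm : f ∈ S ∩ nb H e := by rw [hf]; exact mem_singleton_self f
          rw [mem_inter] at hfm
          refine ⟨f, ?_, ?_⟩
          · rw [hW, mem_filter, mem_inter]
            refine ⟨⟨h1.1.1 hfm.1, hfm.2⟩, ?_⟩
            intro r hr
            have hrS : r ∈ S := by rw [← hSR] at hr; exact (mem_sdiff.1 hr).1
            exact h1.1.2 r hrS f hfm.1
          · have h5 := sdiff_union_inter S (nb H e)
            rw [hSR, hf] at h5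
            rw [← h5, union_comm]; rfl
        · rintro ⟨f, hf, rfl⟩
          have hf' := hf
          rw [hW, mem_filter, mem_inter] at hf'
          refine ⟨?_, ?_⟩
          · rw [mem_mis]
            refine ⟨⟨insert_subset hf'.1.1 hRU, hWind f hf⟩, ?_⟩
            intro T hT hT'
            rw [card_insert_of_notMem (hWR f hf), ← hcard1]
            exact hS₀'.2 T hT hT'
          · ext x
            rw [mem_sdiff, mem_insert]
            constructor
            · rintro ⟨rfl | hx, h⟩
              · exact absurd hf'.1.2 h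
              · exact hx
            · intro hx; exact ⟨Or.inr hx, hRnb x hx⟩
      have hinj : Set.InjOn (fun f => insert f R) (W : Set V) := by
        intro f hf g hg hfg
        have hf' : f ∉ R := hWR f hf
        have : f ∈ insert g R := by
          have h : f ∈ insert f R := mem_insert_self f R
          simp only at hfg
          rwa [hfg] at h
        rw [mem_insert] at this
        rcases this with h | h
        · exact h
        · exact absurd h hf'
      rw [hfib, sum_image hinj, sum_image hinj]
      have heW : e ∈ W := by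
        rw [hW, mem_filter, mem_inter]
        refine ⟨⟨he, (mem_nb H).2 (Or.inl rfl)⟩, ?_⟩
        intro r hr h
        exact hRnb r hr ((mem_nb H).2 (Or.inr h.symm))
      have hclq : ∀ a ∈ W, ∀ b ∈ W, a ≠ b → H.Adj a b := by
        intro a ha b hb hab
        by_contra hn
        have h1 : Indep H (insert a (insert b R)) := by
          refine indep_insert H (hWind b hb) ?_
          intro r hr
          rw [mem_insert] at hr
          rcases hr with rfl | hr
          · exact fun h => hn h.symm
          · rw [hW, mem_filter] at ha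
            exact ha.2 r hr
        have ha' : a ∉ insert b R := by
          rw [mem_insert, not_or]; exact ⟨hab, hWR a ha⟩
        have hbU : b ∈ U := by rw [hW, mem_filter, mem_inter] at hb; exact hb.1.1
        have haU : a ∈ U := by rw [hW, mem_filter, mem_inter] at ha; exact ha.1.1
        have h2 := hS₀'.2 _ (insert_subset haU (insert_subset hbU hRU)) h1
        rw [card_insert_of_notMem ha', card_insert_of_notMem (hWR b hb)] at h2
        omega
      have hsub : W ⊆ nb H e := by
        intro f hf; rw [hW, mem_filter, mem_inter] at hf; exact hf.1.2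
      have h1 := hX W heW hsub hclq
      have h2 : ∀ f ∈ W, (insert f R) ∩ nb H e = {f} := by
        intro f hf
        ext x
        rw [mem_inter, mem_insert, mem_singleton]
        constructor
        · rintro ⟨rfl | hx, h⟩
          · rfl
          · exact absurd h (hRnb x hx)
        · rintro rfl; exact ⟨Or.inl rfl, hsub hf⟩
      have hw : ∀ f ∈ W, wt lam (insert f R) = lam f * wt lam R := by
        intro f hf
        rw [wt, prod_insert (hWR f hf), wt]
      have h3 : ∑ f ∈ W, wt lam (insert f R) *
            ((if e ∈ insert f R then X else 0) + ∑ g ∈ insert f R ∩ nb H e, c g) =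
          ∑ f ∈ W, ((if e = f then X * lam f else 0) + lam f * c f) * wt lam R := by
        refine sum_congr rfl ?_
        intro f hf
        rw [h2 f hf, sum_singleton, hw f hf]
        have : e ∈ insert f R ↔ e = f := by
          rw [mem_insert]; simp [heR']
        simp only [this]
        split_ifs <;> ring
      have h4 : ∑ f ∈ W, wt lam (insert f R) = (∑ f ∈ W, lam f) * wt lam R := by
        rw [sum_mul]; exact sum_congr rfl hw
      rw [h3, h4, ← sum_mul, sum_add_distrib, sum_ite_eq, if_pos heW]
      exact mul_le_mul_of_nonneg_right h1 (wt_pos lam hl R).le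
  have h1 : tot H lam U =
      ∑ R ∈ (mis H U).image (fun S => S \ nb H e),
        ∑ S ∈ (mis H U).filter (fun S => S \ nb H e = R), wt lam S := by
    rw [sum_fiberwise_of_maps_to]
    · rfl
    · intro S hS
      exact mem_image_of_mem _ hS
  have h2 : ∑ S ∈ mis H U, wt lam S * ((if e ∈ S then X else 0) + ∑ f ∈ S ∩ nb H e, c f) =
      ∑ R ∈ (mis H U).image (fun S => S \ nb H e), ∑ S ∈ (mis H U).filter (fun S => S \ nb H e = R),
        wt lam S * ((if e ∈ S then X else 0) + ∑ f ∈ S ∩ nb H e, c f) := by
    rw [sum_fiberwise_of_maps_to]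
    intro S hS
    exact mem_image_of_mem _ hS
  rw [h1, h2]
  exact sum_le_sum key

/-- coverage of `v` by the weighted distribution on `mis H U` -/
noncomputable def rho (lam : V → ℝ) (U : Finset V) (v : V) : ℝ :=
  (∑ S ∈ mis H U, if v ∈ S then wt lam S else 0) / tot H lam U

lemma rho_nonneg (lam : V → ℝ) (hl : ∀ v, 0 < lam v) (U : Finset V) (v : V) :
    0 ≤ rho H lam U v := by
  unfold rho
  refine div_nonneg (sum_nonneg fun S _ => ?_) (tot_pos H lam hl U).le
  split_ifs
  · exact (wt_pos lam hl S).le
  · exact le_refl _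

lemma rho_zero (lam : V → ℝ) (U : Finset V) (v : V) (hv : v ∉ U) : rho H lam U v = 0 := by
  unfold rho
  have : ∑ S ∈ mis H U, (if v ∈ S then wt lam S else 0) = 0 := by
    refine sum_eq_zero fun S hS => ?_
    have h1 := ((mem_mis H).1 hS).1.1
    rw [if_neg]
    exact fun h => hv (h1 h)
  rw [this, zero_div]

lemma rho_local (lam : V → ℝ) (hl : ∀ v, 0 < lam v) (c : V → ℝ) (X : ℝ) (e : V) (hX0 : 0 ≤ X)
    (hc : ∀ f ∈ nb H e, 1 / 2 ≤ c f)
    (hX : ∀ W : Finset V, e ∈ W → W ⊆ nb H e → (∀ a ∈ W, ∀ b ∈ W, a ≠ b → H.Adj a b) →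
      ∑ f ∈ W, lam f ≤ X * lam e + ∑ f ∈ W, lam f * c f)
    (U : Finset V) (he : e ∈ U) :
    1 ≤ X * rho H lam U e + ∑ f ∈ nb H e, c f * rho H lam U f := by
  have h := local_ineq H lam hl c X e hX0 hc hX U he
  have hpos : (0 : ℝ) < tot H lam U := tot_pos H lam hl U
  have h1 : ∑ S ∈ mis H U, wt lam S * ((if e ∈ S then X else 0) + ∑ f ∈ S ∩ nb H e, c f) =
      X * (∑ S ∈ mis H U, if e ∈ S then wt lam S else 0) +
      ∑ f ∈ nb H e, c f * (∑ S ∈ mis H U, if f ∈ S then wt lam S else 0) := by
    simp_rw [mul_add]
    rw [sum_add_distrib]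
    congr 1
    · rw [mul_sum]
      refine sum_congr rfl fun S _ => ?_
      split_ifs
      · ring
      · ring
    · have h2 : ∀ S ∈ mis H U, wt lam S * ∑ f ∈ S ∩ nb H e, c f =
          ∑ f ∈ nb H e, c f * (if f ∈ S then wt lam S else 0) := by
        intro S _
        rw [inter_comm, ← filter_mem_eq_inter, sum_filter, mul_sum]
        refine sum_congr rfl fun f _ => ?_
        split_ifs
        · ring
        · ring
      rw [sum_congr rfl h2, sum_comm]
      refine sum_congr rfl fun f _ => ?_
      rw [mul_sum]
  rw [h1] at h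
  have h2 : X * rho H lam U e + ∑ f ∈ nb H e, c f * rho H lam U f =
      (X * (∑ S ∈ mis H U, if e ∈ S then wt lam S else 0) +
      ∑ f ∈ nb H e, c f * (∑ S ∈ mis H U, if f ∈ S then wt lam S else 0)) / tot H lam U := by
    rw [add_div, sum_div]
    refine congrArg₂ _ ?_ ?_
    · rw [rho, mul_div_assoc]
    · exact sum_congr rfl fun f _ => by rw [rho, mul_div_assoc]
  rw [h2, le_div_iff₀ hpos, one_mul]
  exact h

/-- Every nonnegative demand can be met exactly by a measure on independent sets whose total
mass is bounded by a local quantity at some vertex of positive demand. -/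
lemma cover_aux (lam : V → ℝ) (hl : ∀ v, 0 < lam v) (c : V → V → ℝ) (X : V → ℝ)
    (hX0 : ∀ e, 0 ≤ X e) (hc : ∀ e, ∀ f ∈ nb H e, 1 / 2 ≤ c e f)
    (hX : ∀ e, ∀ W : Finset V, e ∈ W → W ⊆ nb H e → (∀ a ∈ W, ∀ b ∈ W, a ≠ b → H.Adj a b) →
      ∑ f ∈ W, lam f ≤ X e * lam e + ∑ f ∈ W, lam f * c e f) :
    ∀ (n : ℕ) (r : V → ℝ), (∀ v, 0 ≤ r v) → (univ.filter fun v => 0 < r v).card = n →
    ∃ μ : Finset V → ℝ, (∀ S, 0 ≤ μ S) ∧ (∀ S, μ S ≠ 0 → Indep H S) ∧
      (∀ v, ∑ S, (if v ∈ S then μ S else 0) = r v) ∧
      (((∀ v, r v = 0) ∧ ∑ S, μ S = 0) ∨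
        ∃ e, 0 < r e ∧ ∑ S, μ S ≤ X e * r e + ∑ f ∈ nb H e, c e f * r f) := by
  intro n
  induction n using Nat.strong_induction_on with
  | _ n ih =>
    intro r hr hn
    set U : Finset V := univ.filter fun v => 0 < r v with hU
    rcases U.eq_empty_or_nonempty with hUe | hUne
    · have h0 : ∀ v, r v = 0 := by
        intro v
        by_contra h
        have : v ∈ U := by rw [hU, mem_filter]; exact ⟨mem_univ _, lt_of_le_of_ne (hr v) (Ne.symm h)⟩
        rw [hUe] at this; simp at this
      exact ⟨fun _ => 0, fun _ => le_refl _, fun S h => absurd rfl h, fun v => by simp [h0 v],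
        Or.inl ⟨h0, by simp⟩⟩
    · have hpos : (0 : ℝ) < tot H lam U := tot_pos H lam hl U
      -- some vertex has positive coverage
      obtain ⟨u, hu⟩ := hUne
      obtain ⟨S₁, hS₁⟩ := mis_nonempty H U
      have hS₁' := (mem_mis H).1 hS₁
      have hS₁c : 1 ≤ S₁.card := by
        have := hS₁'.2 {u} (singleton_subset_iff.2 hu) (by
          intro a ha b hb; rw [mem_singleton] at ha hb; subst ha; subst hb; exact H.loopless.irrefl _)
        simpa using this
      obtain ⟨v₁, hv₁⟩ := card_pos.1 (show 0 < S₁.card by omega)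
      have hv₁ρ : 0 < rho H lam U v₁ := by
        unfold rho
        refine div_pos ?_ hpos
        refine lt_of_lt_of_le (wt_pos lam hl S₁) ?_
        have := single_le_sum (f := fun S : Finset V => if v₁ ∈ S then wt lam S else 0)
          (fun S _ => by
            show (0 : ℝ) ≤ if v₁ ∈ S then wt lam S else 0
            split_ifs
            · exact (wt_pos lam hl S).le
            · exact le_refl _) hS₁
        simpa [hv₁] using this
      set Uρ : Finset V := univ.filter fun v => 0 < rho H lam U v with hUρ
      have hUρne : Uρ.Nonempty := ⟨v₁, by rw [hUρ, mem_filter]; exact ⟨mem_univ _, hv₁ρ⟩⟩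
      obtain ⟨v₀, hv₀, hmin⟩ := exists_min_image Uρ (fun v => r v / rho H lam U v) hUρne
      have hv₀ρ : 0 < rho H lam U v₀ := by rw [hUρ, mem_filter] at hv₀; exact hv₀.2
      set τ : ℝ := r v₀ / rho H lam U v₀ with hτ
      have hv₀U : v₀ ∈ U := by
        by_contra h
        rw [rho_zero H lam U v₀ h] at hv₀ρ
        exact lt_irrefl _ hv₀ρ
      have hv₀r : 0 < r v₀ := by rw [hU, mem_filter] at hv₀U; exact hv₀U.2
      have hτpos : 0 < τ := div_pos hv₀r hv₀ρ
      set r' : V → ℝ := fun v => r v - τ * rho H lam U v with hr'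
      have hr'0 : ∀ v, 0 ≤ r' v := by
        intro v
        rw [hr']
        simp only [sub_nonneg]
        rcases eq_or_lt_of_le (rho_nonneg H lam hl U v) with h | h
        · rw [← h, mul_zero]; exact hr v
        · have := hmin v (by rw [hUρ, mem_filter]; exact ⟨mem_univ _, h⟩)
          rwa [le_div_iff₀ h] at this
      have hr'le : ∀ v, r' v ≤ r v := by
        intro v
        rw [hr']
        have := mul_nonneg hτpos.le (rho_nonneg H lam hl U v)
        simp only; linarith
      have hr'v₀ : r' v₀ = 0 := by
        rw [hr', hτ]; simp only; rw [div_mul_cancel₀ _ hv₀ρ.ne']; ring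
      have hlt : (univ.filter fun v => 0 < r' v).card < n := by
        rw [← hn]
        refine card_lt_card ?_
        rw [ssubset_iff_of_subset]
        · refine ⟨v₀, hv₀U, ?_⟩
          rw [mem_filter, hr'v₀]; simp
        · intro v hv
          rw [mem_filter] at hv
          rw [hU, mem_filter]
          exact ⟨mem_univ _, lt_of_lt_of_le hv.2 (hr'le v)⟩
      obtain ⟨μ', h1, h2, h3, h4⟩ := ih _ hlt r' hr'0 rfl
      refine ⟨fun S => μ' S + if S ∈ mis H U then τ * wt lam S / tot H lam U else 0, ?_, ?_, ?_, ?_⟩
      · intro S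
        refine add_nonneg (h1 S) ?_
        split_ifs
        · exact div_nonneg (mul_nonneg hτpos.le (wt_pos lam hl S).le) hpos.le
        · exact le_refl _
      · intro S hS
        by_cases h : S ∈ mis H U
        · exact ((mem_mis H).1 h).1.2
        · simp only [if_neg h, add_zero] at hS
          exact h2 S hS
      · intro v
        have h5 : ∑ S, (if v ∈ S then (μ' S + if S ∈ mis H U then τ * wt lam S / tot H lam U else 0) else 0) =
            ∑ S, (if v ∈ S then μ' S else 0) + τ * rho H lam U v := by
          have h6 : τ * rho H lam U v = ∑ S, (if S ∈ mis H U then (if v ∈ S then τ * wt lam S / tot H lam U else 0) else 0) := by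
            rw [← sum_filter, filter_mem_eq_inter, univ_inter]
            unfold rho
            rw [← mul_div_assoc, mul_sum, sum_div]
            refine sum_congr rfl fun S _ => ?_
            split_ifs
            · rfl
            · simp
          rw [h6, ← sum_add_distrib]
          refine sum_congr rfl fun S _ => ?_
          split_ifs <;> simp
        rw [h5, h3 v, hr']; simp only; ring
      · right
        have htot : ∑ S, (μ' S + if S ∈ mis H U then τ * wt lam S / tot H lam U else 0) = ∑ S, μ' S + τ := by
          rw [sum_add_distrib]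
          congr 1
          rw [← sum_filter, filter_mem_eq_inter, univ_inter, ← sum_div, ← mul_sum]
          exact mul_div_cancel_right₀ τ hpos.ne'
        have hstep : ∀ e, e ∈ U → τ ≤ X e * (τ * rho H lam U e) + ∑ f ∈ nb H e, c e f * (τ * rho H lam U f) := by
          intro e he
          have h6 := rho_local H lam hl (c e) (X e) e (hX0 e) (hc e) (hX e) U he
          have h7 := mul_le_mul_of_nonneg_left h6 hτpos.le
          have h8 : τ * (X e * rho H lam U e + ∑ f ∈ nb H e, c e f * rho H lam U f) =
              X e * (τ * rho H lam U e) + ∑ f ∈ nb H e, c e f * (τ * rho H lam U f) := by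
            rw [mul_add, mul_sum]
            congr 1
            · ring
            · exact sum_congr rfl fun f _ => by ring
          rw [h8, mul_one] at h7
          exact h7
        rw [htot]
        rcases h4 with ⟨h4, h5⟩ | ⟨e, he, h5⟩
        · refine ⟨v₀, hv₀r, ?_⟩
          rw [h5, zero_add]
          have h6 := hstep v₀ hv₀U
          have h7 : ∀ v, τ * rho H lam U v = r v := by
            intro v; have := h4 v; rw [hr'] at this; simp only at this; linarith
          simp only [h7] at h6
          exact h6
        · have her : 0 < r e := lt_of_lt_of_le he (hr'le e)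
          refine ⟨e, her, ?_⟩
          have h6 := hstep e (by rw [hU, mem_filter]; exact ⟨mem_univ _, her⟩)
          have h7 : X e * r e + ∑ f ∈ nb H e, c e f * r f =
              (X e * r' e + ∑ f ∈ nb H e, c e f * r' f) +
              (X e * (τ * rho H lam U e) + ∑ f ∈ nb H e, c e f * (τ * rho H lam U f)) := by
            have h8 : ∑ f ∈ nb H e, c e f * r f = ∑ f ∈ nb H e, c e f * r' f +
                ∑ f ∈ nb H e, c e f * (τ * rho H lam U f) := by
              rw [← sum_add_distrib]
              refine sum_congr rfl fun f _ => ?_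
              rw [hr']; simp only; ring
            rw [h8, hr']; simp only; ring
          rw [h7]
          exact add_le_add h5 h6

/-- **Harmonic local fractional Reed bound.** -/
theorem harmonic_reed (X : V → ℝ) (hX0 : ∀ e, 0 < X e)
    (hX : ∀ W : Finset V, (∀ a ∈ W, ∀ b ∈ W, a ≠ b → H.Adj a b) → ∑ f ∈ W, 1 / X f ≤ 1)
    (K : ℝ) (hK0 : 0 ≤ K) (hK : ∀ e, X e + ((nb H e).card : ℝ) ≤ 2 * K) :
    ∃ μ : Finset V → ℝ, (∀ S, 0 ≤ μ S) ∧ (∀ S, μ S ≠ 0 → Indep H S) ∧
      (∀ v, ∑ S, (if v ∈ S then μ S else 0) = 1) ∧ ∑ S, μ S ≤ K := by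
  have hl : ∀ v, 0 < 1 / X v := fun v => one_div_pos.2 (hX0 v)
  obtain ⟨μ, h1, h2, h3, h4⟩ := cover_aux H (fun v => 1 / X v) hl (fun _ _ => 1 / 2)
    (fun e => X e / 2) (fun e => (half_pos (hX0 e)).le) (fun _ _ _ => le_refl _)
    (by
      intro e W he _ hW
      have h := hX W hW
      rw [← sum_mul]
      have h5 : X e / 2 * (1 / X e) = 1 / 2 := by
        have := (hX0 e).ne'
        field_simp
      rw [h5]
      linarith) _ (fun _ => 1) (fun _ => zero_le_one) rfl
  refine ⟨μ, h1, h2, h3, ?_⟩
  rcases h4 with ⟨_, h4⟩ | ⟨e, _, h4⟩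
  · rw [h4]; exact hK0
  · simp only [mul_one, sum_const, nsmul_eq_mul] at h4
    have := hK e
    linarith

end

end MP433.Reed
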