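import Pool.Agent.Work.MP_433a35_co.Defs
import Pool.Agent.Work.MP_433a35_co.Reed

/-!
# From the star inequality to fractional strong edge colourings (MP_433a35_co)
-/

namespace MP433

open Finset

variable {V : Type*} [Fintype V] [DecidableEq V]

/-- `M` is a strong (induced) matching of `G`: a set of edges of `G` such that the end vertices of
two different members are distinct and non-adjacent. -/
def StrongMatching (G : SimpleGraph V) (M : Finset (Sym2 V)) : Prop :=
  (∀ e ∈ M, e ∈ G.edgeSet) ∧
    ∀ e ∈ M, ∀ e' ∈ M, e ≠ e' → ∀ x ∈ e, ∀ y ∈ e', x ≠ y ∧ ¬ G.Adj x y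

/-- Summing a function of the underlying unordered pair over ordered pairs. -/
lemma pair_sum (T : Finset (Sym2 V)) (hT : ∀ e ∈ T, ¬ e.IsDiag) (w : Sym2 V → ℝ) :
    ∑ p ∈ (univ : Finset (V × V)).filter (fun p => s(p.1, p.2) ∈ T), w s(p.1, p.2) =
      2 * ∑ e ∈ T, w e := by
  rw [← sum_fiberwise_of_maps_to (s := (univ : Finset (V × V)).filter (fun p => s(p.1, p.2) ∈ T))
    (t := T) (g := fun p => s(p.1, p.2)) (fun p hp => (mem_filter.1 hp).2), mul_sum]
  refine sum_congr rfl fun e he => ?_
  have h1 : ∀ p ∈ ((univ : Finset (V × V)).filter (fun p => s(p.1, p.2) ∈ T)).filter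
      (fun p => s(p.1, p.2) = e), w s(p.1, p.2) = w e := by
    intro p hp
    rw [(mem_filter.1 hp).2]
  rw [sum_congr rfl h1, sum_const, nsmul_eq_mul]
  congr 1
  induction e using Sym2.inductionOn with
  | hf a b =>
    have hab : a ≠ b := by
      intro h
      exact hT _ he (by rw [h]; exact Sym2.mk_isDiag_iff.2 rfl)
    have h2 : ((univ : Finset (V × V)).filter (fun p => s(p.1, p.2) ∈ T)).filter
        (fun p => s(p.1, p.2) = s(a, b)) = {(a, b), (b, a)} := by
      ext ⟨x, y⟩
      simp only [mem_filter, mem_univ, true_and, mem_insert, mem_singleton, Prod.mk.injEq,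
        Sym2.eq_iff]
      constructor
      · rintro ⟨_, h⟩; exact h
      · intro h
        refine ⟨?_, h⟩
        rcases h with ⟨rfl, rfl⟩ | ⟨rfl, rfl⟩
        · exact he
        · rw [Sym2.eq_swap]; exact he
    rw [h2, card_pair]
    · norm_num
    · intro h
      exact hab (Prod.mk.inj h).1

/-- The square of the line graph. -/
def LineSq (G : SimpleGraph V) : SimpleGraph G.edgeSet where
  Adj e f := e ≠ f ∧ ∃ x ∈ e.1, ∃ y ∈ f.1, x = y ∨ G.Adj x y
  symm := ⟨by
    rintro e f ⟨h, x, hx, y, hy, h1⟩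
    exact ⟨h.symm, y, hy, x, hx, h1.imp Eq.symm fun h => h.symm⟩⟩
  loopless := ⟨fun e h => h.1 rfl⟩

lemma touch_iff (G : SimpleGraph V) {u v x y : V} (huv : G.Adj u v) (hxy : G.Adj x y) :
    (∃ a ∈ s(u, v), ∃ b ∈ s(x, y), a = b ∨ G.Adj a b) ↔
      (G.Adj u x ∨ G.Adj u y ∨ G.Adj v x ∨ G.Adj v y) := by
  constructor
  · rintro ⟨a, ha, b, hb, h⟩
    rw [Sym2.mem_iff] at ha hb
    rcases ha with rfl | rfl <;> rcases hb with rfl | rfl <;> rcases h with rfl | h
    · exact Or.inr (Or.inl hxy)
    · exact Or.inl h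
    · exact Or.inl hxy.symm
    · exact Or.inr (Or.inl h)
    · exact Or.inr (Or.inr (Or.inr hxy))
    · exact Or.inr (Or.inr (Or.inl h))
    · exact Or.inr (Or.inr (Or.inl hxy.symm))
    · exact Or.inr (Or.inr (Or.inr h))
  · rintro (h | h | h | h)
    · exact ⟨u, Sym2.mem_mk_left _ _, x, Sym2.mem_mk_left _ _, Or.inr h⟩
    · exact ⟨u, Sym2.mem_mk_left _ _, y, Sym2.mem_mk_right _ _, Or.inr h⟩
    · exact ⟨v, Sym2.mem_mk_right _ _, x, Sym2.mem_mk_left _ _, Or.inr h⟩
    · exact ⟨v, Sym2.mem_mk_right _ _, y, Sym2.mem_mk_right _ _, Or.inr h⟩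

section
variable (G : SimpleGraph V) [DecidableRel G.Adj]

/-- `N2` counts every member of the closed neighbourhood twice. -/
lemma N2_eq_nb (u v : V) (h : G.Adj u v) :
    N2 G u v = 2 * ((Reed.nb (LineSq G) ⟨s(u, v), h⟩).card : ℝ) := by
  classical
  set T : Finset (Sym2 V) := (Reed.nb (LineSq G) ⟨s(u, v), h⟩).image Subtype.val with hT
  have hmem : ∀ x y : V, s(x, y) ∈ T ↔ (G.Adj x y ∧
      (G.Adj u x ∨ G.Adj u y ∨ G.Adj v x ∨ G.Adj v y)) := by
    intro x y
    rw [hT, mem_image]
    constructor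
    · rintro ⟨f, hf, hfe⟩
      have hxy : G.Adj x y := by
        have := f.2; rw [hfe] at this; exact this
      refine ⟨hxy, ?_⟩
      rw [Reed.mem_nb] at hf
      rcases hf with rfl | hf
      · simp only at hfe
        rw [Sym2.eq_iff] at hfe
        rcases hfe with ⟨rfl, rfl⟩ | ⟨rfl, rfl⟩
        · exact Or.inr (Or.inl hxy)
        · exact Or.inl h
      · obtain ⟨_, a, ha, b, hb, h1⟩ := hf
        rw [hfe] at hb
        exact (touch_iff G h hxy).1 ⟨a, ha, b, hb, h1⟩
    · rintro ⟨hxy, h1⟩
      refine ⟨⟨s(x, y), hxy⟩, ?_, rfl⟩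
      rw [Reed.mem_nb]
      by_cases he : (⟨s(x, y), hxy⟩ : G.edgeSet) = ⟨s(u, v), h⟩
      · exact Or.inl he
      · right
        exact ⟨fun h2 => he h2.symm, (touch_iff G h hxy).2 h1⟩
  have hdiag : ∀ e ∈ T, ¬ e.IsDiag := by
    intro e he
    rw [hT, mem_image] at he
    obtain ⟨f, _, rfl⟩ := he
    exact G.not_isDiag_of_mem_edgeSet f.2
  have h1 := pair_sum T hdiag (fun _ => 1)
  have h2 : (T.card : ℝ) = ((Reed.nb (LineSq G) ⟨s(u, v), h⟩).card : ℝ) := by
    rw [hT, card_image_of_injective _ Subtype.val_injective]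
  rw [sum_const, sum_const, nsmul_eq_mul, nsmul_eq_mul, mul_one, mul_one, h2] at h1
  rw [← h1, N2]
  congr 2
  ext ⟨x, y⟩
  simp only [mem_filter, mem_univ, true_and]
  exact (hmem x y).symm

/-- a simple bound for the number of edges touched -/
lemma N2_le (D : ℝ) (hD0 : 0 ≤ D) (hD : ∀ u, d G u ≤ D) (u v : V) : N2 G u v ≤ 4 * D ^ 2 := by
  classical
  have h1 : N2 G u v ≤ ∑ w ∈ G.neighborFinset u, 2 * d G w + ∑ w ∈ G.neighborFinset v, 2 * d G w := by
    unfold N2
    have hsub : ((univ : Finset (V × V)).filter (fun p => G.Adj p.1 p.2 ∧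
        (G.Adj u p.1 ∨ G.Adj u p.2 ∨ G.Adj v p.1 ∨ G.Adj v p.2))) ⊆
        (((G.neighborFinset u ∪ G.neighborFinset v).biUnion fun w =>
          (G.neighborFinset w).image fun t => (w, t)) ∪
        ((G.neighborFinset u ∪ G.neighborFinset v).biUnion fun w =>
          (G.neighborFinset w).image fun t => (t, w))) := by
      rintro ⟨x, y⟩ hp
      simp only [mem_filter, mem_univ, true_and] at hp
      simp only [mem_union, mem_biUnion, SimpleGraph.mem_neighborFinset, mem_image, Prod.mk.injEq]
      obtain ⟨hxy, h | h | h | h⟩ := hp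
      · exact Or.inl ⟨x, Or.inl h, y, hxy, rfl, rfl⟩
      · exact Or.inr ⟨y, Or.inl h, x, hxy.symm, rfl, rfl⟩
      · exact Or.inl ⟨x, Or.inr h, y, hxy, rfl, rfl⟩
      · exact Or.inr ⟨y, Or.inr h, x, hxy.symm, rfl, rfl⟩
    have hc := card_le_card hsub
    have hA : ∀ (j : V → V → V × V), (((G.neighborFinset u ∪ G.neighborFinset v).biUnion fun w =>
          (G.neighborFinset w).image fun t => j w t).card : ℝ) ≤
        ∑ w ∈ G.neighborFinset u, d G w + ∑ w ∈ G.neighborFinset v, d G w := by
      intro j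
      have h2 : (((G.neighborFinset u ∪ G.neighborFinset v).biUnion fun w =>
          (G.neighborFinset w).image fun t => j w t).card : ℝ) ≤
          ∑ w ∈ G.neighborFinset u ∪ G.neighborFinset v, d G w := by
        have h3 : ((G.neighborFinset u ∪ G.neighborFinset v).biUnion fun w =>
          (G.neighborFinset w).image fun t => j w t).card ≤
          ∑ w ∈ G.neighborFinset u ∪ G.neighborFinset v, (G.neighborFinset w).card :=
          card_biUnion_le.trans (sum_le_sum fun w _ => card_image_le)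
        unfold d
        exact_mod_cast h3
      refine h2.trans ?_
      have h4 := sum_union_inter (s₁ := G.neighborFinset u) (s₂ := G.neighborFinset v) (f := d G)
      have h5 : 0 ≤ ∑ w ∈ G.neighborFinset u ∩ G.neighborFinset v, d G w :=
        sum_nonneg fun w _ => Nat.cast_nonneg _
      linarith
    have hB := card_union_le
      (((G.neighborFinset u ∪ G.neighborFinset v).biUnion fun w =>
          (G.neighborFinset w).image fun t => (w, t)))
      ((G.neighborFinset u ∪ G.neighborFinset v).biUnion fun w =>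
          (G.neighborFinset w).image fun t => (t, w))
    have h6 := hA fun w t => (w, t)
    have h7 := hA fun w t => (t, w)
    have h8 : (((univ : Finset (V × V)).filter (fun p => G.Adj p.1 p.2 ∧
        (G.Adj u p.1 ∨ G.Adj u p.2 ∨ G.Adj v p.1 ∨ G.Adj v p.2))).card : ℝ) ≤
        (((G.neighborFinset u ∪ G.neighborFinset v).biUnion fun w =>
          (G.neighborFinset w).image fun t => (w, t)).card : ℝ) +
        (((G.neighborFinset u ∪ G.neighborFinset v).biUnion fun w =>
          (G.neighborFinset w).image fun t => (t, w)).card : ℝ) := by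
      exact_mod_cast hc.trans hB
    rw [← mul_sum, ← mul_sum]
    linarith
  have h2 : ∀ w : V, ∑ t ∈ G.neighborFinset w, 2 * d G t ≤ 2 * D ^ 2 := by
    intro w
    calc ∑ t ∈ G.neighborFinset w, 2 * d G t ≤ ∑ _t ∈ G.neighborFinset w, 2 * D :=
          sum_le_sum fun t _ => by have := hD t; linarith
      _ = d G w * (2 * D) := by rw [sum_const, nsmul_eq_mul]; rfl
      _ ≤ D * (2 * D) := mul_le_mul_of_nonneg_right (hD w) (by linarith)
      _ = 2 * D ^ 2 := by ring
  have h3 := h2 u
  have h4 := h2 v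
  linarith

/-- **Assembly.**  If the star inequality holds for all strong cliques, then `G` has a fractional
strong edge colouring of total weight at most `3/2 D²`. -/
theorem frac_strong_of_star (D : ℝ) (hD1 : 0 < D) (hD : ∀ u, d G u ≤ D)
    (star : ∀ (F : SimpleGraph V) [DecidableRel F.Adj], StrongClique G F →
      ∑ u, ∑ v ∈ F.neighborFinset u, 1 / (6 * D ^ 2 - N2 G u v) ≤ 1) :
    ∃ μ : Finset (Sym2 V) → ℝ, (∀ M, 0 ≤ μ M) ∧ (∀ M, μ M ≠ 0 → StrongMatching G M) ∧
      (∀ e ∈ G.edgeSet, ∑ M, (if e ∈ M then μ M else 0) = 1) ∧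
      ∑ M, μ M ≤ 3 / 2 * D ^ 2 := by
  classical
  have hD2 : 0 < D ^ 2 := pow_pos hD1 2
  -- neighbourhood bound
  have hnb : ∀ e : G.edgeSet, ((Reed.nb (LineSq G) e).card : ℝ) ≤ 2 * D ^ 2 := by
    rintro ⟨e, he⟩
    induction e using Sym2.inductionOn with
    | hf u v =>
      have h1 := N2_eq_nb G u v he
      have h2 := N2_le G D hD1.le hD u v
      linarith
  set X : G.edgeSet → ℝ := fun e => 3 * D ^ 2 - ((Reed.nb (LineSq G) e).card : ℝ) with hX
  have hXpos : ∀ e, 0 < X e := by
    intro e
    have := hnb e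
    rw [hX]; simp only; linarith
  have hclique : ∀ W : Finset G.edgeSet, (∀ a ∈ W, ∀ b ∈ W, a ≠ b → (LineSq G).Adj a b) →
      ∑ f ∈ W, 1 / X f ≤ 1 := by
    intro W hW
    set T : Finset (Sym2 V) := W.image Subtype.val with hT
    set F : SimpleGraph V := SimpleGraph.fromEdgeSet (T : Set (Sym2 V)) with hF
    have hTmem : ∀ e ∈ T, e ∈ G.edgeSet := by
      intro e he
      rw [hT, mem_image] at he
      obtain ⟨f, _, rfl⟩ := he
      exact f.2
    have hdiag : ∀ e ∈ T, ¬ e.IsDiag := fun e he => G.not_isDiag_of_mem_edgeSet (hTmem e he)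
    have hadj : ∀ x y, F.Adj x y ↔ s(x, y) ∈ T := by
      intro x y
      rw [hF, SimpleGraph.fromEdgeSet_adj]
      constructor
      · rintro ⟨h, _⟩; exact_mod_cast h
      · intro h
        refine ⟨by exact_mod_cast h, ?_⟩
        rintro rfl
        exact hdiag _ h (Sym2.mk_isDiag_iff.2 rfl)
    have hSC : StrongClique G F := by
      refine ⟨?_, ?_⟩
      · intro x y h
        exact hTmem _ ((hadj x y).1 h)
      · intro u v x y huv hxy
        have h1 := (hadj u v).1 huv
        have h2 := (hadj x y).1 hxy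
        have huv' : G.Adj u v := hTmem _ h1
        have hxy' : G.Adj x y := hTmem _ h2
        rw [hT, mem_image] at h1 h2
        obtain ⟨e1, he1, hs1⟩ := h1
        obtain ⟨e2, he2, hs2⟩ := h2
        rw [← touch_iff G huv' hxy', ← hs1, ← hs2]
        by_cases he : e1 = e2
        · subst he
          refine ⟨u, ?_, u, ?_, Or.inl rfl⟩ <;> rw [hs1] <;> exact Sym2.mem_mk_left _ _
        · exact (hW e1 he1 e2 he2 he).2
    have hst := star F hSC
    -- extend `1 / X` to all unordered pairs
    set w : Sym2 V → ℝ := fun e => if h : e ∈ G.edgeSet then 1 / X ⟨e, h⟩ else 0 with hw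
    have hsum : ∑ u, ∑ v ∈ F.neighborFinset u, 1 / (6 * D ^ 2 - N2 G u v) = ∑ e ∈ T, w e := by
      have h1 : ∑ u, ∑ v ∈ F.neighborFinset u, 1 / (6 * D ^ 2 - N2 G u v) =
          ∑ p ∈ (univ : Finset (V × V)).filter (fun p => s(p.1, p.2) ∈ T),
            w s(p.1, p.2) / 2 := by
        rw [sum_filter, ← univ_product_univ, sum_product]
        refine sum_congr rfl fun u _ => ?_
        rw [← sum_filter]
        refine sum_congr ?_ ?_
        · ext v
          rw [SimpleGraph.mem_neighborFinset, mem_filter, hadj]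
          simp
        · intro v hv
          have hv' : s(u, v) ∈ T := by
            rw [mem_filter] at hv; exact hv.2
          have hG : G.Adj u v := hTmem _ hv'
          have h2 : w s(u, v) = 1 / X ⟨s(u, v), hG⟩ := by
            rw [hw]; simp only; exact dif_pos (show s(u, v) ∈ G.edgeSet from hG)
          rw [h2, N2_eq_nb G u v hG, hX]
          simp only
          have h3 : 0 < 3 * D ^ 2 - ((Reed.nb (LineSq G) ⟨s(u, v), hG⟩).card : ℝ) := hXpos _
          have h4 : 6 * D ^ 2 - 2 * ((Reed.nb (LineSq G) ⟨s(u, v), hG⟩).card : ℝ) =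
              (3 * D ^ 2 - ((Reed.nb (LineSq G) ⟨s(u, v), hG⟩).card : ℝ)) * 2 := by ring
          rw [h4, div_div]
      rw [h1, ← sum_div, pair_sum T hdiag w]
      ring
    rw [hsum] at hst
    have h5 : ∑ f ∈ W, 1 / X f = ∑ e ∈ T, w e := by
      rw [hT, sum_image (fun a _ b _ h => Subtype.val_injective h)]
      refine sum_congr rfl fun f _ => ?_
      rw [hw]; simp only
      rw [dif_pos f.2]
    rw [h5]; exact hst
  obtain ⟨μ, h1, h2, h3, h4⟩ := Reed.harmonic_reed (LineSq G) X hXpos hclique (3 / 2 * D ^ 2)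
    (by positivity) (by intro e; rw [hX]; simp only; linarith)
  -- transport to sets of unordered pairs
  have hinj : Function.Injective (fun S : Finset G.edgeSet => S.image Subtype.val) :=
    image_injective Subtype.val_injective
  refine ⟨fun M => ∑ S, if S.image Subtype.val = M then μ S else 0, ?_, ?_, ?_, ?_⟩
  · intro M
    refine sum_nonneg fun S _ => ?_
    split_ifs
    · exact h1 S
    · exact le_refl _
  · intro M hM
    obtain ⟨S, _, hS⟩ := exists_ne_zero_of_sum_ne_zero hM
    have hSM : S.image Subtype.val = M := by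
      by_contra h; rw [if_neg h] at hS; exact hS rfl
    rw [if_pos hSM] at hS
    have hind := h2 S hS
    subst hSM
    refine ⟨?_, ?_⟩
    · intro e he
      rw [mem_image] at he
      obtain ⟨f, _, rfl⟩ := he
      exact f.2
    · intro e he e' he' hne x hx y hy
      rw [mem_image] at he he'
      obtain ⟨a, ha, rfl⟩ := he
      obtain ⟨b, hb, rfl⟩ := he'
      have hab : a ≠ b := fun h => hne (by rw [h])
      have h5 := hind a ha b hb
      constructor
      · intro h
        exact h5 ⟨hab, x, hx, y, hy, Or.inl h⟩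
      · intro h
        exact h5 ⟨hab, x, hx, y, hy, Or.inr h⟩
  · intro e he
    rw [← h3 ⟨e, he⟩]
    have h5 : ∀ M : Finset (Sym2 V), (if e ∈ M then ∑ S : Finset G.edgeSet,
        (if S.image Subtype.val = M then μ S else 0) else 0) =
        ∑ S : Finset G.edgeSet, (if S.image Subtype.val = M then
          (if e ∈ S.image Subtype.val then μ S else 0) else 0) := by
      intro M
      by_cases h : e ∈ M
      · rw [if_pos h]
        refine sum_congr rfl fun S _ => ?_
        by_cases h6 : S.image Subtype.val = M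
        · rw [if_pos h6, if_pos h6, if_pos (by rw [h6]; exact h)]
        · rw [if_neg h6, if_neg h6]
      · rw [if_neg h]
        symm
        refine sum_eq_zero fun S _ => ?_
        by_cases h6 : S.image Subtype.val = M
        · rw [if_pos h6, if_neg (by rw [h6]; exact h)]
        · rw [if_neg h6]
    rw [sum_congr rfl fun M _ => h5 M, sum_comm]
    refine sum_congr rfl fun S _ => ?_
    rw [sum_ite_eq, if_pos (mem_univ _)]
    have h7 : e ∈ S.image Subtype.val ↔ (⟨e, he⟩ : G.edgeSet) ∈ S := by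
      rw [mem_image]
      constructor
      · rintro ⟨f, hf, rfl⟩; exact hf
      · intro h; exact ⟨⟨e, he⟩, h, rfl⟩
    simp only [h7]
  · rw [sum_comm]
    have h5 : ∀ S : Finset G.edgeSet, ∑ M : Finset (Sym2 V),
        (if S.image Subtype.val = M then μ S else 0) = μ S := by
      intro S
      rw [sum_ite_eq, if_pos (mem_univ _)]
    rw [sum_congr rfl fun S _ => h5 S]
    exact h4

end

end MP433
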