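import Pool.Agent.Work.MP_433a35_co.Weights

/-!
# The pair inequality (MP_433a35_co)

`NN p q a b z ≥ 0` on the whole region of possible values.  With the slack variables
`A = p - a`, `B = q - b`, `X = a - z`, `Y = b - z`, `Z = z`, `U = 1 - A - X - Y - Z`,
`W = 1 - B - X - Y - Z`, all nonnegative, `NN` is a sum with positive coefficients of
products of four of them and of squares of linear forms times nonnegative factors
(`HH` and its mirror image under `A ↔ B`, `X ↔ Y`, `U ↔ W`).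
-/

set_option linter.unusedVariables false

namespace MP433

/-- part 0 of the certificate -/
noncomputable def HH0 (A B X Y Z U W : ℝ) : ℝ :=
  223/1000 * A * B * (B + 18/25 * Y - A - 18/25 * X)^2
    + 919/1000 * A * B * (1/50 + 22/25 * X + 22/25 * Y + Z - 1/2 * A - 1/2 * B)^2
    + 923/500 * A * X * (19/50 - 19/50 * A - 1/50 * B - 16/25 * X - Y - 6/25 * Z)^2
    + 2683/1000 * A * X * (12/25 + 21/50 * X + 1/25 * Y + 3/10 * Z - 12/25 * A - B)^2
    + 693/250 * A * Z * (47/50 * A + 47/50 * B + 3/5 * X + 3/5 * Y + 9/25 * Z - 1)^2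
    + 1179/1000 * X * U * (A + 29/50 * B + 3/50 * X - 29/50 - 3/5 * Y - 2/5 * Z)^2
    + 4277/1000 * X * U * (13/50 * A + 19/50 * B + 6/25 * X + Y + 6/25 * Z - 9/25)^2
    + 3253/1000 * X * X * (29/50 * A + 3/25 * B - 3/50 - 8/25 * X - 19/50 * Y - Z)^2
    + 569/250 * X * X * (39/50 * A + 19/25 * B + 11/50 * X + Y + 7/50 * Z - 7/10)^2
    + 307/1000 * X * Y * (A + B - 17/50 - 49/50 * X - 49/50 * Y - 1/10 * Z)^2
    + 784/125 * X * Y * (13/50 * A + 13/50 * B + 9/25 * X + 9/25 * Y - 13/50 - Z)^2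
    + 28271/1000 * X * Z * (1/2 * A + 12/25 * B + 16/25 * X + Y + 27/50 * Z - 17/25)^2

lemma HH0_nonneg {A B X Y Z U W : ℝ} (hA : 0 ≤ A) (hB : 0 ≤ B) (hX : 0 ≤ X) (hY : 0 ≤ Y)
    (hZ : 0 ≤ Z) (hU : 0 ≤ U) (hW : 0 ≤ W) : 0 ≤ HH0 A B X Y Z U W := by
  unfold HH0
  positivity

/-- part 1 of the certificate -/
noncomputable def HH1 (A B X Y Z U W : ℝ) : ℝ :=
  2133/1000 * Z * U * (A + 8/25 * B - 8/25 - 3/50 * X - 7/25 * Y - 13/25 * Z)^2
    + 1463/250 * Z * U * (11/50 * A + 27/50 * B + 19/25 * X + Y + 1/2 * Z - 14/25)^2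
    + 429/250 * Z * Z * (19/50 * A + 19/50 * B + X + Y + 4/5 * Z - 17/25)^2
    + 561/500 * A * X * (18/25 * A + B - 7/10)^2
    + 301/500 * Z * Z * (1/25 + 12/25 * A + 12/25 * B - Z)^2
    + 479/1000 * Z * Z * (4/5 * A + 4/5 * B + 7/10 * Z - 1)^2
    + 5981/5000000 * A^3 * B
    + 5981/5000000 * A^3 * X
    + 5981/5000000 * A^3 * Y
    + 5981/5000000 * A^3 * Z
    + 5981/5000000 * A^2 * B^2
    + 407881/5000000 * A^2 * B * X

lemma HH1_nonneg {A B X Y Z U W : ℝ} (hA : 0 ≤ A) (hB : 0 ≤ B) (hX : 0 ≤ X) (hY : 0 ≤ Y)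
    (hZ : 0 ≤ Z) (hU : 0 ≤ U) (hW : 0 ≤ W) : 0 ≤ HH1 A B X Y Z U W := by
  unfold HH1
  positivity

/-- part 2 of the certificate -/
noncomputable def HH2 (A B X Y Z U W : ℝ) : ℝ :=
  5981/5000000 * A^2 * B * Y
    + 32159/5000000 * A^2 * B * Z
    + 7831/2500000 * A^2 * B * U
    + 39731/2500000 * A^2 * B * W
    + 150837/10000000 * A^2 * X^2
    + 5981/5000000 * A^2 * X * Y
    + 522287/625000 * A^2 * X * Z
    + 54867/10000000 * A^2 * X * U
    + 39813/5000000 * A^2 * X * W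
    + 27769/10000000 * A^2 * Y^2
    + 5981/5000000 * A^2 * Y * Z
    + 5981/5000000 * A^2 * Y * U

lemma HH2_nonneg {A B X Y Z U W : ℝ} (hA : 0 ≤ A) (hB : 0 ≤ B) (hX : 0 ≤ X) (hY : 0 ≤ Y)
    (hZ : 0 ≤ Z) (hU : 0 ≤ U) (hW : 0 ≤ W) : 0 ≤ HH2 A B X Y Z U W := by
  unfold HH2
  positivity

/-- part 3 of the certificate -/
noncomputable def HH3 (A B X Y Z U W : ℝ) : ℝ :=
  9091/2000000 * A^2 * Y * W
    + 5981/5000000 * A^2 * Z^2
    + 171493/5000000 * A^2 * Z * U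
    + 5981/5000000 * A^2 * Z * W
    + 5981/5000000 * A * B * X^2
    + 1776029/1000000 * A * B * X * Y
    + 5981/5000000 * A * B * X * Z
    + 5981/5000000 * A * B * X * U
    + 14427/625000 * A * B * X * W
    + 43173/5000000 * A * B * Z^2
    + 1093/20000 * A * B * Z * U
    + 22181/5000000 * A * B * U^2

lemma HH3_nonneg {A B X Y Z U W : ℝ} (hA : 0 ≤ A) (hB : 0 ≤ B) (hX : 0 ≤ X) (hY : 0 ≤ Y)
    (hZ : 0 ≤ Z) (hU : 0 ≤ U) (hW : 0 ≤ W) : 0 ≤ HH3 A B X Y Z U W := by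
  unfold HH3
  positivity

/-- part 4 of the certificate -/
noncomputable def HH4 (A B X Y Z U W : ℝ) : ℝ :=
  5981/5000000 * A * B * U * W
    + 68149/5000000 * A * X^3
    + 42431/1000000 * A * X^2 * Y
    + 13240479/5000000 * A * X^2 * Z
    + 5981/5000000 * A * X^2 * U
    + 5981/5000000 * A * X^2 * W
    + 5981/5000000 * A * X * Y^2
    + 14079/62500 * A * X * Y * Z
    + 6889023/5000000 * A * X * Y * U
    + 5981/5000000 * A * X * Y * W
    + 5981/5000000 * A * X * Z^2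
    + 16877347/5000000 * A * X * Z * U

lemma HH4_nonneg {A B X Y Z U W : ℝ} (hA : 0 ≤ A) (hB : 0 ≤ B) (hX : 0 ≤ X) (hY : 0 ≤ Y)
    (hZ : 0 ≤ Z) (hU : 0 ≤ U) (hW : 0 ≤ W) : 0 ≤ HH4 A B X Y Z U W := by
  unfold HH4
  positivity

/-- part 5 of the certificate -/
noncomputable def HH5 (A B X Y Z U W : ℝ) : ℝ :=
  121683/78125 * A * X * Z * W
    + 14483/2000000 * A * X * U^2
    + 5981/5000000 * A * X * U * W
    + 5981/5000000 * A * X * W^2
    + 5981/5000000 * A * Y^3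
    + 5981/5000000 * A * Y^2 * Z
    + 5981/5000000 * A * Y^2 * U
    + 132449/5000000 * A * Y^2 * W
    + 221513/5000000 * A * Y * Z^2
    + 12505583/5000000 * A * Y * Z * U
    + 4857643/2500000 * A * Y * Z * W
    + 5981/5000000 * A * Y * U^2

lemma HH5_nonneg {A B X Y Z U W : ℝ} (hA : 0 ≤ A) (hB : 0 ≤ B) (hX : 0 ≤ X) (hY : 0 ≤ Y)
    (hZ : 0 ≤ Z) (hU : 0 ≤ U) (hW : 0 ≤ W) : 0 ≤ HH5 A B X Y Z U W := by
  unfold HH5
  positivity

/-- part 6 of the certificate -/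
noncomputable def HH6 (A B X Y Z U W : ℝ) : ℝ :=
  5981/5000000 * A * Y * U * W
    + 33513/10000000 * A * Y * W^2
    + 2163/312500 * A * Z^3
    + 5981/5000000 * A * Z^2 * U
    + 74363/5000000 * A * Z^2 * W
    + 5981/5000000 * A * Z * U^2
    + 281701/2500000 * A * Z * U * W
    + 120457/5000000 * A * Z * W^2
    + 44691/2500000 * X^4
    + 2064007/625000 * X^3 * Y
    + 341143/250000 * X^3 * Z
    + 234239/5000000 * X^3 * U

lemma HH6_nonneg {A B X Y Z U W : ℝ} (hA : 0 ≤ A) (hB : 0 ≤ B) (hX : 0 ≤ X) (hY : 0 ≤ Y)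
    (hZ : 0 ≤ Z) (hU : 0 ≤ U) (hW : 0 ≤ W) : 0 ≤ HH6 A B X Y Z U W := by
  unfold HH6
  positivity

/-- part 7 of the certificate -/
noncomputable def HH7 (A B X Y Z U W : ℝ) : ℝ :=
  634953/1000000 * X^3 * W
    + 590033/312500 * X^2 * Y^2
    + 9649369/625000 * X^2 * Y * Z
    + 26383363/5000000 * X^2 * Y * U
    + 13396151/5000000 * X^2 * Y * W
    + 6082943/2500000 * X^2 * Z^2
    + 2455777/1000000 * X^2 * Z * U
    + 11031941/5000000 * X^2 * Z * W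
    + 56717/2000000 * X^2 * U^2
    + 4905133/5000000 * X^2 * U * W
    + 313917/2000000 * X^2 * W^2
    + 3607/125000 * X * Y * Z^2

lemma HH7_nonneg {A B X Y Z U W : ℝ} (hA : 0 ≤ A) (hB : 0 ≤ B) (hX : 0 ≤ X) (hY : 0 ≤ Y)
    (hZ : 0 ≤ Z) (hU : 0 ≤ U) (hW : 0 ≤ W) : 0 ≤ HH7 A B X Y Z U W := by
  unfold HH7
  positivity

/-- part 8 of the certificate -/
noncomputable def HH8 (A B X Y Z U W : ℝ) : ℝ :=
  22082283/1250000 * X * Y * Z * U
    + 1303037/500000 * X * Y * U^2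
    + 435369/250000 * X * Y * U * W
    + 2093989/500000 * X * Z^3
    + 1333777/5000000 * X * Z^2 * U
    + 8699809/5000000 * X * Z^2 * W
    + 5981/5000000 * X * Z * U^2
    + 5981/5000000 * X * Z * U * W
    + 65433/2500000 * X * Z * W^2
    + 5981/5000000 * X * U^3
    + 1926489/10000000 * X * U^2 * W
    + 5000439/10000000 * X * U * W^2

lemma HH8_nonneg {A B X Y Z U W : ℝ} (hA : 0 ≤ A) (hB : 0 ≤ B) (hX : 0 ≤ X) (hY : 0 ≤ Y)
    (hZ : 0 ≤ Z) (hU : 0 ≤ U) (hW : 0 ≤ W) : 0 ≤ HH8 A B X Y Z U W := by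
  unfold HH8
  positivity

/-- part 9 of the certificate -/
noncomputable def HH9 (A B X Y Z U W : ℝ) : ℝ :=
  5981/5000000 * X * W^3
    + 68441/2500000 * Z^4
    + 4233/625000 * Z^3 * U
    + 11443/156250 * Z^2 * U^2
    + 1671/125000 * Z^2 * U * W
    + 5981/5000000 * Z * U^3
    + 5987/5000000 * Z * U^2 * W

lemma HH9_nonneg {A B X Y Z U W : ℝ} (hA : 0 ≤ A) (hB : 0 ≤ B) (hX : 0 ≤ X) (hY : 0 ≤ Y)
    (hZ : 0 ≤ Z) (hU : 0 ≤ U) (hW : 0 ≤ W) : 0 ≤ HH9 A B X Y Z U W := by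
  unfold HH9
  positivity

/-- half of the certificate -/
noncomputable def HH (A B X Y Z U W : ℝ) : ℝ :=
  HH0 A B X Y Z U W + HH1 A B X Y Z U W + HH2 A B X Y Z U W + HH3 A B X Y Z U W + HH4 A B X Y Z U W + HH5 A B X Y Z U W + HH6 A B X Y Z U W + HH7 A B X Y Z U W + HH8 A B X Y Z U W + HH9 A B X Y Z U W

lemma HH_nonneg {A B X Y Z U W : ℝ} (hA : 0 ≤ A) (hB : 0 ≤ B) (hX : 0 ≤ X) (hY : 0 ≤ Y)
    (hZ : 0 ≤ Z) (hU : 0 ≤ U) (hW : 0 ≤ W) : 0 ≤ HH A B X Y Z U W := by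
  unfold HH
  have h0 := HH0_nonneg hA hB hX hY hZ hU hW
  have h1 := HH1_nonneg hA hB hX hY hZ hU hW
  have h2 := HH2_nonneg hA hB hX hY hZ hU hW
  have h3 := HH3_nonneg hA hB hX hY hZ hU hW
  have h4 := HH4_nonneg hA hB hX hY hZ hU hW
  have h5 := HH5_nonneg hA hB hX hY hZ hU hW
  have h6 := HH6_nonneg hA hB hX hY hZ hU hW
  have h7 := HH7_nonneg hA hB hX hY hZ hU hW
  have h8 := HH8_nonneg hA hB hX hY hZ hU hW
  have h9 := HH9_nonneg hA hB hX hY hZ hU hW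
  linarith

lemma NN_eq (A B X Y Z : ℝ) :
    2 * NN (A + X + Z) (B + Y + Z) (X + Z) (Y + Z) Z
      = HH A B X Y Z (1 - A - X - Y - Z) (1 - B - X - Y - Z)
        + HH B A Y X Z (1 - B - X - Y - Z) (1 - A - X - Y - Z) := by
  unfold NN la mu ka ga om rh HH HH0 HH1 HH2 HH3 HH4 HH5 HH6 HH7 HH8 HH9
  ring

/-- **The pair inequality.** -/
theorem pair_ineq {p q a b z : ℝ} (hz : 0 ≤ z) (hza : z ≤ a) (hzb : z ≤ b) (hap : a ≤ p)
    (hbq : b ≤ q) (h1 : q + a - z ≤ 1) (h2 : p + b - z ≤ 1) : 0 ≤ NN p q a b z := by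
  have e := NN_eq (p - a) (q - b) (a - z) (b - z) z
  have e1 : p - a + (a - z) + z = p := by ring
  have e2 : q - b + (b - z) + z = q := by ring
  have e3 : a - z + z = a := by ring
  have e4 : b - z + z = b := by ring
  rw [e1, e2, e3, e4] at e
  have hA : 0 ≤ p - a := by linarith
  have hB : 0 ≤ q - b := by linarith
  have hX : 0 ≤ a - z := by linarith
  have hY : 0 ≤ b - z := by linarith
  have hU : 0 ≤ 1 - (p - a) - (a - z) - (b - z) - z := by linarith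
  have hW : 0 ≤ 1 - (q - b) - (a - z) - (b - z) - z := by linarith
  have k1 := HH_nonneg hA hB hX hY hz hU hW
  have k2 := HH_nonneg hB hA hY hX hz hW hU
  linarith

end MP433
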