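import Pool.Agent.Work.MP_433a35_co.Count
import Pool.Agent.Work.MP_433a35_co.FP
import Pool.Agent.Work.MP_433a35_co.Pair
import Pool.Agent.Work.MP_433a35_co.FIneq

/-!
# The summation (MP_433a35_co)
-/

set_option autoImplicit false
set_option linter.unusedSectionVars false

namespace MP433

open Finset

variable {V : Type*} [Fintype V] [DecidableEq V]
variable {G F : SimpleGraph V} [DecidableRel G.Adj] [DecidableRel F.Adj]

lemma la_nonneg {p : ℝ} (h1 : p ≤ 1) : 0 ≤ la p := by
  unfold la; nlinarith [mul_self_nonneg p]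

lemma mu_nonneg {p : ℝ} (h1 : p ≤ 1) : 0 ≤ mu p := by
  unfold mu; nlinarith [mul_nonneg (sub_nonneg.2 h1) (sub_nonneg.2 h1)]

lemma ka_nonneg {p : ℝ} (h1 : p ≤ 1) : 0 ≤ ka p := by
  unfold ka; nlinarith [mul_nonneg (sub_nonneg.2 h1) (sub_nonneg.2 h1)]

lemma ga_nonneg {p : ℝ} (h0 : 0 ≤ p) : 0 ≤ ga p := by
  unfold ga; positivity

lemma ga_mono {p q : ℝ} (hp : 0 ≤ p) (hq : 0 ≤ q) : 0 ≤ (ga p - ga q) * (p - q) := by
  have : (ga p - ga q) * (p - q) = (86/1000 + 287/1000 * (p + q)) * (p - q) ^ 2 := by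
    unfold ga; ring
  rw [this]; positivity

lemma rh_nonneg {p : ℝ} (h0 : 0 ≤ p) : 0 ≤ rh p := by
  unfold rh; positivity

lemma om_le {p : ℝ} (h0 : 0 ≤ p) : om p ≤ 2 := by
  unfold om; linarith

/-- the part of the pair expression without the non-adjacency terms; `A = a u w`, `B = a w u` -/
noncomputable def bs (p A B Z : ℝ) : ℝ :=
  p * B + 1/2 * A * (A - Z) + mu p * (A - Z) + ka p * Z + ga p * (B - Z)

/-- the half of `NN` which belongs to `u` -/
noncomputable def hh (p q A B Z : ℝ) : ℝ :=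
  bs p A B Z - la p * (A - p/2) * (q - B) - 1/2 * p * om p * (q + B) + 1/2 * p * rh p * (q - B)

lemma NN_eq_hh (p q A B Z : ℝ) : NN p q A B Z = hh p q A B Z + hh q p B A Z := by
  unfold NN hh bs; ring

lemma adj_nonneg {p A B Z : ℝ} (h0 : 0 ≤ p) (h1 : p ≤ 1) (hA : 0 ≤ A) (hB : 0 ≤ B) (hZ : 0 ≤ Z)
    (hZA : Z ≤ A) (hZB : Z ≤ B) : 0 ≤ bs p A B Z - 1/2 * p * om p * B := by
  have e : bs p A B Z - 1/2 * p * om p * B = 1/2 * (p * B) * (2 - om p) + 1/2 * (A * (A - Z)) +
      mu p * (A - Z) + ka p * Z + ga p * (B - Z) := by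
    unfold bs; ring
  rw [e]
  have h2 := mul_nonneg h0 hB
  have h3 := mul_nonneg hA (sub_nonneg.2 hZA)
  have h4 := mul_nonneg (mu_nonneg h1) (sub_nonneg.2 hZA)
  have h5 := mul_nonneg (ka_nonneg h1) hZ
  have h6 := mul_nonneg (ga_nonneg h0) (sub_nonneg.2 hZB)
  have h7 := mul_nonneg h2 (sub_nonneg.2 (om_le h0))
  linarith

/-- sums over non-neighbours -/
lemma sum_non (h : V → ℝ) (u : V) :
    ∑ w ∈ univ.filter (fun w => ¬ G.Adj u w), h w = ∑ w, (1 - AA G u w) * h w := by
  rw [Finset.sum_filter]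
  refine Finset.sum_congr rfl fun w _ => ?_
  unfold AA
  split_ifs <;> simp_all

/-- symmetrisation of a double sum with a symmetric weight -/
lemma sum_symm (W : V → V → ℝ) (hW : ∀ u w, W u w = W w u) (h : V → V → ℝ) :
    ∑ u, ∑ w, W u w * h u w = 1/2 * ∑ u, ∑ w, W u w * (h u w + h w u) := by
  have h1 : ∑ u, ∑ w, W u w * h w u = ∑ u, ∑ w, W u w * h u w := by
    rw [Finset.sum_comm]
    refine Finset.sum_congr rfl fun u _ => Finset.sum_congr rfl fun w _ => ?_
    rw [hW]
  have h2 : ∑ u, ∑ w, W u w * (h u w + h w u) =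
      ∑ u, ∑ w, W u w * h u w + ∑ u, ∑ w, W u w * h w u := by
    simp only [← Finset.sum_add_distrib, mul_add]
  rw [h2, h1]; ring

lemma f_le_d (hFG : F ≤ G) (w : V) : f F w ≤ d G w := by
  rw [f_eq, d_eq]
  exact Finset.sum_le_sum fun x _ => AA_le hFG w x

/-- The summation. -/
theorem main_ineq (hF : StrongClique G F) (D : ℝ) (hD0 : 0 < D) (hD : ∀ u, d G u ≤ D)
    (h1 : D^2 ≤ phi F) (h2 : 3 * phi F ≤ 4 * D^2) :
    4 * D^2 * phi F - 3 * D^4 ≤ ∑ u, f F u * g G F u
      + 1/2 * ∑ u, ∑ w, a G F u w * (a G F u w - z F u w) := by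
  have hFG := hF.1
  set p : V → ℝ := fun u => f F u / D with hp
  set A : V → V → ℝ := fun u w => a G F u w / D with hA
  set Z : V → V → ℝ := fun u w => z F u w / D with hZ
  set t : ℝ := phi F / D ^ 2 with ht
  have hDne : D ≠ 0 := hD0.ne'
  have p0 : ∀ u, 0 ≤ p u := fun u => div_nonneg (f_nonneg u) hD0.le
  have p1 : ∀ u, p u ≤ 1 := fun u => (div_le_one hD0).2 ((f_le_d hFG u).trans (hD u))
  have hA0 : ∀ u w, 0 ≤ A u w := fun u w => div_nonneg (a_nonneg u w) hD0.le
  have hZ0 : ∀ u w, 0 ≤ Z u w := fun u w => div_nonneg (z_nonneg u w) hD0.le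
  have hZA : ∀ u w, Z u w ≤ A u w := fun u w =>
    div_le_div_of_nonneg_right (z_le_a hFG u w) hD0.le
  have hZs : ∀ u w, Z u w = Z w u := fun u w => by
    show z F u w / D = z F w u / D
    rw [z_symm]
  have hAp : ∀ u w, A u w ≤ p u := fun u w => div_le_div_of_nonneg_right (a_le_f u w) hD0.le
  have hroom : ∀ u w, p w + A u w - Z u w ≤ 1 := fun u w => by
    have : p w + A u w - Z u w = (f F w + a G F u w - z F u w) / D := by
      show f F w / D + a G F u w / D - z F u w / D = _
      ring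
    rw [this]
    exact (div_le_one hD0).2 ((room hFG u w).trans (hD w))
  have t1 : 1 ≤ t := by
    rw [ht, le_div_iff₀ (by positivity)]; linarith
  have t2 : t ≤ 4/3 := by
    rw [ht, div_le_iff₀ (by positivity)]; linarith
  -- nonadjacent pairs
  have hnon : 0 ≤ ∑ u, ∑ w, (1 - AA G u w) * hh (p u) (p w) (A u w) (A w u) (Z u w) := by
    rw [sum_symm (fun u w => 1 - AA G u w) (fun u w => by simp only [AA_symm G u w])
      (fun u w => hh (p u) (p w) (A u w) (A w u) (Z u w))]
    refine mul_nonneg (by norm_num) (Finset.sum_nonneg fun u _ => Finset.sum_nonneg fun w _ => ?_)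
    refine mul_nonneg (sub_nonneg.2 (AA_le_one G u w)) ?_
    have := pair_ineq (hZ0 u w) (hZA u w) (hZs u w ▸ hZA w u) (hAp u w) (hAp w u) (hroom u w)
      (by rw [hZs u w]; exact hroom w u)
    rw [NN_eq_hh] at this
    rwa [hZs w u]
  -- adjacent pairs
  have hadj : 0 ≤ ∑ u, ∑ w, AA G u w * (bs (p u) (A u w) (A w u) (Z u w) -
      1/2 * p u * om (p u) * A w u) := by
    refine Finset.sum_nonneg fun u _ => Finset.sum_nonneg fun w _ => ?_
    refine mul_nonneg (AA_nonneg G u w) ?_
    exact adj_nonneg (p0 u) (p1 u) (hA0 u w) (hA0 w u) (hZ0 u w) (hZA u w) (hZs u w ▸ hZA w u)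
  -- the bound for one vertex
  have hvert : ∀ u, ∑ w, (1 - AA G u w) * hh (p u) (p w) (A u w) (A w u) (Z u w) +
      ∑ w, AA G u w * (bs (p u) (A u w) (A w u) (Z u w) - 1/2 * p u * om (p u) * A w u) ≤
      ∑ w, bs (p u) (A u w) (A w u) (Z u w) - p u * om (p u) * (phi F / D) +
        p u * rh (p u) * ((2 * D - f F u) ^ 2 / (3 * D)) := by
    intro u
    have e1 : ∑ w, (1 - AA G u w) * hh (p u) (p w) (A u w) (A w u) (Z u w) +
        ∑ w, AA G u w * (bs (p u) (A u w) (A w u) (Z u w) - 1/2 * p u * om (p u) * A w u) =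
        ∑ w, bs (p u) (A u w) (A w u) (Z u w)
        - la (p u) * ∑ w, (1 - AA G u w) * ((A u w - p u/2) * (p w - A w u))
        - p u * om (p u) * (1/2 * ∑ w, (1 - AA G u w) * (p w + A w u) + 1/2 * ∑ w, AA G u w * A w u)
        + p u * rh (p u) * (1/2 * ∑ w, (1 - AA G u w) * (p w - A w u)) := by
      simp only [Finset.mul_sum, ← Finset.sum_add_distrib, ← Finset.sum_sub_distrib]
      refine Finset.sum_congr rfl fun w _ => ?_
      unfold hh; ring
    have e2 : 0 ≤ ∑ w, (1 - AA G u w) * ((A u w - p u/2) * (p w - A w u)) := by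
      have h3 := covering hF u
      rw [sum_non] at h3
      have : ∑ w, (1 - AA G u w) * ((A u w - p u/2) * (p w - A w u)) =
          (∑ w, (1 - AA G u w) * ((a G F u w - f F u / 2) * (f F w - a G F w u))) / D ^ 2 := by
        rw [Finset.sum_div]
        refine Finset.sum_congr rfl fun w _ => ?_
        simp only [hA, hp]
        field_simp
      rw [this]
      exact div_nonneg h3 (by positivity)
    have e3 : 1/2 * ∑ w, (1 - AA G u w) * (p w + A w u) + 1/2 * ∑ w, AA G u w * A w u =
        phi F / D := by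
      have h3 := phi_sub_g (G := G) (F := F) u
      rw [sum_non, sum_nbr, ← sum_a_left] at h3
      have h4 : phi F = 1/2 * ∑ w, (1 - AA G u w) * (f F w + a G F w u) +
          1/2 * ∑ w, AA G u w * a G F w u := by
        have h5 : ∑ w, a G F w u = ∑ w, (1 - AA G u w) * a G F w u + ∑ w, AA G u w * a G F w u := by
          rw [← Finset.sum_add_distrib]
          exact Finset.sum_congr rfl fun w _ => by ring
        have h6 : ∑ w, (1 - AA G u w) * (f F w + a G F w u) =
            ∑ w, (1 - AA G u w) * (f F w - a G F w u) + 2 * ∑ w, (1 - AA G u w) * a G F w u := by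
          rw [Finset.mul_sum, ← Finset.sum_add_distrib]
          exact Finset.sum_congr rfl fun w _ => by ring
        rw [h6]
        linarith
      rw [h4, add_div]
      congr 1
      · rw [mul_div_assoc, Finset.sum_div]
        congr 1
        refine Finset.sum_congr rfl fun w _ => ?_
        simp only [hA, hp]; ring
      · rw [mul_div_assoc, Finset.sum_div]
        congr 1
        refine Finset.sum_congr rfl fun w _ => ?_
        simp only [hA]; ring
    have e4 : 1/2 * ∑ w, (1 - AA G u w) * (p w - A w u) ≤ (2 * D - f F u) ^ 2 / (3 * D) := by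
      have h3 := R_bound hF D hD u
      rw [sum_non] at h3
      have : 1/2 * ∑ w, (1 - AA G u w) * (p w - A w u) =
          (3 * (1 / 2 * ∑ w, (1 - AA G u w) * (f F w - a G F w u))) / (3 * D) := by
        rw [mul_div_mul_left _ _ (by norm_num : (3:ℝ) ≠ 0), mul_div_assoc, Finset.sum_div]
        congr 1
        refine Finset.sum_congr rfl fun w _ => ?_
        simp only [hA, hp]; ring
      rw [this]
      exact div_le_div_of_nonneg_right h3 (by positivity)
    rw [e1, e3]
    have e5 := mul_nonneg (la_nonneg (p1 u)) e2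
    have e6 := mul_le_mul_of_nonneg_left e4 (mul_nonneg (p0 u) (rh_nonneg (p0 u)))
    linarith
  -- the sum of the base terms
  have hbase : ∀ u, ∑ w, bs (p u) (A u w) (A w u) (Z u w) ≤
      p u * (g G F u / D) + 1/2 * ∑ w, A u w * (A u w - Z u w) +
      mu (p u) * ∑ w, AA F u w * (1 - p w) + ka (p u) * ∑ w, AA F u w * p w +
      ga (p u) * ∑ w, (AA G u w - AA F u w) * p w := by
    intro u
    have e1 : ∑ w, bs (p u) (A u w) (A w u) (Z u w) =
        p u * ∑ w, A w u + 1/2 * ∑ w, A u w * (A u w - Z u w) +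
        mu (p u) * (∑ w, A u w - ∑ w, Z u w) + ka (p u) * ∑ w, Z u w +
        ga (p u) * (∑ w, A w u - ∑ w, Z u w) := by
      simp only [Finset.mul_sum, ← Finset.sum_add_distrib, ← Finset.sum_sub_distrib]
      refine Finset.sum_congr rfl fun w _ => ?_
      unfold bs; ring
    have e2 : ∑ w, A w u = g G F u / D := by
      rw [← sum_a_left, Finset.sum_div]
    have e2' : ∑ w, A w u = ∑ w, AA G u w * p w := by
      rw [e2, g_eq, Finset.sum_div]
      refine Finset.sum_congr rfl fun w _ => ?_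
      simp only [hp]; ring
    have e3 : ∑ w, Z u w = ∑ w, AA F u w * p w := by
      have : ∑ w, Z u w = (∑ w, z F u w) / D := by rw [Finset.sum_div]
      rw [this, sum_z, sum_nbr, Finset.sum_div]
      refine Finset.sum_congr rfl fun w _ => ?_
      simp only [hp]; ring
    have e4 : ∑ w, A u w ≤ ∑ w, AA F u w := by
      have : ∑ w, A u w = (∑ w, a G F u w) / D := by rw [Finset.sum_div]
      rw [this, sum_a_right, sum_nbr, Finset.sum_div]
      refine Finset.sum_le_sum fun w _ => ?_
      rw [mul_div_assoc]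
      have h3 : d G w / D ≤ 1 := (div_le_one hD0).2 (hD w)
      have h4 := mul_le_mul_of_nonneg_left h3 (AA_nonneg F u w)
      linarith
    have e5 : ∑ w, AA F u w * (1 - p w) = ∑ w, AA F u w - ∑ w, AA F u w * p w := by
      rw [← Finset.sum_sub_distrib]
      exact Finset.sum_congr rfl fun w _ => by ring
    have e6 : ∑ w, (AA G u w - AA F u w) * p w = ∑ w, AA G u w * p w - ∑ w, AA F u w * p w := by
      rw [← Finset.sum_sub_distrib]
      exact Finset.sum_congr rfl fun w _ => by ring
    rw [e1, e5, e6, ← e2', ← e3, ← e2]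
    have e7 := mul_le_mul_of_nonneg_left (sub_le_sub_right e4 (∑ w, Z u w))
      (mu_nonneg (p1 u))
    linarith
  -- the `ga` term
  have hga : ∑ u, ga (p u) * ∑ w, (AA G u w - AA F u w) * p w ≤
      ∑ u, ∑ w, AA F u w * (ga (p u) * (1 - p u)) := by
    have e1 : ∑ u, ga (p u) * ∑ w, (AA G u w - AA F u w) * p w =
        ∑ u, ∑ w, (AA G u w - AA F u w) * (ga (p u) * p w) := by
      refine Finset.sum_congr rfl fun u _ => ?_
      rw [Finset.mul_sum]
      exact Finset.sum_congr rfl fun w _ => by ring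
    have hs : ∀ u w, AA G u w - AA F u w = AA G w u - AA F w u := fun u w => by
      rw [AA_symm G u w, AA_symm F u w]
    have e2 : ∑ u, ∑ w, (AA G u w - AA F u w) * (ga (p u) * p w) ≤
        ∑ u, ∑ w, (AA G u w - AA F u w) * (ga (p u) * p u) := by
      rw [sum_symm (fun u w => AA G u w - AA F u w) hs (fun u w => ga (p u) * p w),
        sum_symm (fun u w => AA G u w - AA F u w) hs (fun u w => ga (p u) * p u)]
      refine mul_le_mul_of_nonneg_left (Finset.sum_le_sum fun u _ => Finset.sum_le_sum fun w _ => ?_)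
        (by norm_num)
      refine mul_le_mul_of_nonneg_left ?_ (sub_nonneg.2 (AA_le hFG u w))
      have := ga_mono (p0 u) (p0 w)
      linarith
    have e3 : ∀ u, ∑ w, (AA G u w - AA F u w) * (ga (p u) * p u) ≤
        ∑ w, AA F u w * (ga (p u) * (1 - p u)) := by
      intro u
      rw [← Finset.sum_mul, ← Finset.sum_mul, Finset.sum_sub_distrib, ← d_eq, ← f_eq]
      have h3 : f F u = D * p u := by
        simp only [hp]; field_simp
      have h4 : d G u - f F u ≤ D * (1 - p u) := by
        have := hD u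
        rw [h3]; linarith
      have h5 := mul_le_mul_of_nonneg_right h4 (mul_nonneg (ga_nonneg (p0 u)) (p0 u))
      calc (d G u - f F u) * (ga (p u) * p u) ≤ D * (1 - p u) * (ga (p u) * p u) := h5
        _ = f F u * (ga (p u) * (1 - p u)) := by rw [h3]; ring
    rw [e1]
    exact e2.trans (Finset.sum_le_sum fun u _ => e3 u)
  -- combination
  have htot : 0 ≤ ∑ u, (p u * (g G F u / D) + 1/2 * ∑ w, A u w * (A u w - Z u w)) +
      ∑ u, ∑ w, AA F u w * (mu (p u) * (1 - p w) + ka (p u) * p w + ga (p u) * (1 - p u)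
        - t * om (p u) + rh (p u) * (2 - p u) ^ 2 / 3) := by
    have e1 : 0 ≤ ∑ u, (∑ w, (1 - AA G u w) * hh (p u) (p w) (A u w) (A w u) (Z u w) +
      ∑ w, AA G u w * (bs (p u) (A u w) (A w u) (Z u w) - 1/2 * p u * om (p u) * A w u)) := by
      rw [Finset.sum_add_distrib]
      exact add_nonneg hnon hadj
    have e2 : ∀ u, ∑ w, (1 - AA G u w) * hh (p u) (p w) (A u w) (A w u) (Z u w) +
        ∑ w, AA G u w * (bs (p u) (A u w) (A w u) (Z u w) - 1/2 * p u * om (p u) * A w u) ≤
        (p u * (g G F u / D) + 1/2 * ∑ w, A u w * (A u w - Z u w)) +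
        ga (p u) * ∑ w, (AA G u w - AA F u w) * p w +
        ∑ w, AA F u w * (mu (p u) * (1 - p w) + ka (p u) * p w
          - t * om (p u) + rh (p u) * (2 - p u) ^ 2 / 3) := by
      intro u
      have h3 := hvert u
      have h4 := hbase u
      have h5 : f F u = D * p u := by
        simp only [hp]; field_simp
      have h6 : ∑ w, AA F u w * (mu (p u) * (1 - p w) + ka (p u) * p w
          - t * om (p u) + rh (p u) * (2 - p u) ^ 2 / 3) =
          mu (p u) * ∑ w, AA F u w * (1 - p w) + ka (p u) * ∑ w, AA F u w * p w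
          - p u * om (p u) * (phi F / D) + p u * rh (p u) * ((2 * D - f F u) ^ 2 / (3 * D)) := by
        have h7 : p u * om (p u) * (phi F / D) = (∑ w, AA F u w) * (t * om (p u)) := by
          rw [← f_eq, h5, ht]
          field_simp
        have h8 : p u * rh (p u) * ((2 * D - f F u) ^ 2 / (3 * D)) =
            (∑ w, AA F u w) * (rh (p u) * (2 - p u) ^ 2 / 3) := by
          rw [← f_eq, h5]
          field_simp
        rw [h7, h8, Finset.mul_sum, Finset.mul_sum, Finset.sum_mul, Finset.sum_mul,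
          ← Finset.sum_add_distrib, ← Finset.sum_sub_distrib, ← Finset.sum_add_distrib]
        exact Finset.sum_congr rfl fun w _ => by ring
      rw [h6]
      linarith
    have e3 := e1.trans (Finset.sum_le_sum fun u _ => e2 u)
    rw [Finset.sum_add_distrib, Finset.sum_add_distrib] at e3
    have e4 : ∑ u, ∑ w, AA F u w * (mu (p u) * (1 - p w) + ka (p u) * p w + ga (p u) * (1 - p u)
        - t * om (p u) + rh (p u) * (2 - p u) ^ 2 / 3) =
        ∑ u, ∑ w, AA F u w * (ga (p u) * (1 - p u)) +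
        ∑ u, ∑ w, AA F u w * (mu (p u) * (1 - p w) + ka (p u) * p w
          - t * om (p u) + rh (p u) * (2 - p u) ^ 2 / 3) := by
      simp only [← Finset.sum_add_distrib]
      exact Finset.sum_congr rfl fun u _ => Finset.sum_congr rfl fun w _ => by ring
    rw [e4]
    linarith
  -- the edge inequality
  have hedge : ∑ u, ∑ w, AA F u w * (mu (p u) * (1 - p w) + ka (p u) * p w + ga (p u) * (1 - p u)
        - t * om (p u) + rh (p u) * (2 - p u) ^ 2 / 3) ≤ -(D ^ 2 * (4 * t - 3)) := by
    rw [sum_symm (fun u w => AA F u w) (fun u w => AA_symm F u w)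
      (fun u w => mu (p u) * (1 - p w) + ka (p u) * p w + ga (p u) * (1 - p u)
        - t * om (p u) + rh (p u) * (2 - p u) ^ 2 / 3)]
    have e1 : ∀ u w, AA F u w * ((mu (p u) * (1 - p w) + ka (p u) * p w + ga (p u) * (1 - p u)
        - t * om (p u) + rh (p u) * (2 - p u) ^ 2 / 3) +
        (mu (p w) * (1 - p u) + ka (p w) * p u + ga (p w) * (1 - p w)
        - t * om (p w) + rh (p w) * (2 - p w) ^ 2 / 3)) ≤ AA F u w * (-((4 * t - 3) / t)) := by
      intro u w
      refine mul_le_mul_of_nonneg_left ?_ (AA_nonneg F u w)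
      have h3 := F_ineq (p0 u) (p1 u) (p0 w) (p1 w) t1 t2
      have h4 : (4 * t - 3) / t ≤ FF (p u) (p w) t := by
        rw [div_le_iff₀ (by linarith)]; linarith
      unfold FF at h4
      linarith
    have e2 : ∑ u, ∑ w, AA F u w * (-((4 * t - 3) / t)) = -(2 * (D ^ 2 * (4 * t - 3))) := by
      have h3 : ∀ u, ∑ w, AA F u w * (-((4 * t - 3) / t)) = f F u * (-((4 * t - 3) / t)) := by
        intro u
        rw [← Finset.sum_mul, ← f_eq]
      simp only [h3]
      rw [← Finset.sum_mul]
      have h4 : ∑ u, f F u = 2 * phi F := by unfold phi; ring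
      have h5 : phi F = D ^ 2 * t := by rw [ht]; field_simp
      have h6 : t ≠ 0 := by linarith
      rw [h4, h5]
      field_simp
    have e3 : ∑ u, ∑ w, AA F u w * ((mu (p u) * (1 - p w) + ka (p u) * p w + ga (p u) * (1 - p u)
        - t * om (p u) + rh (p u) * (2 - p u) ^ 2 / 3) +
        (mu (p w) * (1 - p u) + ka (p w) * p u + ga (p w) * (1 - p w)
        - t * om (p w) + rh (p w) * (2 - p w) ^ 2 / 3)) ≤ -(2 * (D ^ 2 * (4 * t - 3))) := by
      rw [← e2]
      exact Finset.sum_le_sum fun u _ => Finset.sum_le_sum fun w _ => e1 u w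
    linarith
  have hfin : D ^ 2 * (4 * t - 3) ≤
      ∑ u, (p u * (g G F u / D) + 1/2 * ∑ w, A u w * (A u w - Z u w)) := by linarith
  have e1 : ∑ u, (p u * (g G F u / D) + 1/2 * ∑ w, A u w * (A u w - Z u w)) =
      (∑ u, f F u * g G F u + 1/2 * ∑ u, ∑ w, a G F u w * (a G F u w - z F u w)) / D ^ 2 := by
    rw [add_div, Finset.sum_add_distrib, Finset.sum_div, ← Finset.mul_sum, mul_div_assoc,
      Finset.sum_div]
    congr 1
    · refine Finset.sum_congr rfl fun u _ => ?_
      simp only [hp]; field_simp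
    · congr 1
      refine Finset.sum_congr rfl fun u _ => ?_
      rw [Finset.sum_div]
      refine Finset.sum_congr rfl fun w _ => ?_
      simp only [hA, hZ]; field_simp
  rw [e1, le_div_iff₀ (by positivity)] at hfin
  have h5 : phi F = D ^ 2 * t := by rw [ht]; field_simp
  rw [h5]
  calc 4 * D ^ 2 * (D ^ 2 * t) - 3 * D ^ 4 = D ^ 2 * (4 * t - 3) * D ^ 2 := by ring
    _ ≤ _ := hfin

end MP433
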