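import Pool.Agent.Work.MP_433a35_co.PureData

/-! The pure inequality: in a graph of maximum degree at most `D` in which any two edges share a
vertex or are joined, `2 w1^2 <= 4 w3 + D^2 w1`, where `w1`, `w3` count walks with one and three
steps. -/

set_option linter.style.longLine false

namespace MP433
namespace Pure

open Finset

theorem psd (z0 p q c pp qq nn pz qz cz aa : ℝ) :
    0 ≤ 2304 * (z0 * z0) + (-72) * (z0 * c) + (-1152) * (z0 * pp) + (-1152) * (z0 * qq) + 576 * (z0 * nn) + (-4896) * (z0 * pz) + (-4896) * (z0 * qz) + (-9216) * (z0 * cz) + 1152 * (p * p) + 1152 * (p * c) + 1152 * (q * q) + 1152 * (q * c) + 3456 * (c * c) + (-1152) * (p * pp) + (-1512) * (p * nn) + (-3096) * (p * pz) + (-2304) * (p * cz) + (-1152) * (q * qq) + (-1512) * (q * nn) + (-3096) * (q * qz) + (-2304) * (q * cz) + (-558) * (c * pp) + (-558) * (c * qq) + (-1368) * (c * pz) + (-1368) * (c * qz) + (-9216) * (c * cz) + (-576) * (c * aa) + 1152 * (pp * pp) +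 (-1152) * (pp * qq) + 612 * (pp * nn) + (-612) * (pp * pz) + 4608 * (pp * qz) + 3456 * (pp * cz) + 1152 * (qq * qq) + 612 * (qq * nn) + 4608 * (qq * pz) + (-612) * (qq * qz) + 3456 * (qq * cz) + 4224 * (nn * nn) + 3948 * (nn * pz) + 3948 * (nn * qz) + (-9216) * (nn * cz) + (-3816) * (nn * aa) + 9204 * (pz * pz) + (-1728) * (pz * qz) + 8928 * (pz * cz) + (-1548) * (pz * aa) + 9204 * (qz * qz) + 8928 * (qz * cz) + (-1548) * (qz * aa) + 23040 * (cz * cz) + 6336 * (cz * aa) + 1152 * (aa * aa) := by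
  have h : 2304 * (z0 * z0) + (-72) * (z0 * c) + (-1152) * (z0 * pp) + (-1152) * (z0 * qq) + 576 * (z0 * nn) + (-4896) * (z0 * pz) + (-4896) * (z0 * qz) + (-9216) * (z0 * cz) + 1152 * (p * p) + 1152 * (p * c) + 1152 * (q * q) + 1152 * (q * c) + 3456 * (c * c) + (-1152) * (p * pp) + (-1512) * (p * nn) + (-3096) * (p * pz) + (-2304) * (p * cz) + (-1152) * (q * qq) + (-1512) * (q * nn) + (-3096) * (q * qz) + (-2304) * (q * cz) + (-558) * (c * pp) + (-558) * (c * qq) + (-1368) * (c * pz) + (-1368) * (c * qz) + (-9216) * (c * cz) + (-576) * (c * aa) + 1152 * (pp * pp) + (-1152) * (pp * qq) + 612 * (pp * nn) + (-612) * (pp * pz) + 4608 * (pp * qz) + 3456 * (pp * cz) + 1152 * (qq * qq) + 612 * (qq * nn) + 4608 * (qq * pz) + (-612) * (qq * qz) + 3456 * (qq * cz) + 4224 * (nn * nn) + 3948 * (nn * pz) + 3948 * (nn * qz) + (-9216) * (nn * cz) + (-3816) * (nn * aa) + 9204 * (pz * pz) + (-1728) * (pz * qz) + 8928 * (pz * cz) + (-1548) * (pz * aa) + 9204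 * (qz * qz) + 8928 * (qz * cz) + (-1548) * (qz * aa) + 23040 * (cz * cz) + 6336 * (cz * aa) + 1152 * (aa * aa) =
      (2304) * ((1) * z0 + ((-1/4)) * pp + ((-1/4)) * qq + ((-17/16)) * pz + ((-17/16)) * qz + ((1/8)) * nn + (-2) * cz + ((-1/64)) * c) ^ 2 +
      (576) * ((1) * p + (1) * q + ((-1/2)) * pp + ((-1/2)) * qq + ((-43/32)) * pz + ((-43/32)) * qz + ((-21/16)) * nn + (-2) * cz + (1) * c) ^ 2 +
      ((12783/4)) * ((1) * nn + ((3371/8522)) * pz + ((3371/8522)) * qz + ((-2544/4261)) * aa + ((-7392/4261)) * cz + ((1014/4261)) * c) ^ 2 +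
      ((54720/4261)) * ((1) * aa + ((-3/2)) * pz + ((-3/2)) * qz + ((-2101/190)) * cz + ((9827/760)) * c) ^ 2 +
      ((31536/95)) * ((1) * cz + ((-983/876)) * c) ^ 2 +
      ((155775/1168)) * ((1) * c) ^ 2 +
      (576) * ((1) * p + (-1) * q + ((-1/2)) * pp + ((1/2)) * qq + ((-43/32)) * pz + ((43/32)) * qz) ^ 2 +
      (720) * ((1) * pp + (-1) * qq + ((-47/20)) * pz + ((47/20)) * qz) ^ 2 +
      ((1419/80)) * ((1) * pz + (-1) * qz) ^ 2 := by
    ring
  rw [h]
  positivity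

section asm
variable {V : Type*} [Fintype V] (a : V → V → Bool)

theorem sumW {α β : Type*} (W : List (ℤ × α × β)) (f : α → V → V → ℝ) (g : β → V → V → ℝ)
    (c : α → β → ℝ) (h : ∀ F G, ∑ x, ∑ y, f F x y * g G x y = c F G) :
    ∑ x, ∑ y, (W.map (fun e => (e.1 : ℝ) * (f e.2.1 x y * g e.2.2 x y))).sum =
      (W.map (fun e => (e.1 : ℝ) * c e.2.1 e.2.2)).sum := by
  induction W with
  | nil => simp
  | cons e W ih =>
    simp only [List.map_cons, List.sum_cons, Finset.sum_add_distrib, ih]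
    congr 1
    rw [← h, mul_sum]
    refine sum_congr rfl (fun x _ => ?_)
    rw [mul_sum]

theorem sumW4 {α β : Type*} (W : List (ℤ × α × β)) (f : α → V → V → V → V → ℝ)
    (g : β → V → V → V → V → ℝ) (c : α → β → ℝ)
    (h : ∀ F G, ∑ x, ∑ y, ∑ z, ∑ w, f F x y z w * g G x y z w = c F G) :
    ∑ x, ∑ y, ∑ z, ∑ w, (W.map (fun e => (e.1 : ℝ) * (f e.2.1 x y z w * g e.2.2 x y z w))).sum =
      (W.map (fun e => (e.1 : ℝ) * c e.2.1 e.2.2)).sum := by
  induction W with
  | nil => simp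
  | cons e W ih =>
    simp only [List.map_cons, List.sum_cons, Finset.sum_add_distrib, ih]
    congr 1
    rw [← h]
    simp_rw [mul_sum]

theorem sqE (D : ℝ) :
    0 ≤ D ^ 4 * (W00.map (fun e => (e.1 : ℝ) * cnt a (glue00 e.2.1 e.2.2))).sum +
      D ^ 3 * (W01.map (fun e => (e.1 : ℝ) * cnt a (glue01 e.2.1 e.2.2))).sum +
      D ^ 2 * (W02.map (fun e => (e.1 : ℝ) * cnt a (glue02 e.2.1 e.2.2))).sum +
      D ^ 2 * (W11.map (fun e => (e.1 : ℝ) * cnt a (glue11 e.2.1 e.2.2))).sum +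
      D * (W12.map (fun e => (e.1 : ℝ) * cnt a (glue12 e.2.1 e.2.2))).sum +
      (W22.map (fun e => (e.1 : ℝ) * cnt a (glue22 e.2.1 e.2.2))).sum := by
  rw [← sumW W00 (f0 a) (f0 a) _ (t00 a), ← sumW W01 (f0 a) (f1 a) _ (t01 a),
    ← sumW W02 (f0 a) (f2 a) _ (t02 a), ← sumW W11 (f1 a) (f1 a) _ (t11 a),
    ← sumW W12 (f1 a) (f2 a) _ (t12 a), ← sumW W22 (f2 a) (f2 a) _ (t22 a)]
  simp_rw [mul_sum]
  simp_rw [← Finset.sum_add_distrib]
  refine sum_nonneg (fun x _ => sum_nonneg (fun y _ => ?_))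
  have h := psd (D ^ 2 * f0 a P_z0 x y) (D * f1 a P_p x y) (D * f1 a P_q x y) (D * f1 a P_c x y)
    (f2 a P_pp x y) (f2 a P_qq x y) (f2 a P_nn x y) (f2 a P_pz x y) (f2 a P_qz x y)
    (f2 a P_cz x y) (f2 a P_aa x y)
  refine le_of_le_of_eq h ?_
  simp only [W00, W01, W02, W11, W12, W22, List.map_cons, List.map_nil, List.sum_cons,
    List.sum_nil]
  push_cast
  ring

theorem sqS : 0 ≤ (WS.map (fun e => (e.1 : ℝ) * cnt a (glueS e.2.1 e.2.2))).sum := by
  rw [← sumW4 WS (g1 a) (g1 a) _ (tS a)]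
  refine sum_nonneg (fun x _ => sum_nonneg (fun y _ => sum_nonneg (fun z _ =>
    sum_nonneg (fun w _ => ?_))))
  have h : 0 ≤ 2048 * (g1 a P_s2 x y z w + g1 a P_s3 x y z w + g1 a P_s4 x y z w -
    g1 a P_s23 x y z w - g1 a P_s24 x y z w - g1 a P_s34 x y z w) ^ 2 +
    9216 * (g1 a P_ca x y z w - g1 a P_cb x y z w) ^ 2 := by positivity
  refine le_of_le_of_eq h ?_
  simp only [WS, List.map_cons, List.map_nil, List.sum_cons, List.sum_nil]
  push_cast
  ring

theorem degD {k : ℕ} (D : ℝ) (hD : ∀ v, ∑ w, (if a v w = true then (1 : ℝ) else 0) ≤ D)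
    (L : List (ℤ × List (Con k) × Fin k)) (hL : ∀ d ∈ L, (0 : ℤ) ≤ d.1) :
    (L.map (fun d => (d.1 : ℝ) * cnt a (extd d.2.1 d.2.2))).sum ≤
      D * (L.map (fun d => (d.1 : ℝ) * cnt a d.2.1)).sum := by
  induction L with
  | nil => simp
  | cons d L ih =>
    simp only [List.map_cons, List.sum_cons]
    have h1 := ih (fun e he => hL e (List.mem_cons_of_mem _ he))
    have h2 := deg_row a D hD d.2.1 d.2.2
    have h3 : (0 : ℝ) ≤ (d.1 : ℝ) := by exact_mod_cast hL d List.mem_cons_self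
    nlinarith [mul_le_mul_of_nonneg_left h2 h3]

theorem pure_real (hs : ∀ u v, a u v = a v u)
    (h2 : ∀ u v x y, a u v = true → a x y = true →
      a u x = true ∨ a u y = true ∨ a v x = true ∨ a v y = true)
    (D : ℝ) (hD0 : 0 < D) (hD : ∀ v, ∑ w, (if a v w = true then (1 : ℝ) else 0) ≤ D) :
    2 * cnt a ([(0, 1, true), (2, 3, true)] : List (Con 4)) ≤
      4 * cnt a ([(0, 1, true), (1, 2, true), (2, 3, true)] : List (Con 4)) +
      D ^ 2 * cnt a ([(0, 1, true)] : List (Con 2)) := by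
  have k2 := nonneg_of_check a (by norm_num) hs h2 E2 C2 chk2
  have k3 := nonneg_of_check a (by norm_num) hs h2 E3 C3 chk3
  have k4 := nonneg_of_check a (by norm_num) hs h2 E4 C4 chk4
  have k5 := nonneg_of_check a (by norm_num) hs h2 E5 C5 chk5
  have k6 := nonneg_of_check a (by norm_num) hs h2 E6 C6 chk6
  have q1 := sqE a D
  have q2 := sqS a
  have d3 := degD a D hD D3 (by decide)
  have d4 := degD a D hD D4 (by decide)
  have d5 := degD a D hD D5 (by decide)
  have neg2 : ∀ {α : Type} (L : List (ℤ × α)) (f : α → ℝ),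
      (L.map (fun e => (((-e.1 : ℤ)) : ℝ) * f e.2)).sum = -(L.map (fun e => (e.1 : ℝ) * f e.2)).sum := by
    intro α L f
    induction L with
    | nil => simp
    | cons e L ih =>
      simp only [List.map_cons, List.sum_cons, ih]
      push_cast
      ring
  simp only [E2, E3, E4, E5, E6, List.map_cons, List.map_append, List.map_map, List.sum_cons,
    List.sum_append, List.map_nil, List.sum_nil, Function.comp_def] at k2 k3 k4 k5 k6
  have n00 := neg2 W00 (fun e => cnt a (glue00 e.1 e.2))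
  have n01 := neg2 W01 (fun e => cnt a (glue01 e.1 e.2))
  have n02 := neg2 W02 (fun e => cnt a (glue02 e.1 e.2))
  have n11 := neg2 W11 (fun e => cnt a (glue11 e.1 e.2))
  have n12 := neg2 W12 (fun e => cnt a (glue12 e.1 e.2))
  have n22 := neg2 W22 (fun e => cnt a (glue22 e.1 e.2))
  have nS := neg2 WS (fun e => cnt a (glueS e.1 e.2))
  have n3 := neg2 D3 (fun d => cnt a d.1)
  have n4 := neg2 D4 (fun d => cnt a d.1)
  have n5 := neg2 D5 (fun d => cnt a d.1)
  rw [n00] at k2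
  rw [n01, n3] at k3
  rw [n11, n02, n4] at k4
  rw [n12, n5] at k5
  rw [n22, nS] at k6
  push_cast at k2 k4
  have hp : 0 < D ^ 2 := by positivity
  have hfin : 0 ≤ D ^ 2 * (2304 * (D ^ 2 * cnt a ([(0, 1, true)] : List (Con 2)) -
      2 * cnt a ([(0, 1, true), (2, 3, true)] : List (Con 4)) +
      4 * cnt a ([(0, 1, true), (1, 2, true), (2, 3, true)] : List (Con 4)))) := by
    have e2 := mul_nonneg (by positivity : (0 : ℝ) ≤ D ^ 4) k2
    have e3 := mul_nonneg (by positivity : (0 : ℝ) ≤ D ^ 3) k3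
    have e4 := mul_nonneg (by positivity : (0 : ℝ) ≤ D ^ 2) k4
    have e5 := mul_nonneg hD0.le k5
    have r4 := mul_le_mul_of_nonneg_left d4 hD0.le
    have r3 := mul_le_mul_of_nonneg_left d3 hp.le
    nlinarith [e2, e3, e4, e5, k6, q1, q2, r3, r4, d5]
  have := nonneg_of_mul_nonneg_right hfin hp
  linarith

end asm

section graph
variable {V : Type*} [Fintype V]

theorem deg_sum (F : SimpleGraph V) [DecidableRel F.Adj] (v : V) :
    ∑ w, (if decide (F.Adj v w) = true then (1 : ℝ) else 0) = (F.degree v : ℝ) := by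
  simp only [decide_eq_true_eq]
  rw [Finset.sum_boole, ← SimpleGraph.card_neighborFinset_eq_degree]
  congr 2
  ext w
  simp

theorem cnt_edge (F : SimpleGraph V) [DecidableRel F.Adj] :
    cnt (fun u v => decide (F.Adj u v)) ([(0, 1, true)] : List (Con 2)) =
      ∑ u, (F.degree u : ℝ) := by
  rw [cnt2]
  refine sum_congr rfl (fun x _ => ?_)
  rw [← deg_sum]
  refine sum_congr rfl (fun y _ => ?_)
  simp [ind]

theorem cnt_two (F : SimpleGraph V) [DecidableRel F.Adj] :
    cnt (fun u v => decide (F.Adj u v)) ([(0, 1, true), (2, 3, true)] : List (Con 4)) =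
      (∑ u, (F.degree u : ℝ)) ^ 2 := by
  rw [cnt4, sq]
  simp_rw [← deg_sum]
  rw [sum_mul]
  refine sum_congr rfl (fun x _ => ?_)
  rw [sum_mul]
  refine sum_congr rfl (fun y _ => ?_)
  rw [mul_sum]
  refine sum_congr rfl (fun z _ => ?_)
  rw [mul_sum]
  refine sum_congr rfl (fun w _ => ?_)
  by_cases h1 : F.Adj x y <;> by_cases h2 : F.Adj z w <;> simp [ind, h1, h2]

theorem cnt_path (F : SimpleGraph V) [DecidableRel F.Adj] :
    cnt (fun u v => decide (F.Adj u v)) ([(0, 1, true), (1, 2, true), (2, 3, true)] : List (Con 4)) =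
      ∑ u, ∑ v ∈ F.neighborFinset u, (F.degree u : ℝ) * (F.degree v : ℝ) := by
  rw [cnt4, sum_comm]
  refine sum_congr rfl (fun y _ => ?_)
  have h : ∑ v ∈ F.neighborFinset y, (F.degree y : ℝ) * (F.degree v : ℝ) =
      ∑ v, (if decide (F.Adj y v) = true then (1 : ℝ) else 0) * ((F.degree y : ℝ) * (F.degree v : ℝ)) := by
    simp only [decide_eq_true_eq, ite_mul, one_mul, zero_mul]
    rw [← Finset.sum_filter]
    refine sum_congr ?_ (fun _ _ => rfl)
    ext v
    simp
  rw [h, sum_comm]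
  refine sum_congr rfl (fun z _ => ?_)
  rw [← deg_sum F y, ← deg_sum F z, sum_mul, mul_sum]
  refine sum_congr rfl (fun x _ => ?_)
  rw [mul_sum, mul_sum]
  refine sum_congr rfl (fun w _ => ?_)
  by_cases h1 : F.Adj x y <;> by_cases h2 : F.Adj y z <;> by_cases h3 : F.Adj z w <;>
    simp [ind, h1, h2, h3, F.adj_comm y x]

/-- the pure inequality for graphs -/
theorem pure_ineq (F : SimpleGraph V) [DecidableRel F.Adj]
    (h2 : ∀ a b c d, F.Adj a b → F.Adj c d → F.Adj a c ∨ F.Adj a d ∨ F.Adj b c ∨ F.Adj b d)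
    (D : ℕ) (hD : ∀ v, F.degree v ≤ D) :
    2 * (∑ u, F.degree u) ^ 2 ≤
      4 * (∑ u, ∑ v ∈ F.neighborFinset u, F.degree u * F.degree v) + D ^ 2 * ∑ u, F.degree u := by
  rcases Nat.eq_zero_or_pos D with h0 | h0
  · subst h0
    have : ∑ u, F.degree u = 0 := sum_eq_zero (fun u _ => Nat.le_zero.1 (hD u))
    rw [this]
    simp
  · have h := pure_real (fun u v => decide (F.Adj u v))
      (fun u v => by simp only [F.adj_comm u v])
      (fun u v x y h3 h4 => by
        simp only [decide_eq_true_eq] at h3 h4 ⊢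
        exact h2 u v x y h3 h4)
      (D : ℝ) (by exact_mod_cast h0)
      (fun v => by rw [deg_sum]; exact_mod_cast hD v)
    rw [cnt_edge, cnt_two, cnt_path] at h
    exact_mod_cast h

end graph

end Pure
end MP433
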