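import Mathlib

/-! Labelled pattern counts on at most six positions, and a kernel checker for linear inequalities
between them in graphs in which any two edges are joined. -/

namespace MP433
namespace Pure

open Finset

/-- a constraint: two positions and the required adjacency value -/
abbrev Con (k : ℕ) := Fin k × Fin k × Bool

section base
variable {V : Type*} (a : V → V → Bool)

/-- indicator that the tuple `t` satisfies all constraints of `L` -/
noncomputable def ind {k : ℕ} (L : List (Con k)) (t : Fin k → V) : ℝ :=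
  if ∀ e ∈ L, a (t e.1) (t e.2.1) = e.2.2 then 1 else 0

theorem ind_nonneg {k : ℕ} (L : List (Con k)) (t : Fin k → V) : 0 ≤ ind a L t := by
  unfold ind; split_ifs <;> norm_num

theorem ind_append {k : ℕ} (L M : List (Con k)) (t : Fin k → V) :
    ind a (L ++ M) t = ind a L t * ind a M t := by
  unfold ind
  simp only [List.mem_append]
  by_cases h1 : ∀ e ∈ L, a (t e.1) (t e.2.1) = e.2.2
  · by_cases h2 : ∀ e ∈ M, a (t e.1) (t e.2.1) = e.2.2
    · rw [if_pos h1, if_pos h2, if_pos]
      · norm_num
      · rintro e (he | he)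
        · exact h1 e he
        · exact h2 e he
    · rw [if_neg h2, if_neg]
      · simp
      · intro h; exact h2 (fun e he => h e (Or.inr he))
  · rw [if_neg h1, if_neg]
    · simp
    · intro h; exact h1 (fun e he => h e (Or.inl he))

/-- rename the positions -/
def ren {k l : ℕ} (f : Fin k → Fin l) (L : List (Con k)) : List (Con l) :=
  L.map (fun e => (f e.1, f e.2.1, e.2.2))

theorem ind_ren {k l : ℕ} (f : Fin k → Fin l) (L : List (Con k)) (t : Fin l → V) :
    ind a (ren f L) t = ind a L (t ∘ f) := by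
  unfold ind ren
  simp only [List.mem_map, forall_exists_index, and_imp, forall_apply_eq_imp_iff₂,
    Function.comp_apply]

theorem ind_split {k : ℕ} (i j : Fin k) (L : List (Con k)) (t : Fin k → V) :
    ind a L t = ind a ((i, j, true) :: L) t + ind a ((i, j, false) :: L) t := by
  unfold ind
  simp only [List.mem_cons, forall_eq_or_imp]
  by_cases h1 : ∀ e ∈ L, a (t e.1) (t e.2.1) = e.2.2
  · rw [if_pos h1]
    cases hb : a (t i) (t j)
    · rw [if_neg (by simp), if_pos (And.intro rfl h1)]; norm_num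
    · rw [if_pos (And.intro rfl h1), if_neg (by simp)]; norm_num
  · rw [if_neg h1, if_neg (fun h => h1 h.2), if_neg (fun h => h1 h.2)]; norm_num

end base

section counts
variable {V : Type*} [Fintype V] (a : V → V → Bool)

/-- number of tuples satisfying the constraints -/
noncomputable def cnt {k : ℕ} (L : List (Con k)) : ℝ := ∑ t : Fin k → V, ind a L t

theorem cnt_nonneg {k : ℕ} (L : List (Con k)) : 0 ≤ cnt a L :=
  Finset.sum_nonneg (fun t _ => ind_nonneg a L t)

theorem cnt_split {k : ℕ} (i j : Fin k) (L : List (Con k)) :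
    cnt a L = cnt a ((i, j, true) :: L) + cnt a ((i, j, false) :: L) := by
  unfold cnt
  rw [← Finset.sum_add_distrib]
  exact Finset.sum_congr rfl (fun t _ => ind_split a i j L t)

/-- all completions of `L` on the free pairs -/
def comp {k : ℕ} : List (Fin k × Fin k) → List (Con k) → List (List (Con k))
  | [], L => [L]
  | (p :: ps), L => comp ps ((p.1, p.2, true) :: L) ++ comp ps ((p.1, p.2, false) :: L)

theorem cnt_comp {k : ℕ} (ps : List (Fin k × Fin k)) (L : List (Con k)) (w : ℝ) :
    ((comp ps L).map (fun M => w * cnt a M)).sum = w * cnt a L := by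
  induction ps generalizing L with
  | nil => simp [comp]
  | cons p ps ih =>
    simp only [comp, List.map_append, List.sum_append]
    rw [ih, ih, cnt_split a p.1 p.2 L]
    ring

/-- index of the pair `p < q` -/
def idx (p q : ℕ) : ℕ := q * (q - 1) / 2 + p

/-- adjacency of the positions `p ≠ q` in the graph with code `H` -/
def bit (H p q : ℕ) : Bool := if p < q then H.testBit (idx p q) else H.testBit (idx q p)

/-- number of tuples of length `k` realising exactly the graph with code `H` -/
noncomputable def full (k H : ℕ) : ℝ :=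
  ∑ t : Fin k → V, if ∀ p q : Fin k, p < q → a (t p) (t q) = H.testBit (idx p q) then (1 : ℝ) else 0

theorem full_nonneg (k H : ℕ) : 0 ≤ full a k H :=
  Finset.sum_nonneg (fun t _ => by split_ifs <;> norm_num)

/-- renaming given by a list -/
def prm (k : ℕ) [NeZero k] (s : List ℕ) (i : Fin k) : Fin k := Fin.ofNat k (s.getD i.val 0)

/-- check that after the renaming `s` the constraints are exactly the graph with code `H` -/
def canonOK {k : ℕ} [NeZero k] (L : List (Con k)) (H : ℕ) (s : List ℕ) : Bool :=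
  L.all (fun e => bit H (prm k s e.1).val (prm k s e.2.1).val == e.2.2 &&
    !((prm k s e.1).val == (prm k s e.2.1).val)) &&
  (List.finRange k).all (fun p => (List.finRange k).all (fun q => !(decide (p.val < q.val)) ||
    L.any (fun e => ((prm k s e.1).val == p.val && (prm k s e.2.1).val == q.val) ||
      ((prm k s e.1).val == q.val && (prm k s e.2.1).val == p.val))))

theorem cnt_canon {k : ℕ} [NeZero k] (hk : 2 ≤ k) (hs : ∀ u v, a u v = a v u) (L : List (Con k)) (H : ℕ)
    (s : List ℕ) (h : canonOK L H s = true) : cnt a L = full a k H := by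
  unfold canonOK at h
  simp only [Bool.and_eq_true, List.all_eq_true, beq_iff_eq, Bool.not_eq_true', beq_eq_false_iff_ne,
    List.mem_finRange, Bool.or_eq_true, decide_eq_false_iff_not, List.any_eq_true,
    forall_const] at h
  obtain ⟨h1, h2⟩ := h
  have hsurj : Function.Surjective (prm k s) := by
    intro p
    obtain ⟨q, hq⟩ : ∃ q : Fin k, q ≠ p := by
      have : Nontrivial (Fin k) := Fin.nontrivial_iff_two_le.2 hk
      exact exists_ne p
    rcases lt_or_gt_of_ne hq with hlt | hlt
    · rcases h2 q p with h3 | ⟨e, _, h3 | h3⟩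
      · exact absurd (Fin.lt_def.1 hlt) h3
      · exact ⟨e.2.1, Fin.ext h3.2⟩
      · exact ⟨e.1, Fin.ext h3.1⟩
    · rcases h2 p q with h3 | ⟨e, _, h3 | h3⟩
      · exact absurd (Fin.lt_def.1 hlt) h3
      · exact ⟨e.1, Fin.ext h3.1⟩
      · exact ⟨e.2.1, Fin.ext h3.2⟩
  have hbij : Function.Bijective (prm k s) := (Finite.injective_iff_bijective.1
    (Finite.injective_iff_surjective.2 hsurj))
  unfold cnt full
  have hb : Function.Bijective (fun t : Fin k → V => t ∘ prm k s) := by
    refine ⟨hsurj.injective_comp_right, fun t => ⟨t ∘ (Equiv.ofBijective _ hbij).symm, ?_⟩⟩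
    funext i
    simp only [Function.comp_apply]
    exact congrArg t ((Equiv.ofBijective _ hbij).symm_apply_apply i)
  symm
  refine Fintype.sum_bijective _ hb _ _ (fun t => ?_)
  unfold ind
  have : (∀ p q : Fin k, p < q → a (t p) (t q) = H.testBit (idx p q)) ↔
      (∀ e ∈ L, a ((t ∘ prm k s) e.1) ((t ∘ prm k s) e.2.1) = e.2.2) := by
    constructor
    · intro h e he
      obtain ⟨h3, h4⟩ := h1 e he
      rcases Nat.lt_or_gt_of_ne h4 with hlt | hlt
      · have := h (prm k s e.1) (prm k s e.2.1) (Fin.lt_def.2 hlt)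
        simp only [Function.comp_apply]
        rw [this, ← h3]
        unfold bit
        rw [if_pos hlt]
      · have := h (prm k s e.2.1) (prm k s e.1) (Fin.lt_def.2 hlt)
        simp only [Function.comp_apply]
        rw [hs, this, ← h3]
        unfold bit
        rw [if_neg (by omega)]
    · intro h p q hpq
      rcases h2 p q with h3 | ⟨e, he, h3 | h3⟩
      · exact absurd (Fin.lt_def.1 hpq) h3
      · obtain ⟨h4, _⟩ := h1 e he
        have h5 := h e he
        have e1 : prm k s e.1 = p := Fin.ext h3.1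
        have e2 : prm k s e.2.1 = q := Fin.ext h3.2
        simp only [Function.comp_apply, e1, e2] at h5 h4
        rw [h5, ← h4]
        unfold bit
        rw [if_pos (Fin.lt_def.1 hpq)]
      · obtain ⟨h4, _⟩ := h1 e he
        have h5 := h e he
        have e1 : prm k s e.1 = q := Fin.ext h3.1
        have e2 : prm k s e.2.1 = p := Fin.ext h3.2
        simp only [Function.comp_apply, e1, e2] at h5 h4
        rw [hs, h5, ← h4]
        unfold bit
        rw [if_neg (by have := Fin.lt_def.1 hpq; omega)]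
  by_cases hc : ∀ p q : Fin k, p < q → a (t p) (t q) = H.testBit (idx p q)
  · rw [if_pos hc, if_pos (this.1 hc)]
  · rw [if_neg hc, if_neg (fun h => hc (this.2 h))]

/-- the constraint is present -/
def has {k : ℕ} (L : List (Con k)) (p q : ℕ) (b : Bool) : Bool :=
  L.any (fun e => e.2.2 == b && ((e.1.val == p && e.2.1.val == q) || (e.1.val == q && e.2.1.val == p)))

/-- two edges which are not joined -/
def dropOK {k : ℕ} (L : List (Con k)) (p q r s : ℕ) : Bool :=
  has L p q true && has L r s true && has L p r false && has L p s false && has L q r false &&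
    has L q s false

omit [Fintype V] in
theorem has_spec {k : ℕ} (hs : ∀ u v, a u v = a v u) (L : List (Con k)) (p q : ℕ) (b : Bool)
    (h : has L p q b = true) (t : Fin k → V) (ht : ∀ e ∈ L, a (t e.1) (t e.2.1) = e.2.2) :
    ∃ (hp : p < k) (hq : q < k), a (t ⟨p, hp⟩) (t ⟨q, hq⟩) = b := by
  unfold has at h
  simp only [List.any_eq_true, Bool.and_eq_true, beq_iff_eq, Bool.or_eq_true] at h
  obtain ⟨e, he, hb, h3 | h3⟩ := h
  · refine ⟨h3.1 ▸ e.1.2, h3.2 ▸ e.2.1.2, ?_⟩
    have h5 := ht e he
    have e1 : e.1 = ⟨p, h3.1 ▸ e.1.2⟩ := Fin.ext h3.1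
    have e2 : e.2.1 = ⟨q, h3.2 ▸ e.2.1.2⟩ := Fin.ext h3.2
    rw [← e1, ← e2, h5, hb]
  · refine ⟨h3.2 ▸ e.2.1.2, h3.1 ▸ e.1.2, ?_⟩
    have h5 := ht e he
    have e1 : e.1 = ⟨q, h3.1 ▸ e.1.2⟩ := Fin.ext h3.1
    have e2 : e.2.1 = ⟨p, h3.2 ▸ e.2.1.2⟩ := Fin.ext h3.2
    rw [← e1, ← e2, hs, h5, hb]

theorem cnt_drop {k : ℕ} (hs : ∀ u v, a u v = a v u)
    (h2 : ∀ u v x y, a u v = true → a x y = true →
      a u x = true ∨ a u y = true ∨ a v x = true ∨ a v y = true)
    (L : List (Con k)) (p q r s : ℕ) (h : dropOK L p q r s = true) : cnt a L = 0 := by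
  unfold cnt
  refine Finset.sum_eq_zero (fun t _ => ?_)
  unfold ind
  rw [if_neg]
  intro ht
  unfold dropOK at h
  simp only [Bool.and_eq_true] at h
  obtain ⟨⟨⟨⟨⟨h1, h3⟩, h4⟩, h5⟩, h6⟩, h7⟩ := h
  obtain ⟨hp, hq, e1⟩ := has_spec a hs L p q _ h1 t ht
  obtain ⟨hr, hs', e2⟩ := has_spec a hs L r s _ h3 t ht
  obtain ⟨_, _, e3⟩ := has_spec a hs L p r _ h4 t ht
  obtain ⟨_, _, e4⟩ := has_spec a hs L p s _ h5 t ht
  obtain ⟨_, _, e5⟩ := has_spec a hs L q r _ h6 t ht
  obtain ⟨_, _, e6⟩ := has_spec a hs L q s _ h7 t ht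
  rcases h2 _ _ _ _ e1 e2 with h | h | h | h
  · rw [h] at e3; exact absurd e3 (by decide)
  · rw [h] at e4; exact absurd e4 (by decide)
  · rw [h] at e5; exact absurd e5 (by decide)
  · rw [h] at e6; exact absurd e6 (by decide)

/-- add a weight to an accumulator -/
def addTo (H : ℕ) (w : ℤ) : List (ℕ × ℤ) → List (ℕ × ℤ)
  | [] => [(H, w)]
  | (c :: l) => if H = c.1 then (c.1, c.2 + w) :: l else c :: addTo H w l

/-- value of an accumulator -/
noncomputable def ev (k : ℕ) (l : List (ℕ × ℤ)) : ℝ := (l.map (fun c => (c.2 : ℝ) * full a k c.1)).sum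

theorem ev_addTo (k H : ℕ) (w : ℤ) (l : List (ℕ × ℤ)) :
    ev a k (addTo H w l) = ev a k l + (w : ℝ) * full a k H := by
  induction l with
  | nil => simp [addTo, ev]
  | cons c l ih =>
    unfold addTo
    split_ifs with h
    · simp only [ev, List.map_cons, List.sum_cons]
      rw [h]
      push_cast
      ring
    · simp only [ev, List.map_cons, List.sum_cons] at ih ⊢
      rw [ih]
      ring

/-- reduce a weighted list of complete patterns to an accumulator, following the certificates;
a certificate with code 0 discards the pattern -/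
def run {k : ℕ} [NeZero k] : List (ℤ × List (Con k)) → List (ℕ × List ℕ) → List (ℕ × ℤ) →
    Option (List (ℕ × ℤ))
  | [], _, acc => some acc
  | (_ :: _), [], _ => none
  | (e :: E), (c :: C), acc =>
    if c.1 = 0 then
      (if dropOK e.2 (c.2.getD 0 0) (c.2.getD 1 0) (c.2.getD 2 0) (c.2.getD 3 0) = true
        then run E C acc else none)
    else (if canonOK e.2 c.1 c.2 = true then run E C (addTo c.1 e.1 acc) else none)

theorem run_spec {k : ℕ} [NeZero k] (hk : 2 ≤ k) (hs : ∀ u v, a u v = a v u)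
    (h2 : ∀ u v x y, a u v = true → a x y = true →
      a u x = true ∨ a u y = true ∨ a v x = true ∨ a v y = true)
    (E : List (ℤ × List (Con k))) (C : List (ℕ × List ℕ)) (acc acc' : List (ℕ × ℤ))
    (h : run E C acc = some acc') :
    (E.map (fun e => (e.1 : ℝ) * cnt a e.2)).sum + ev a k acc = ev a k acc' := by
  induction E generalizing C acc with
  | nil =>
    simp only [run, Option.some.injEq] at h
    subst h
    simp
  | cons e E ih =>
    cases C with
    | nil => simp [run] at h
    | cons c C =>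
      simp only [run] at h
      split_ifs at h with h0 h1 h3
      · have := ih C acc h
        simp only [List.map_cons, List.sum_cons]
        rw [cnt_drop a hs h2 e.2 _ _ _ _ h1, mul_zero, zero_add]
        exact this
      · have := ih C _ h
        simp only [List.map_cons, List.sum_cons]
        rw [cnt_canon a hk hs e.2 _ _ h3, ← this, ev_addTo]
        ring

/-- expand the free pairs of every entry -/
def expd {k : ℕ} (E : List (ℤ × List (Con k) × List (Fin k × Fin k))) : List (ℤ × List (Con k)) :=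
  E.flatMap (fun e => (comp e.2.2 e.2.1).map (fun M => (e.1, M)))

theorem sum_expd {k : ℕ} (E : List (ℤ × List (Con k) × List (Fin k × Fin k))) :
    ((expd E).map (fun e => (e.1 : ℝ) * cnt a e.2)).sum =
      (E.map (fun e => (e.1 : ℝ) * cnt a e.2.1)).sum := by
  unfold expd
  induction E with
  | nil => simp
  | cons e E ih =>
    rw [List.flatMap_cons, List.map_append, List.sum_append, ih, List.map_cons, List.sum_cons,
      List.map_map]
    congr 1
    exact cnt_comp a e.2.2 e.2.1 (e.1 : ℝ)

/-- the check -/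
def check {k : ℕ} [NeZero k] (E : List (ℤ × List (Con k) × List (Fin k × Fin k)))
    (C : List (ℕ × List ℕ)) : Bool :=
  match run (expd E) C [] with
  | some acc => acc.all (fun c => decide (0 ≤ c.2))
  | none => false

theorem nonneg_of_check {k : ℕ} [NeZero k] (hk : 2 ≤ k) (hs : ∀ u v, a u v = a v u)
    (h2 : ∀ u v x y, a u v = true → a x y = true →
      a u x = true ∨ a u y = true ∨ a v x = true ∨ a v y = true)
    (E : List (ℤ × List (Con k) × List (Fin k × Fin k))) (C : List (ℕ × List ℕ))
    (h : check E C = true) : 0 ≤ (E.map (fun e => (e.1 : ℝ) * cnt a e.2.1)).sum := by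
  unfold check at h
  split at h
  · rename_i acc hacc
    have := run_spec a hk hs h2 _ _ _ _ hacc
    rw [sum_expd] at this
    have h0 : ev a k [] = 0 := by simp [ev]
    rw [h0, add_zero] at this
    rw [this]
    unfold ev
    refine List.sum_nonneg ?_
    intro x hx
    rw [List.mem_map] at hx
    obtain ⟨c, hc, rfl⟩ := hx
    rw [List.all_eq_true] at h
    have := of_decide_eq_true (h c hc)
    exact mul_nonneg (by exact_mod_cast this) (full_nonneg a k c.1)
  · exact absurd h (by decide)

/-! ### nested sums -/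

theorem sum_fin_succ {k : ℕ} (f : (Fin (k + 1) → V) → ℝ) :
    ∑ t : Fin (k + 1) → V, f t = ∑ v : V, ∑ t : Fin k → V, f (Matrix.vecCons v t) := by
  rw [← Fintype.sum_prod_type']
  refine (Fintype.sum_equiv (Fin.consEquiv (fun _ => V)) _ _ (fun p => ?_)).symm
  rfl

theorem sum_fin_zero (f : (Fin 0 → V) → ℝ) : ∑ t : Fin 0 → V, f t = f ![] := by
  rw [Fintype.sum_unique]
  congr 1

theorem cnt2 (L : List (Con 2)) : cnt a L = ∑ x, ∑ y, ind a L ![x, y] := by
  unfold cnt; simp only [sum_fin_succ, sum_fin_zero]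
theorem cnt3 (L : List (Con 3)) : cnt a L = ∑ x, ∑ y, ∑ u, ind a L ![x, y, u] := by
  unfold cnt; simp only [sum_fin_succ, sum_fin_zero]
theorem cnt4 (L : List (Con 4)) : cnt a L = ∑ x, ∑ y, ∑ u, ∑ v, ind a L ![x, y, u, v] := by
  unfold cnt; simp only [sum_fin_succ, sum_fin_zero]
theorem cnt5 (L : List (Con 5)) : cnt a L = ∑ x, ∑ y, ∑ u, ∑ v, ∑ w, ind a L ![x, y, u, v, w] := by
  unfold cnt; simp only [sum_fin_succ, sum_fin_zero]
theorem cnt6 (L : List (Con 6)) :
    cnt a L = ∑ x, ∑ y, ∑ u, ∑ v, ∑ w, ∑ z, ind a L ![x, y, u, v, w, z] := by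
  unfold cnt; simp only [sum_fin_succ, sum_fin_zero]

/-! ### flags over an edge type -/

noncomputable def f0 (F : List (Con 2)) (x y : V) : ℝ := ind a F ![x, y]
noncomputable def f1 (F : List (Con 3)) (x y : V) : ℝ := ∑ u, ind a F ![x, y, u]
noncomputable def f2 (F : List (Con 4)) (x y : V) : ℝ := ∑ u, ∑ v, ind a F ![x, y, u, v]
noncomputable def g1 (F : List (Con 5)) (x y z w : V) : ℝ := ∑ u, ind a F ![x, y, z, w, u]

def glue00 (F G : List (Con 2)) : List (Con 2) := ren ![0, 1] F ++ ren ![0, 1] G
def glue01 (F : List (Con 2)) (G : List (Con 3)) : List (Con 3) := ren ![0, 1] F ++ ren ![0, 1, 2] G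
def glue02 (F : List (Con 2)) (G : List (Con 4)) : List (Con 4) :=
  ren ![0, 1] F ++ ren ![0, 1, 2, 3] G
def glue11 (F G : List (Con 3)) : List (Con 4) := ren ![0, 1, 2] F ++ ren ![0, 1, 3] G
def glue12 (F : List (Con 3)) (G : List (Con 4)) : List (Con 5) :=
  ren ![0, 1, 2] F ++ ren ![0, 1, 3, 4] G
def glue22 (F G : List (Con 4)) : List (Con 6) := ren ![0, 1, 2, 3] F ++ ren ![0, 1, 4, 5] G
def glueS (F G : List (Con 5)) : List (Con 6) := ren ![0, 1, 2, 3, 4] F ++ ren ![0, 1, 2, 3, 5] G

theorem t00 (F G : List (Con 2)) : ∑ x, ∑ y, f0 a F x y * f0 a G x y = cnt a (glue00 F G) := by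
  rw [cnt2]
  refine sum_congr rfl (fun x _ => sum_congr rfl (fun y _ => ?_))
  rw [glue00, ind_append, ind_ren, ind_ren]
  unfold f0
  congr 2 <;> (ext i; fin_cases i <;> rfl)

theorem t01 (F : List (Con 2)) (G : List (Con 3)) :
    ∑ x, ∑ y, f0 a F x y * f1 a G x y = cnt a (glue01 F G) := by
  rw [cnt3]
  refine sum_congr rfl (fun x _ => sum_congr rfl (fun y _ => ?_))
  unfold f0 f1
  rw [mul_sum]
  refine sum_congr rfl (fun u _ => ?_)
  rw [glue01, ind_append, ind_ren, ind_ren]
  congr 2 <;> (ext i; fin_cases i <;> rfl)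

theorem t02 (F : List (Con 2)) (G : List (Con 4)) :
    ∑ x, ∑ y, f0 a F x y * f2 a G x y = cnt a (glue02 F G) := by
  rw [cnt4]
  refine sum_congr rfl (fun x _ => sum_congr rfl (fun y _ => ?_))
  unfold f0 f2
  simp_rw [mul_sum]
  refine sum_congr rfl (fun u _ => sum_congr rfl (fun v _ => ?_))
  rw [glue02, ind_append, ind_ren, ind_ren]
  congr 2 <;> (ext i; fin_cases i <;> rfl)

theorem t11 (F G : List (Con 3)) :
    ∑ x, ∑ y, f1 a F x y * f1 a G x y = cnt a (glue11 F G) := by
  rw [cnt4]
  refine sum_congr rfl (fun x _ => sum_congr rfl (fun y _ => ?_))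
  unfold f1
  simp_rw [sum_mul, mul_sum]
  refine sum_congr rfl (fun u _ => sum_congr rfl (fun v _ => ?_))
  rw [glue11, ind_append, ind_ren, ind_ren]
  congr 2 <;> (ext i; fin_cases i <;> rfl)

theorem t12 (F : List (Con 3)) (G : List (Con 4)) :
    ∑ x, ∑ y, f1 a F x y * f2 a G x y = cnt a (glue12 F G) := by
  rw [cnt5]
  refine sum_congr rfl (fun x _ => sum_congr rfl (fun y _ => ?_))
  unfold f1 f2
  simp_rw [sum_mul, mul_sum]
  refine sum_congr rfl (fun u _ => sum_congr rfl (fun v _ => sum_congr rfl (fun w _ => ?_)))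
  rw [glue12, ind_append, ind_ren, ind_ren]
  congr 2 <;> (ext i; fin_cases i <;> rfl)

theorem t22 (F G : List (Con 4)) :
    ∑ x, ∑ y, f2 a F x y * f2 a G x y = cnt a (glue22 F G) := by
  rw [cnt6]
  refine sum_congr rfl (fun x _ => sum_congr rfl (fun y _ => ?_))
  unfold f2
  simp_rw [sum_mul, mul_sum]
  refine sum_congr rfl (fun u _ => sum_congr rfl (fun v _ => sum_congr rfl (fun w _ =>
    sum_congr rfl (fun z _ => ?_))))
  rw [glue22, ind_append, ind_ren, ind_ren]
  congr 2 <;> (ext i; fin_cases i <;> rfl)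

theorem tS (F G : List (Con 5)) :
    ∑ x, ∑ y, ∑ z, ∑ w, g1 a F x y z w * g1 a G x y z w = cnt a (glueS F G) := by
  rw [cnt6]
  refine sum_congr rfl (fun x _ => sum_congr rfl (fun y _ => sum_congr rfl (fun z _ =>
    sum_congr rfl (fun w _ => ?_))))
  unfold g1
  simp_rw [sum_mul, mul_sum]
  refine sum_congr rfl (fun u _ => sum_congr rfl (fun v _ => ?_))
  rw [glueS, ind_append, ind_ren, ind_ren]
  congr 2 <;> (ext i; fin_cases i <;> rfl)

/-! ### degree rows -/

/-- the pattern with one more vertex adjacent to position `i` -/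
def extd {k : ℕ} (L : List (Con k)) (i : Fin k) : List (Con (k + 1)) :=
  ren Fin.castSucc L ++ [(i.castSucc, Fin.last k, true)]

theorem deg_row {k : ℕ} (D : ℝ) (hD : ∀ v, ∑ w, (if a v w = true then (1 : ℝ) else 0) ≤ D)
    (L : List (Con k)) (i : Fin k) : cnt a (extd L i) ≤ D * cnt a L := by
  unfold cnt
  rw [← (Fin.snocEquiv (fun _ : Fin (k + 1) => V)).sum_comp, Fintype.sum_prod_type, sum_comm, mul_sum]
  refine sum_le_sum (fun t _ => ?_)
  have h1 : ∀ v : V, ind a (extd L i) ((Fin.snocEquiv (fun _ : Fin (k + 1) => V)) (v, t)) =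
      ind a L t * (if a (t i) v = true then (1 : ℝ) else 0) := by
    intro v
    rw [extd, ind_append, ind_ren]
    congr 1
    · congr 1
      ext j
      simp [Fin.snocEquiv]
    · unfold ind
      simp [Fin.snocEquiv]
  simp_rw [h1]
  rw [← mul_sum, mul_comm]
  exact mul_le_mul_of_nonneg_right (hD _) (ind_nonneg a L t)

end counts

end Pure
end MP433
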