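import Pool.Agent.Work.MP_433a35_co.PureBase

/-! Data of the order six certificate (generated) and its kernel checks. -/

set_option linter.style.longLine false

namespace MP433
namespace Pure

def P_z0 : List (Con 2) := [(0, 1, true)]
def P_p : List (Con 3) := [(0, 1, true), (0, 2, true), (1, 2, false)]
def P_q : List (Con 3) := [(0, 1, true), (0, 2, false), (1, 2, true)]
def P_c : List (Con 3) := [(0, 1, true), (0, 2, true), (1, 2, true)]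
def P_pp : List (Con 4) := [(0, 1, true), (0, 2, true), (1, 2, false), (0, 3, true), (1, 3, false), (2, 3, false)]
def P_qq : List (Con 4) := [(0, 1, true), (0, 2, false), (1, 2, true), (0, 3, false), (1, 3, true), (2, 3, false)]
def P_nn : List (Con 4) := [(0, 1, true), (0, 2, false), (1, 2, true), (0, 3, true), (1, 3, false), (2, 3, false)]
def P_pz : List (Con 4) := [(0, 1, true), (0, 2, true), (1, 2, false), (0, 3, false), (1, 3, false), (2, 3, true)]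
def P_qz : List (Con 4) := [(0, 1, true), (0, 2, false), (1, 2, true), (0, 3, false), (1, 3, false), (2, 3, true)]
def P_cz : List (Con 4) := [(0, 1, true), (0, 2, true), (1, 2, true), (0, 3, false), (1, 3, false), (2, 3, true)]
def P_aa : List (Con 4) := [(0, 1, true), (0, 2, false), (1, 2, true), (0, 3, true), (1, 3, false), (2, 3, true)]
def P_s2 : List (Con 5) := [(0, 1, true), (0, 2, true), (1, 2, false), (0, 3, true), (1, 3, false), (2, 3, false), (0, 4, false), (1, 4, true), (2, 4, false), (3, 4, false)]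
def P_s3 : List (Con 5) := [(0, 1, true), (0, 2, true), (1, 2, false), (0, 3, true), (1, 3, false), (2, 3, false), (0, 4, false), (1, 4, false), (2, 4, true), (3, 4, false)]
def P_s4 : List (Con 5) := [(0, 1, true), (0, 2, true), (1, 2, false), (0, 3, true), (1, 3, false), (2, 3, false), (0, 4, false), (1, 4, false), (2, 4, false), (3, 4, true)]
def P_s23 : List (Con 5) := [(0, 1, true), (0, 2, true), (1, 2, false), (0, 3, true), (1, 3, false), (2, 3, false), (0, 4, false), (1, 4, true), (2, 4, true), (3, 4, false)]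
def P_s24 : List (Con 5) := [(0, 1, true), (0, 2, true), (1, 2, false), (0, 3, true), (1, 3, false), (2, 3, false), (0, 4, false), (1, 4, true), (2, 4, false), (3, 4, true)]
def P_s34 : List (Con 5) := [(0, 1, true), (0, 2, true), (1, 2, false), (0, 3, true), (1, 3, false), (2, 3, false), (0, 4, false), (1, 4, false), (2, 4, true), (3, 4, true)]
def P_ca : List (Con 5) := [(0, 1, true), (0, 2, true), (1, 2, false), (0, 3, false), (1, 3, false), (2, 3, false), (0, 4, true), (1, 4, false), (2, 4, false), (3, 4, true)]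
def P_cb : List (Con 5) := [(0, 1, true), (0, 2, true), (1, 2, false), (0, 3, false), (1, 3, false), (2, 3, false), (0, 4, false), (1, 4, true), (2, 4, true), (3, 4, true)]

def W00 : List (ℤ × List (Con 2) × List (Con 2)) :=
  [(2304, P_z0, P_z0)]
def W01 : List (ℤ × List (Con 2) × List (Con 3)) :=
  [(-72, P_z0, P_c)]
def W02 : List (ℤ × List (Con 2) × List (Con 4)) :=
  [(-1152, P_z0, P_pp),
   (-1152, P_z0, P_qq),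
   (576, P_z0, P_nn),
   (-4896, P_z0, P_pz),
   (-4896, P_z0, P_qz),
   (-9216, P_z0, P_cz)]
def W11 : List (ℤ × List (Con 3) × List (Con 3)) :=
  [(1152, P_p, P_p),
   (1152, P_p, P_c),
   (1152, P_q, P_q),
   (1152, P_q, P_c),
   (3456, P_c, P_c)]
def W12 : List (ℤ × List (Con 3) × List (Con 4)) :=
  [(-1152, P_p, P_pp),
   (-1512, P_p, P_nn),
   (-3096, P_p, P_pz),
   (-2304, P_p, P_cz),
   (-1152, P_q, P_qq),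
   (-1512, P_q, P_nn),
   (-3096, P_q, P_qz),
   (-2304, P_q, P_cz),
   (-558, P_c, P_pp),
   (-558, P_c, P_qq),
   (-1368, P_c, P_pz),
   (-1368, P_c, P_qz),
   (-9216, P_c, P_cz),
   (-576, P_c, P_aa)]
def W22 : List (ℤ × List (Con 4) × List (Con 4)) :=
  [(1152, P_pp, P_pp),
   (-1152, P_pp, P_qq),
   (612, P_pp, P_nn),
   (-612, P_pp, P_pz),
   (4608, P_pp, P_qz),
   (3456, P_pp, P_cz),
   (1152, P_qq, P_qq),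
   (612, P_qq, P_nn),
   (4608, P_qq, P_pz),
   (-612, P_qq, P_qz),
   (3456, P_qq, P_cz),
   (4224, P_nn, P_nn),
   (3948, P_nn, P_pz),
   (3948, P_nn, P_qz),
   (-9216, P_nn, P_cz),
   (-3816, P_nn, P_aa),
   (9204, P_pz, P_pz),
   (-1728, P_pz, P_qz),
   (8928, P_pz, P_cz),
   (-1548, P_pz, P_aa),
   (9204, P_qz, P_qz),
   (8928, P_qz, P_cz),
   (-1548, P_qz, P_aa),
   (23040, P_cz, P_cz),
   (6336, P_cz, P_aa),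
   (1152, P_aa, P_aa)]
def WS : List (ℤ × List (Con 5) × List (Con 5)) :=
  [(2048, P_s2, P_s2),
   (4096, P_s2, P_s3),
   (4096, P_s2, P_s4),
   (-4096, P_s2, P_s23),
   (-4096, P_s2, P_s24),
   (-4096, P_s2, P_s34),
   (2048, P_s3, P_s3),
   (4096, P_s3, P_s4),
   (-4096, P_s3, P_s23),
   (-4096, P_s3, P_s24),
   (-4096, P_s3, P_s34),
   (2048, P_s4, P_s4),
   (-4096, P_s4, P_s23),
   (-4096, P_s4, P_s24),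
   (-4096, P_s4, P_s34),
   (2048, P_s23, P_s23),
   (4096, P_s23, P_s24),
   (4096, P_s23, P_s34),
   (2048, P_s24, P_s24),
   (4096, P_s24, P_s34),
   (2048, P_s34, P_s34),
   (9216, P_ca, P_ca),
   (-18432, P_ca, P_cb),
   (9216, P_cb, P_cb)]
def D3 : List (ℤ × List (Con 3) × Fin 3) :=
  [(72, [(0, 1, true), (0, 2, true), (1, 2, true)], 0)]
def D4 : List (ℤ × List (Con 4) × Fin 4) :=
  [(4680, [(0, 1, true), (0, 2, true), (1, 2, true), (0, 3, true), (1, 3, false), (2, 3, false)], 1),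
   (1332, [(0, 1, true), (0, 2, true), (1, 2, true), (0, 3, true), (1, 3, true), (2, 3, false)], 0),
   (2268, [(0, 1, true), (0, 2, true), (1, 2, true), (0, 3, true), (1, 3, true), (2, 3, false)], 2)]
def D5 : List (ℤ × List (Con 5) × Fin 5) :=
  [(2304, [(0, 1, true), (0, 2, true), (1, 2, false), (0, 3, true), (1, 3, false), (2, 3, false), (0, 4, true), (1, 4, false), (2, 4, false), (3, 4, false)], 0),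
   (9216, [(0, 1, true), (0, 2, false), (1, 2, true), (0, 3, true), (1, 3, false), (2, 3, false), (0, 4, true), (1, 4, false), (2, 4, false), (3, 4, false)], 1),
   (9216, [(0, 1, false), (0, 2, true), (1, 2, true), (0, 3, true), (1, 3, true), (2, 3, false), (0, 4, true), (1, 4, false), (2, 4, false), (3, 4, false)], 0),
   (5724, [(0, 1, true), (0, 2, true), (1, 2, true), (0, 3, true), (1, 3, false), (2, 3, false), (0, 4, true), (1, 4, false), (2, 4, false), (3, 4, false)], 1),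
   (9240, [(0, 1, true), (0, 2, true), (1, 2, true), (0, 3, false), (1, 3, true), (2, 3, false), (0, 4, true), (1, 4, false), (2, 4, false), (3, 4, false)], 2),
   (6240, [(0, 1, true), (0, 2, true), (1, 2, true), (0, 3, false), (1, 3, true), (2, 3, false), (0, 4, true), (1, 4, false), (2, 4, false), (3, 4, false)], 3),
   (2556, [(0, 1, true), (0, 2, true), (1, 2, true), (0, 3, true), (1, 3, true), (2, 3, false), (0, 4, true), (1, 4, false), (2, 4, false), (3, 4, false)], 0),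
   (12600, [(0, 1, true), (0, 2, true), (1, 2, true), (0, 3, true), (1, 3, true), (2, 3, false), (0, 4, true), (1, 4, false), (2, 4, false), (3, 4, false)], 1),
   (6888, [(0, 1, true), (0, 2, true), (1, 2, true), (0, 3, false), (1, 3, true), (2, 3, true), (0, 4, true), (1, 4, false), (2, 4, false), (3, 4, false)], 1),
   (13800, [(0, 1, true), (0, 2, true), (1, 2, true), (0, 3, true), (1, 3, true), (2, 3, true), (0, 4, true), (1, 4, false), (2, 4, false), (3, 4, false)], 1),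
   (2304, [(0, 1, true), (0, 2, true), (1, 2, true), (0, 3, true), (1, 3, true), (2, 3, false), (0, 4, true), (1, 4, true), (2, 4, false), (3, 4, false)], 2),
   (15576, [(0, 1, true), (0, 2, false), (1, 2, true), (0, 3, true), (1, 3, false), (2, 3, true), (0, 4, true), (1, 4, true), (2, 4, false), (3, 4, false)], 4),
   (1296, [(0, 1, true), (0, 2, true), (1, 2, true), (0, 3, true), (1, 3, false), (2, 3, true), (0, 4, true), (1, 4, true), (2, 4, false), (3, 4, false)], 0),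
   (17316, [(0, 1, false), (0, 2, true), (1, 2, true), (0, 3, true), (1, 3, true), (2, 3, true), (0, 4, true), (1, 4, true), (2, 4, false), (3, 4, false)], 0),
   (15012, [(0, 1, true), (0, 2, true), (1, 2, true), (0, 3, true), (1, 3, true), (2, 3, true), (0, 4, true), (1, 4, true), (2, 4, false), (3, 4, false)], 0),
   (6084, [(0, 1, true), (0, 2, true), (1, 2, false), (0, 3, true), (1, 3, true), (2, 3, true), (0, 4, true), (1, 4, true), (2, 4, true), (3, 4, false)], 0)]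

def frk (k : ℕ) (i : Fin k) : List (Fin (k + 1) × Fin (k + 1)) :=
  ((List.finRange k).filter (fun j => !(j == i))).map (fun j => (j.castSucc, Fin.last k))

def E2 : List (ℤ × List (Con 2) × List (Fin 2 × Fin 2)) :=
  (2304, [(0, 1, true)], []) :: W00.map (fun e => (-e.1, glue00 e.2.1 e.2.2, []))
def E3 : List (ℤ × List (Con 3) × List (Fin 3 × Fin 3)) :=
  W01.map (fun e => (-e.1, glue01 e.2.1 e.2.2, [])) ++ D3.map (fun d => (-d.1, d.2.1, []))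
def E4 : List (ℤ × List (Con 4) × List (Fin 4 × Fin 4)) :=
  [(-4608, [(0, 1, true), (2, 3, true)], [(0, 2), (1, 2), (0, 3), (1, 3)]),
   (9216, [(0, 1, true), (1, 2, true), (2, 3, true)], [(0, 2), (0, 3), (1, 3)])] ++
  (W11.map (fun e => (-e.1, glue11 e.2.1 e.2.2, [(2, 3)])) ++
  (W02.map (fun e => (-e.1, glue02 e.2.1 e.2.2, [])) ++
  (D4.map (fun d => (-d.1, d.2.1, [])) ++
  D3.map (fun d => (d.1, extd d.2.1 d.2.2, frk 3 d.2.2)))))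
def E5 : List (ℤ × List (Con 5) × List (Fin 5 × Fin 5)) :=
  W12.map (fun e => (-e.1, glue12 e.2.1 e.2.2, [(2, 3), (2, 4)])) ++
  (D5.map (fun d => (-d.1, d.2.1, [])) ++
  D4.map (fun d => (d.1, extd d.2.1 d.2.2, frk 4 d.2.2)))
def E6 : List (ℤ × List (Con 6) × List (Fin 6 × Fin 6)) :=
  W22.map (fun e => (-e.1, glue22 e.2.1 e.2.2, [(2, 4), (3, 4), (2, 5), (3, 5)])) ++
  (WS.map (fun e => (-e.1, glueS e.2.1 e.2.2, [(4, 5)])) ++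
  D5.map (fun d => (d.1, extd d.2.1 d.2.2, frk 5 d.2.2)))

def C2 : List (ℕ × List ℕ) :=
  [(1, [0, 1]), (1, [0, 1])]
def C3 : List (ℕ × List ℕ) :=
  [(7, [0, 1, 2]), (7, [0, 1, 2])]
def C4 : List (ℕ × List ℕ) :=
  [(63, [0, 1, 2, 3]), (31, [0, 2, 1, 3]), (31, [2, 0, 1, 3]), (15, [1, 2, 0, 3]),
   (31, [0, 2, 3, 1]), (15, [0, 3, 1, 2]), (30, [0, 2, 3, 1]), (13, [0, 3, 1, 2]),
   (31, [2, 0, 3, 1]), (30, [0, 2, 1, 3]), (15, [3, 0, 1, 2]), (13, [2, 1, 0, 3]),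
   (15, [1, 2, 3, 0]), (13, [0, 3, 2, 1]), (13, [2, 1, 3, 0]), (0, [0, 1, 2, 3]),
   (63, [0, 1, 2, 3]), (31, [0, 2, 1, 3]), (31, [2, 0, 1, 3]), (15, [1, 2, 0, 3]),
   (31, [2, 0, 3, 1]), (30, [0, 2, 1, 3]), (15, [3, 0, 1, 2]), (13, [2, 1, 0, 3]),
   (15, [0, 3, 1, 2]), (11, [0, 1, 2, 3]), (31, [0, 2, 3, 1]), (15, [0, 1, 3, 2]),
   (15, [3, 0, 1, 2]), (11, [1, 0, 2, 3]), (31, [2, 0, 3, 1]), (15, [1, 0, 3, 2]),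
   (63, [0, 1, 2, 3]), (31, [0, 1, 2, 3]), (11, [0, 1, 2, 3]), (11, [1, 0, 2, 3]),
   (13, [0, 1, 2, 3]), (13, [0, 3, 1, 2]), (13, [2, 1, 0, 3]), (15, [1, 2, 0, 3]),
   (15, [0, 1, 2, 3]), (31, [0, 1, 2, 3]), (31, [0, 1, 2, 3]), (63, [0, 1, 2, 3]),
   (31, [0, 1, 2, 3]), (31, [0, 2, 1, 3]), (15, [0, 1, 2, 3])]
def C5 : List (ℕ × List ℕ) :=
  [(95, [0, 4, 1, 2, 3]), (79, [0, 3, 1, 2, 4]), (79, [0, 3, 1, 4, 2]), (75, [0, 1, 2, 3, 4]),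
   (237, [0, 3, 1, 2, 4]), (94, [0, 2, 3, 1, 4]), (0, [1, 3, 2, 4]), (77, [0, 1, 3, 2, 4]),
   (119, [0, 4, 1, 2, 3]), (87, [0, 4, 2, 1, 3]), (94, [0, 4, 2, 3, 1]), (77, [0, 3, 4, 1, 2]),
   (239, [1, 4, 2, 0, 3]), (95, [1, 2, 3, 0, 4]), (237, [0, 4, 3, 1, 2]), (87, [0, 2, 4, 1, 3]),
   (95, [4, 0, 1, 2, 3]), (79, [3, 0, 1, 2, 4]), (79, [3, 0, 1, 4, 2]), (75, [1, 0, 2, 3, 4]),
   (237, [2, 1, 0, 4, 3]), (0, [2, 3, 0, 4]), (94, [2, 0, 3, 4, 1]), (77, [1, 0, 3, 4, 2]),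
   (119, [4, 0, 1, 2, 3]), (87, [3, 1, 2, 0, 4]), (94, [4, 0, 2, 3, 1]), (77, [3, 0, 4, 1, 2]),
   (239, [3, 2, 1, 0, 4]), (95, [2, 1, 3, 0, 4]), (237, [4, 0, 3, 1, 2]), (87, [2, 0, 4, 1, 3]),
   (223, [0, 2, 1, 3, 4]), (95, [0, 2, 1, 3, 4]), (95, [0, 2, 1, 4, 3]), (79, [0, 1, 2, 3, 4]),
   (223, [2, 0, 1, 3, 4]), (95, [2, 0, 1, 3, 4]), (95, [2, 0, 1, 4, 3]), (79, [1, 0, 2, 3, 4]),
   (239, [1, 4, 0, 2, 3]), (119, [1, 3, 2, 0, 4]), (237, [0, 4, 1, 3, 2]), (0, [1, 2, 3, 4]),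
   (239, [3, 2, 0, 1, 4]), (119, [3, 1, 2, 0, 4]), (237, [4, 0, 1, 3, 2]), (0, [0, 2, 3, 4]),
   (255, [2, 3, 0, 1, 4]), (127, [1, 2, 3, 0, 4]), (254, [2, 3, 0, 1, 4]), (119, [1, 2, 3, 0, 4]),
   (507, [1, 3, 0, 2, 4]), (254, [0, 2, 3, 1, 4]), (254, [2, 0, 3, 4, 1]), (237, [0, 1, 4, 2, 3]),
   (75, [0, 1, 2, 3, 4]), (77, [0, 1, 2, 3, 4]), (94, [0, 1, 2, 3, 4]), (79, [0, 1, 2, 3, 4]),
   (87, [0, 1, 2, 3, 4]), (87, [0, 1, 2, 3, 4]), (95, [0, 1, 2, 3, 4]), (95, [0, 1, 2, 3, 4]),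
   (119, [0, 1, 2, 3, 4]), (127, [0, 1, 2, 3, 4]), (223, [0, 1, 2, 3, 4]), (237, [0, 1, 2, 3, 4]),
   (239, [0, 1, 2, 3, 4]), (254, [0, 1, 2, 3, 4]), (255, [0, 1, 2, 3, 4]), (507, [0, 1, 2, 3, 4]),
   (255, [0, 2, 3, 4, 1]), (127, [0, 1, 2, 4, 3]), (239, [0, 1, 4, 3, 2]), (95, [0, 1, 2, 4, 3]),
   (254, [0, 2, 3, 4, 1]), (119, [0, 1, 2, 4, 3]), (237, [0, 1, 4, 3, 2]), (87, [0, 1, 2, 4, 3]),
   (511, [0, 1, 3, 4, 2]), (255, [0, 1, 2, 4, 3]), (255, [0, 1, 4, 2, 3]), (223, [0, 1, 2, 3, 4]),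
   (507, [0, 1, 3, 4, 2]), (239, [0, 1, 2, 4, 3]), (239, [0, 1, 4, 2, 3]), (95, [0, 1, 2, 3, 4]),
   (511, [0, 1, 3, 4, 2]), (255, [0, 1, 2, 4, 3]), (507, [0, 1, 3, 4, 2]), (239, [0, 1, 2, 4, 3]),
   (507, [1, 0, 3, 4, 2]), (239, [1, 0, 2, 4, 3]), (254, [2, 3, 0, 1, 4]), (119, [1, 2, 0, 3, 4])]
def C6 : List (ℕ × List ℕ) :=
  [(1531, [0, 5, 1, 2, 3, 4]), (1263, [0, 5, 1, 3, 2, 4]), (1263, [0, 5, 3, 1, 2, 4]),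
   (1119, [0, 4, 2, 3, 1, 5]), (1263, [0, 5, 1, 3, 4, 2]), (1119, [0, 4, 1, 5, 2, 3]),
   (0, [2, 4, 3, 5]), (1103, [0, 3, 1, 4, 2, 5]), (1263, [0, 5, 3, 1, 4, 2]), (0, [3, 4, 2, 5]),
   (1119, [0, 4, 5, 1, 2, 3]), (1103, [0, 3, 4, 1, 2, 5]), (1119, [0, 4, 2, 3, 5, 1]),
   (1103, [0, 3, 1, 4, 5, 2]), (1103, [0, 3, 4, 1, 5, 2]), (1099, [0, 1, 2, 3, 4, 5]),
   (7672, [0, 3, 4, 5, 1, 2]), (3576, [0, 3, 4, 5, 1, 2]), (3576, [0, 3, 5, 4, 1, 2]),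
   (1459, [1, 0, 3, 4, 2, 5]), (3576, [0, 3, 4, 5, 2, 1]), (1459, [0, 1, 2, 5, 3, 4]),
   (0, [2, 4, 3, 5]), (1197, [0, 1, 3, 5, 2, 4]), (3576, [0, 3, 5, 4, 2, 1]), (0, [3, 4, 2, 5]),
   (1459, [0, 1, 5, 2, 3, 4]), (1197, [0, 1, 5, 3, 2, 4]), (1459, [1, 0, 3, 4, 5, 2]),
   (1197, [0, 1, 3, 5, 4, 2]), (1197, [0, 1, 5, 3, 4, 2]), (1109, [0, 1, 4, 5, 2, 3]),
   (3578, [0, 5, 3, 4, 1, 2]), (3310, [0, 4, 2, 5, 1, 3]), (3310, [0, 4, 5, 2, 1, 3]),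
   (1246, [0, 2, 3, 4, 1, 5]), (0, [1, 4, 3, 5]), (1261, [0, 3, 1, 5, 2, 4]), (0, [1, 4, 3, 5]),
   (1118, [0, 2, 3, 4, 1, 5]), (0, [1, 4, 2, 5]), (0, [1, 4, 2, 5]), (1261, [0, 3, 5, 1, 2, 4]),
   (1118, [0, 2, 4, 3, 1, 5]), (0, [1, 4, 2, 5]), (0, [1, 4, 2, 5]), (0, [1, 4, 3, 5]),
   (1101, [0, 1, 3, 4, 2, 5]), (1533, [0, 5, 3, 4, 1, 2]), (1271, [0, 5, 2, 4, 1, 3]),
   (1271, [0, 5, 4, 2, 1, 3]), (1183, [0, 5, 2, 3, 1, 4]), (1278, [0, 5, 2, 4, 3, 1]),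
   (1143, [0, 4, 1, 5, 2, 3]), (1261, [0, 5, 4, 3, 1, 2]), (1111, [0, 4, 2, 5, 1, 3]),
   (1278, [0, 5, 4, 2, 3, 1]), (1261, [0, 5, 3, 4, 1, 2]), (1143, [0, 4, 5, 1, 2, 3]),
   (1111, [0, 4, 5, 2, 1, 3]), (1246, [0, 5, 2, 3, 4, 1]), (1118, [0, 4, 2, 5, 3, 1]),
   (1118, [0, 4, 5, 2, 3, 1]), (1101, [0, 3, 4, 5, 1, 2]), (3578, [1, 5, 3, 4, 0, 2]),
   (3310, [1, 4, 2, 5, 0, 3]), (3310, [1, 4, 5, 2, 0, 3]), (1246, [1, 2, 3, 4, 0, 5]),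
   (3452, [0, 4, 3, 5, 2, 1]), (0, [0, 3, 4, 5]), (3308, [0, 4, 5, 3, 1, 2]), (0, [0, 3, 4, 5]),
   (3452, [0, 4, 5, 3, 2, 1]), (3308, [0, 4, 3, 5, 1, 2]), (0, [0, 2, 4, 5]), (0, [0, 2, 4, 5]),
   (3308, [0, 3, 4, 5, 2, 1]), (0, [0, 3, 4, 5]), (0, [0, 2, 4, 5]), (0, [0, 2, 4, 5]),
   (3579, [1, 5, 3, 4, 0, 2]), (3311, [1, 4, 2, 5, 0, 3]), (3311, [1, 4, 5, 2, 0, 3]),
   (1247, [1, 2, 3, 4, 0, 5]), (3453, [0, 5, 3, 4, 1, 2]), (1271, [0, 4, 2, 5, 1, 3]),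
   (3309, [0, 4, 5, 3, 1, 2]), (1183, [0, 2, 3, 5, 1, 4]), (3453, [0, 5, 4, 3, 1, 2]),
   (3309, [0, 4, 3, 5, 1, 2]), (1271, [0, 4, 5, 2, 1, 3]), (1183, [0, 2, 5, 3, 1, 4]),
   (3310, [0, 3, 4, 5, 2, 1]), (1261, [0, 4, 3, 5, 1, 2]), (1261, [0, 4, 5, 3, 1, 2]),
   (1111, [0, 2, 4, 5, 1, 3]), (1531, [5, 0, 1, 2, 3, 4]), (1263, [5, 0, 1, 3, 2, 4]),
   (1263, [5, 0, 3, 1, 2, 4]), (1119, [4, 0, 2, 3, 1, 5]), (1263, [5, 0, 1, 3, 4, 2]),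
   (1119, [4, 0, 1, 5, 2, 3]), (0, [2, 4, 3, 5]), (1103, [3, 0, 1, 4, 2, 5]),
   (1263, [5, 0, 3, 1, 4, 2]), (0, [3, 4, 2, 5]), (1119, [4, 0, 5, 1, 2, 3]),
   (1103, [3, 0, 4, 1, 2, 5]), (1119, [4, 0, 2, 3, 5, 1]), (1103, [3, 0, 1, 4, 5, 2]),
   (1103, [3, 0, 4, 1, 5, 2]), (1099, [1, 0, 2, 3, 4, 5]), (3578, [5, 0, 3, 4, 2, 1]),
   (0, [3, 4, 0, 5]), (0, [2, 4, 0, 5]), (0, [2, 4, 0, 5]), (3310, [4, 0, 2, 5, 3, 1]),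
   (1261, [3, 0, 1, 5, 4, 2]), (0, [2, 4, 0, 5]), (0, [2, 4, 0, 5]), (3310, [4, 0, 5, 2, 3, 1]),
   (0, [3, 4, 0, 5]), (1261, [3, 0, 5, 1, 4, 2]), (0, [3, 4, 0, 5]), (1246, [2, 0, 3, 4, 5, 1]),
   (1118, [2, 0, 3, 4, 5, 1]), (1118, [2, 0, 4, 3, 5, 1]), (1101, [1, 0, 3, 4, 5, 2]),
   (3578, [5, 1, 3, 4, 0, 2]), (3310, [4, 1, 2, 5, 0, 3]), (3310, [4, 1, 5, 2, 0, 3]),
   (1246, [2, 1, 3, 4, 0, 5]), (3452, [4, 0, 3, 5, 2, 1]), (0, [1, 3, 4, 5]),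
   (3308, [4, 0, 5, 3, 1, 2]), (0, [1, 3, 4, 5]), (3452, [4, 0, 5, 3, 2, 1]),
   (3308, [4, 0, 3, 5, 1, 2]), (0, [1, 2, 4, 5]), (0, [1, 2, 4, 5]), (3308, [2, 1, 4, 5, 3, 0]),
   (0, [1, 3, 4, 5]), (0, [1, 2, 4, 5]), (0, [1, 2, 4, 5]), (1533, [5, 0, 3, 4, 1, 2]),
   (1271, [5, 0, 2, 4, 1, 3]), (1271, [5, 0, 4, 2, 1, 3]), (1183, [4, 1, 2, 3, 0, 5]),
   (1278, [5, 0, 2, 4, 3, 1]), (1143, [4, 0, 1, 5, 2, 3]), (1261, [5, 0, 4, 3, 1, 2]),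
   (1111, [4, 0, 2, 5, 1, 3]), (1278, [5, 0, 4, 2, 3, 1]), (1261, [5, 0, 3, 4, 1, 2]),
   (1143, [4, 0, 5, 1, 2, 3]), (1111, [4, 0, 5, 2, 1, 3]), (1246, [5, 0, 2, 3, 4, 1]),
   (1118, [4, 0, 2, 5, 3, 1]), (1118, [4, 0, 5, 2, 3, 1]), (1101, [3, 0, 4, 5, 1, 2]),
   (3579, [5, 1, 3, 4, 0, 2]), (3311, [4, 1, 2, 5, 0, 3]), (3311, [4, 1, 5, 2, 0, 3]),
   (1247, [2, 1, 3, 4, 0, 5]), (3453, [5, 0, 3, 4, 1, 2]), (1271, [4, 0, 2, 5, 1, 3]),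
   (3309, [4, 0, 5, 3, 1, 2]), (1183, [2, 0, 3, 5, 1, 4]), (3453, [5, 0, 4, 3, 1, 2]),
   (3309, [4, 0, 3, 5, 1, 2]), (1271, [4, 0, 5, 2, 1, 3]), (1183, [2, 0, 5, 3, 1, 4]),
   (3310, [3, 0, 4, 5, 2, 1]), (1261, [4, 0, 3, 5, 1, 2]), (1261, [4, 0, 5, 3, 1, 2]),
   (1111, [2, 0, 4, 5, 1, 3]), (7916, [0, 5, 1, 3, 2, 4]), (3452, [0, 3, 1, 4, 2, 5]),
   (0, [1, 2, 3, 5]), (0, [2, 4, 0, 5]), (0, [0, 3, 2, 4]), (0, [0, 3, 2, 4]), (0, [1, 2, 3, 5]),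
   (0, [0, 3, 2, 4]), (3452, [3, 0, 4, 1, 5, 2]), (0, [3, 4, 2, 5]), (0, [1, 2, 3, 5]),
   (1197, [0, 1, 4, 3, 2, 5]), (0, [1, 4, 3, 5]), (1197, [0, 1, 2, 5, 4, 3]), (0, [1, 2, 3, 5]),
   (1109, [0, 1, 2, 4, 3, 5]), (3958, [0, 5, 1, 4, 2, 3]), (0, [0, 3, 2, 5]), (0, [1, 2, 3, 5]),
   (1261, [1, 2, 3, 4, 0, 5]), (3452, [0, 4, 2, 5, 3, 1]), (0, [0, 3, 2, 5]), (0, [1, 2, 3, 5]),
   (1197, [0, 3, 2, 5, 1, 4]), (0, [1, 2, 3, 4]), (0, [1, 2, 3, 4]), (0, [1, 2, 3, 4]),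
   (0, [1, 2, 3, 4]), (3308, [0, 3, 2, 4, 5, 1]), (0, [0, 3, 2, 5]), (0, [1, 2, 3, 5]),
   (0, [1, 2, 4, 5]), (3958, [5, 0, 4, 1, 2, 3]), (0, [0, 3, 2, 5]), (0, [1, 2, 3, 5]),
   (1261, [2, 1, 4, 3, 0, 5]), (0, [0, 3, 2, 4]), (0, [0, 3, 2, 4]), (0, [1, 2, 3, 5]),
   (0, [0, 3, 2, 4]), (3452, [4, 0, 5, 2, 3, 1]), (0, [0, 3, 2, 5]), (0, [1, 2, 3, 5]),
   (1197, [2, 1, 4, 3, 0, 5]), (3308, [2, 1, 4, 3, 5, 0]), (0, [0, 3, 2, 5]), (0, [1, 2, 3, 5]),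
   (0, [0, 3, 4, 5]), (7915, [1, 4, 3, 5, 0, 2]), (0, [0, 3, 2, 5]), (0, [1, 2, 3, 5]),
   (1263, [1, 2, 3, 4, 0, 5]), (3958, [0, 4, 3, 5, 2, 1]), (0, [0, 3, 2, 5]), (0, [1, 2, 3, 5]),
   (1199, [1, 2, 3, 4, 0, 5]), (3958, [3, 1, 5, 4, 2, 0]), (0, [0, 3, 2, 5]), (0, [1, 2, 3, 5]),
   (1199, [2, 1, 4, 3, 0, 5]), (3452, [1, 2, 4, 5, 3, 0]), (0, [0, 3, 2, 5]), (0, [1, 2, 3, 5]),
   (1191, [0, 1, 4, 5, 2, 3]), (7917, [2, 3, 4, 5, 0, 1]), (3578, [1, 3, 2, 5, 0, 4]),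
   (0, [1, 2, 3, 5]), (3310, [1, 2, 3, 4, 0, 5]), (0, [0, 3, 2, 4]), (0, [0, 3, 2, 4]),
   (0, [1, 2, 3, 5]), (0, [0, 3, 2, 4]), (3578, [3, 1, 5, 2, 4, 0]), (3576, [0, 3, 2, 5, 1, 4]),
   (0, [1, 2, 3, 5]), (1459, [1, 0, 5, 3, 2, 4]), (3310, [2, 1, 4, 3, 5, 0]),
   (1459, [0, 1, 3, 5, 4, 2]), (0, [1, 2, 3, 5]), (1197, [0, 1, 4, 5, 2, 3]), (0, [0, 1, 3, 5]),
   (1463, [0, 5, 1, 3, 2, 4]), (0, [0, 1, 3, 5]), (1199, [1, 4, 2, 3, 0, 5]), (0, [0, 1, 3, 5]),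
   (1199, [1, 4, 0, 5, 2, 3]), (0, [0, 1, 3, 5]), (1191, [0, 5, 1, 4, 2, 3]), (0, [0, 1, 3, 5]),
   (1459, [0, 5, 1, 3, 2, 4]), (0, [0, 1, 3, 5]), (1197, [0, 5, 3, 2, 1, 4]), (0, [0, 1, 3, 5]),
   (1197, [0, 5, 1, 4, 3, 2]), (0, [0, 1, 3, 5]), (0, [2, 3, 4, 5]), (0, [0, 1, 3, 5]),
   (3309, [2, 3, 1, 4, 0, 5]), (0, [0, 1, 3, 5]), (1261, [2, 3, 1, 4, 0, 5]), (0, [0, 1, 3, 5]),
   (1261, [3, 2, 0, 5, 1, 4]), (0, [0, 1, 3, 5]), (1197, [2, 3, 1, 4, 0, 5]), (0, [0, 1, 3, 5]),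
   (3308, [2, 3, 1, 4, 0, 5]), (0, [0, 1, 3, 5]), (0, [0, 2, 4, 5]), (0, [0, 1, 3, 5]),
   (0, [2, 3, 1, 4]), (0, [0, 1, 3, 5]), (0, [0, 2, 4, 5]), (0, [0, 1, 3, 5]),
   (3311, [2, 3, 1, 4, 0, 5]), (0, [0, 1, 3, 5]), (1263, [1, 4, 2, 3, 0, 5]), (0, [0, 1, 3, 5]),
   (1271, [2, 3, 0, 5, 1, 4]), (0, [0, 1, 3, 5]), (1199, [2, 3, 1, 4, 0, 5]), (0, [0, 1, 3, 5]),
   (3310, [2, 3, 1, 4, 0, 5]), (0, [0, 1, 3, 5]), (1261, [1, 4, 2, 3, 0, 5]), (0, [0, 1, 3, 5]),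
   (0, [2, 3, 1, 4]), (0, [0, 1, 3, 5]), (0, [2, 3, 1, 4]), (3966, [1, 5, 2, 4, 0, 3]),
   (3453, [2, 4, 1, 5, 0, 3]), (3578, [1, 5, 3, 2, 0, 4]), (3310, [1, 4, 2, 3, 0, 5]),
   (3577, [3, 2, 0, 5, 4, 1]), (1467, [1, 4, 0, 5, 2, 3]), (3576, [0, 5, 3, 2, 1, 4]),
   (1459, [1, 3, 0, 5, 2, 4]), (3958, [0, 5, 4, 3, 1, 2]), (3452, [1, 5, 2, 4, 0, 3]),
   (3452, [0, 4, 5, 1, 2, 3]), (3308, [0, 4, 3, 2, 1, 5]), (0, [2, 3, 1, 4]), (0, [2, 3, 1, 4]),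
   (0, [2, 3, 1, 4]), (0, [2, 3, 1, 4]), (0, [0, 1, 3, 5]), (1463, [5, 0, 1, 3, 2, 4]),
   (0, [0, 1, 3, 5]), (1199, [4, 1, 2, 3, 0, 5]), (0, [0, 1, 3, 5]), (1199, [4, 1, 0, 5, 2, 3]),
   (0, [0, 1, 3, 5]), (1191, [3, 2, 0, 5, 1, 4]), (0, [0, 1, 3, 5]), (1459, [5, 0, 1, 3, 2, 4]),
   (0, [0, 1, 3, 5]), (1197, [4, 1, 2, 3, 0, 5]), (0, [0, 1, 3, 5]), (1197, [4, 1, 0, 5, 2, 3]),
   (0, [0, 1, 3, 5]), (0, [2, 3, 4, 5]), (0, [0, 1, 3, 5]), (3311, [3, 2, 1, 4, 0, 5]),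
   (0, [0, 1, 3, 5]), (1263, [3, 2, 1, 4, 0, 5]), (0, [0, 1, 3, 5]), (1271, [3, 2, 0, 5, 1, 4]),
   (0, [0, 1, 3, 5]), (1199, [3, 2, 1, 4, 0, 5]), (0, [0, 1, 3, 5]), (3310, [3, 2, 1, 4, 0, 5]),
   (0, [0, 1, 3, 5]), (1261, [4, 1, 2, 3, 0, 5]), (0, [0, 1, 3, 5]), (0, [2, 3, 0, 4]),
   (0, [0, 1, 3, 5]), (0, [2, 3, 0, 4]), (3966, [5, 1, 2, 4, 3, 0]), (3577, [2, 3, 0, 5, 1, 4]),
   (3958, [5, 0, 4, 3, 2, 1]), (0, [2, 3, 0, 5]), (3453, [4, 2, 1, 5, 3, 0]),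
   (1467, [4, 1, 0, 5, 3, 2]), (3452, [4, 2, 1, 5, 3, 0]), (0, [2, 3, 0, 5]),
   (3578, [5, 1, 3, 2, 4, 0]), (3576, [2, 3, 0, 5, 1, 4]), (3452, [4, 0, 5, 1, 3, 2]),
   (0, [2, 3, 0, 5]), (3310, [4, 1, 2, 3, 5, 0]), (1459, [3, 1, 0, 5, 4, 2]),
   (3308, [4, 0, 3, 2, 5, 1]), (0, [2, 3, 0, 5]), (0, [0, 1, 3, 5]), (3327, [2, 3, 0, 4, 1, 5]),
   (0, [0, 1, 3, 5]), (1279, [2, 3, 1, 4, 0, 5]), (0, [0, 1, 3, 5]), (1279, [2, 3, 0, 5, 1, 4]),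
   (0, [0, 1, 3, 5]), (1215, [2, 3, 0, 5, 1, 4]), (0, [0, 1, 3, 5]), (3326, [2, 3, 0, 4, 1, 5]),
   (0, [0, 1, 3, 5]), (1278, [2, 3, 1, 4, 0, 5]), (0, [0, 1, 3, 5]), (1278, [2, 3, 0, 5, 1, 4]),
   (0, [0, 1, 3, 5]), (0, [2, 3, 4, 5]), (7919, [3, 4, 0, 5, 1, 2]), (3579, [2, 3, 0, 5, 1, 4]),
   (7917, [2, 5, 1, 4, 0, 3]), (3453, [2, 3, 1, 5, 0, 4]), (3579, [3, 2, 0, 5, 4, 1]),
   (1531, [1, 3, 0, 5, 2, 4]), (3578, [3, 2, 0, 5, 4, 1]), (1467, [1, 3, 0, 5, 2, 4]),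
   (7917, [4, 3, 0, 5, 2, 1]), (3578, [2, 3, 0, 5, 1, 4]), (7916, [0, 3, 4, 1, 2, 5]),
   (3452, [1, 3, 2, 4, 0, 5]), (3453, [3, 2, 1, 5, 4, 0]), (1467, [3, 1, 0, 5, 4, 2]),
   (3452, [3, 1, 2, 4, 5, 0]), (0, [2, 3, 4, 5]), (8185, [2, 5, 0, 3, 1, 4]),
   (7673, [2, 3, 0, 4, 1, 5]), (7917, [2, 3, 4, 1, 0, 5]), (3578, [1, 3, 2, 4, 0, 5]),
   (7917, [2, 3, 0, 5, 4, 1]), (3578, [1, 3, 0, 5, 2, 4]), (7916, [0, 5, 1, 4, 2, 3]),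
   (3452, [0, 3, 1, 5, 2, 4]), (7673, [3, 2, 4, 0, 5, 1]), (7672, [0, 3, 1, 4, 2, 5]),
   (3578, [3, 1, 5, 0, 4, 2]), (3576, [0, 3, 2, 4, 1, 5]), (3578, [3, 1, 4, 2, 5, 0]),
   (3576, [0, 3, 1, 5, 2, 4]), (3452, [3, 0, 4, 2, 5, 1]), (0, [2, 3, 4, 5]), (0, [0, 2, 4, 5]),
   (1109, [0, 1, 4, 5, 2, 3]), (0, [0, 3, 4, 5]), (0, [1, 4, 2, 5]), (0, [0, 2, 4, 5]),
   (0, [1, 4, 3, 5]), (0, [0, 3, 4, 5]), (1197, [0, 1, 3, 5, 4, 2]), (0, [0, 2, 4, 5]),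
   (1197, [0, 1, 5, 3, 4, 2]), (3308, [0, 3, 4, 5, 2, 1]), (0, [1, 4, 2, 5]), (0, [0, 1, 4, 5]),
   (1109, [0, 4, 1, 5, 2, 3]), (0, [0, 1, 4, 5]), (0, [2, 4, 3, 5]), (0, [0, 3, 4, 5]),
   (1197, [0, 3, 1, 5, 4, 2]), (3308, [0, 4, 3, 5, 2, 1]), (0, [2, 4, 1, 5]), (0, [0, 1, 4, 5]),
   (1197, [0, 5, 1, 3, 4, 2]), (0, [0, 1, 4, 5]), (1109, [0, 4, 5, 1, 2, 3]),
   (3308, [0, 4, 5, 3, 2, 1]), (0, [3, 4, 1, 5]), (0, [0, 2, 4, 5]), (1197, [0, 3, 5, 1, 4, 2]),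
   (0, [0, 1, 4, 5]), (1197, [0, 5, 3, 1, 4, 2]), (0, [0, 3, 4, 5]), (1459, [0, 1, 2, 5, 3, 4]),
   (3452, [0, 3, 4, 5, 2, 1]), (0, [2, 4, 3, 5]), (3452, [0, 4, 3, 5, 2, 1]), (0, [1, 4, 3, 5]),
   (0, [0, 2, 4, 5]), (1459, [0, 1, 5, 2, 3, 4]), (3452, [0, 4, 5, 3, 2, 1]), (0, [1, 4, 2, 5]),
   (0, [0, 1, 4, 5]), (1459, [0, 5, 1, 2, 3, 4]), (1143, [0, 4, 5, 3, 1, 2]),
   (1118, [0, 4, 5, 1, 2, 3]), (3310, [1, 4, 5, 3, 2, 0]), (3308, [0, 4, 5, 2, 3, 1]),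
   (3577, [2, 3, 4, 5, 0, 1]), (3576, [2, 3, 4, 5, 0, 1]), (3295, [0, 2, 3, 4, 5, 1]),
   (1247, [0, 2, 3, 4, 5, 1]), (1247, [0, 2, 3, 5, 4, 1]), (1119, [0, 2, 3, 4, 5, 1]),
   (1247, [0, 2, 5, 3, 4, 1]), (1119, [0, 2, 4, 3, 5, 1]), (1119, [0, 2, 4, 5, 3, 1]),
   (1103, [0, 1, 3, 4, 5, 2]), (1247, [0, 5, 2, 3, 4, 1]), (1119, [0, 4, 2, 3, 5, 1]),
   (1119, [0, 4, 2, 5, 3, 1]), (1103, [0, 3, 1, 4, 5, 2]), (1119, [0, 4, 5, 2, 3, 1]),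
   (1103, [0, 3, 4, 1, 5, 2]), (1103, [0, 3, 4, 5, 1, 2]), (1099, [0, 1, 2, 3, 4, 5]),
   (3311, [1, 2, 3, 4, 5, 0]), (1271, [0, 2, 3, 4, 5, 1]), (1271, [0, 2, 3, 5, 4, 1]),
   (1143, [0, 1, 3, 4, 5, 2]), (1463, [1, 0, 5, 3, 4, 2]), (1199, [0, 1, 4, 3, 5, 2]),
   (1199, [0, 1, 4, 5, 3, 2]), (1111, [0, 1, 3, 4, 5, 2]), (3310, [1, 2, 3, 4, 5, 0]),
   (0, [0, 4, 2, 5]), (0, [0, 3, 2, 5]), (0, [0, 3, 2, 5]), (1459, [1, 0, 5, 3, 4, 2]),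
   (1197, [0, 1, 4, 3, 5, 2]), (1197, [0, 1, 4, 5, 3, 2]), (1109, [0, 1, 2, 4, 5, 3]),
   (3579, [1, 2, 3, 4, 5, 0]), (1533, [0, 2, 3, 4, 5, 1]), (3453, [0, 2, 3, 4, 5, 1]),
   (1278, [0, 1, 2, 4, 5, 3]), (3453, [0, 2, 4, 3, 5, 1]), (1278, [0, 1, 4, 2, 5, 3]),
   (3310, [0, 1, 4, 5, 3, 2]), (1246, [0, 1, 2, 3, 5, 4]), (3577, [0, 2, 3, 4, 5, 1]),
   (1467, [0, 4, 1, 2, 5, 3]), (0, [1, 3, 4, 5]), (1261, [0, 2, 1, 3, 5, 4]), (0, [1, 2, 4, 5]),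
   (1261, [0, 2, 3, 1, 5, 4]), (0, [1, 2, 4, 5]), (1118, [0, 1, 2, 3, 4, 5]),
   (3327, [0, 2, 3, 4, 5, 1]), (1279, [0, 2, 3, 4, 5, 1]), (1279, [0, 2, 3, 5, 4, 1]),
   (1151, [0, 1, 2, 4, 5, 3]), (3311, [0, 2, 3, 4, 5, 1]), (1263, [0, 1, 4, 3, 5, 2]),
   (1263, [0, 1, 4, 5, 3, 2]), (1119, [0, 1, 2, 4, 5, 3]), (3326, [0, 2, 3, 4, 5, 1]),
   (1278, [0, 2, 3, 4, 5, 1]), (1278, [0, 2, 3, 5, 4, 1]), (1143, [0, 1, 2, 4, 5, 3]),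
   (3310, [0, 2, 3, 4, 5, 1]), (1261, [0, 1, 4, 3, 5, 2]), (1261, [0, 1, 4, 5, 3, 2]),
   (1111, [0, 1, 2, 4, 5, 3]), (3455, [1, 2, 3, 4, 5, 0]), (1471, [0, 1, 3, 4, 5, 2]),
   (1471, [1, 0, 3, 5, 4, 2]), (1215, [0, 1, 2, 4, 5, 3]), (3453, [1, 2, 3, 4, 5, 0]),
   (1467, [0, 1, 3, 4, 5, 2]), (0, [1, 3, 4, 5]), (1199, [0, 1, 2, 4, 5, 3]),
   (3453, [2, 1, 3, 5, 4, 0]), (0, [0, 4, 3, 5]), (1467, [1, 0, 3, 5, 4, 2]),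
   (1199, [1, 0, 2, 5, 4, 3]), (3452, [1, 2, 3, 4, 5, 0]), (0, [0, 4, 3, 5]), (0, [1, 3, 4, 5]),
   (1191, [0, 1, 2, 4, 5, 3]), (3455, [1, 2, 3, 4, 5, 0]), (1471, [0, 1, 3, 4, 5, 2]),
   (3447, [0, 1, 5, 3, 4, 2]), (1271, [0, 1, 4, 3, 5, 2]), (3453, [1, 2, 3, 4, 5, 0]),
   (1467, [0, 1, 3, 4, 5, 2]), (0, [1, 2, 4, 5]), (1261, [0, 1, 4, 2, 5, 3]),
   (3453, [2, 1, 3, 5, 4, 0]), (0, [0, 4, 3, 5]), (0, [0, 2, 3, 5]), (0, [0, 2, 3, 5]),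
   (3452, [1, 2, 3, 4, 5, 0]), (0, [0, 4, 3, 5]), (0, [0, 2, 3, 5]), (0, [0, 2, 3, 5]),
   (3583, [0, 2, 3, 4, 5, 1]), (1535, [0, 1, 3, 4, 5, 2]), (3455, [0, 1, 3, 5, 4, 2]),
   (1279, [0, 1, 2, 4, 5, 3]), (3455, [0, 1, 5, 3, 4, 2]), (1279, [0, 1, 4, 2, 5, 3]),
   (3311, [0, 1, 4, 5, 3, 2]), (1247, [0, 1, 2, 3, 5, 4]), (3579, [0, 2, 3, 4, 5, 1]),
   (1531, [0, 1, 3, 4, 5, 2]), (0, [1, 3, 4, 5]), (1263, [0, 1, 2, 4, 5, 3]), (0, [1, 2, 4, 5]),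
   (1263, [0, 1, 4, 2, 5, 3]), (0, [1, 2, 4, 5]), (1119, [0, 1, 2, 3, 4, 5]),
   (3583, [0, 2, 3, 4, 5, 1]), (1535, [0, 1, 3, 4, 5, 2]), (3455, [0, 1, 3, 5, 4, 2]),
   (1279, [0, 1, 2, 4, 5, 3]), (3455, [0, 1, 5, 3, 4, 2]), (1279, [0, 1, 4, 2, 5, 3]),
   (3311, [0, 1, 4, 5, 3, 2]), (1247, [0, 1, 2, 3, 5, 4]), (3582, [0, 2, 3, 4, 5, 1]),
   (1533, [0, 1, 3, 4, 5, 2]), (3453, [0, 1, 3, 5, 4, 2]), (1271, [0, 1, 2, 4, 5, 3]),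
   (3453, [0, 1, 5, 3, 4, 2]), (1271, [0, 1, 4, 2, 5, 3]), (3309, [0, 1, 4, 5, 3, 2]),
   (1183, [0, 1, 2, 3, 5, 4]), (3967, [1, 2, 3, 4, 5, 0]), (1983, [0, 1, 2, 4, 5, 3]),
   (3903, [0, 2, 3, 4, 5, 1]), (1471, [0, 1, 2, 4, 5, 3]), (3959, [0, 2, 4, 3, 5, 1]),
   (1533, [0, 1, 3, 2, 5, 4]), (0, [2, 3, 4, 5]), (1271, [0, 1, 2, 3, 5, 4]),
   (3966, [1, 2, 3, 4, 5, 0]), (0, [0, 4, 3, 5]), (3577, [3, 0, 1, 5, 2, 4]),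
   (1463, [0, 1, 2, 3, 5, 4]), (3958, [0, 2, 4, 3, 5, 1]), (0, [0, 4, 3, 5]), (0, [2, 3, 4, 5]),
   (1199, [1, 0, 2, 3, 4, 5]), (4095, [0, 2, 3, 4, 5, 1]), (2047, [0, 1, 2, 3, 5, 4]),
   (3967, [0, 2, 3, 4, 5, 1]), (1535, [0, 1, 2, 3, 5, 4]), (3967, [0, 2, 4, 3, 5, 1]),
   (1535, [0, 1, 3, 2, 5, 4]), (0, [2, 3, 4, 5]), (1279, [0, 1, 2, 3, 5, 4]),
   (4094, [0, 2, 3, 4, 5, 1]), (1983, [0, 1, 2, 3, 5, 4]), (3966, [0, 2, 3, 4, 5, 1]),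
   (1471, [0, 1, 2, 3, 5, 4]), (3966, [0, 2, 4, 3, 5, 1]), (1471, [0, 1, 3, 2, 5, 4]),
   (0, [2, 3, 4, 5]), (1215, [0, 1, 2, 3, 5, 4]), (7679, [0, 1, 3, 4, 5, 2]),
   (3583, [0, 1, 3, 4, 5, 2]), (3583, [0, 1, 3, 5, 4, 2]), (3327, [0, 1, 2, 4, 5, 3]),
   (7675, [0, 1, 3, 4, 5, 2]), (3579, [0, 1, 3, 4, 5, 2]), (3579, [0, 1, 3, 5, 4, 2]),
   (3311, [0, 1, 2, 4, 5, 3]), (7675, [1, 0, 3, 4, 5, 2]), (3579, [1, 0, 3, 4, 5, 2]),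
   (3579, [1, 0, 3, 5, 4, 2]), (3311, [1, 0, 2, 4, 5, 3]), (7673, [0, 1, 3, 4, 5, 2]),
   (3577, [0, 1, 3, 4, 5, 2]), (3577, [0, 1, 3, 5, 4, 2]), (1463, [1, 2, 0, 3, 4, 5]),
   (7919, [1, 2, 3, 4, 5, 0]), (3966, [0, 2, 1, 5, 4, 3]), (3966, [2, 0, 5, 1, 4, 3]),
   (0, [2, 3, 4, 5]), (7917, [0, 3, 2, 5, 4, 1]), (3578, [0, 3, 1, 5, 2, 4]),
   (3958, [2, 0, 5, 1, 4, 3]), (0, [2, 3, 4, 5]), (7917, [2, 1, 4, 3, 5, 0]),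
   (3958, [0, 2, 1, 5, 4, 3]), (3578, [3, 0, 5, 1, 2, 4]), (0, [2, 3, 4, 5]),
   (7916, [0, 3, 2, 5, 4, 1]), (3452, [1, 3, 0, 5, 2, 4]), (3452, [3, 1, 5, 0, 2, 4]),
   (0, [2, 3, 4, 5]), (7935, [0, 2, 3, 4, 5, 1]), (3967, [0, 1, 2, 4, 5, 3]),
   (3967, [0, 2, 1, 5, 4, 3]), (3455, [0, 1, 2, 4, 5, 3]), (7919, [0, 1, 4, 3, 5, 2]),
   (3579, [0, 1, 3, 2, 5, 4]), (0, [2, 3, 4, 5]), (3311, [0, 1, 2, 3, 4, 5]),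
   (7919, [0, 3, 2, 5, 4, 1]), (0, [1, 4, 3, 5]), (3579, [0, 3, 1, 5, 2, 4]),
   (3311, [0, 2, 1, 4, 3, 5]), (7915, [0, 1, 4, 3, 5, 2]), (0, [1, 4, 3, 5]), (0, [2, 3, 4, 5]),
   (1263, [0, 1, 2, 3, 4, 5]), (8187, [1, 2, 3, 4, 5, 0]), (4094, [0, 1, 2, 3, 5, 4]),
   (7934, [0, 1, 2, 5, 4, 3]), (3582, [0, 1, 2, 3, 5, 4]), (7934, [0, 1, 4, 3, 5, 2]),
   (3582, [0, 1, 3, 2, 5, 4]), (0, [2, 3, 4, 5]), (3326, [0, 1, 2, 3, 4, 5]),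
   (8185, [0, 2, 3, 4, 5, 1]), (3966, [0, 1, 2, 3, 5, 4]), (7917, [0, 2, 1, 5, 3, 4]),
   (3453, [0, 2, 1, 3, 4, 5]), (7917, [0, 2, 5, 1, 3, 4]), (3453, [0, 2, 3, 1, 4, 5]),
   (0, [2, 3, 4, 5]), (1278, [0, 1, 2, 3, 4, 5]), (8191, [0, 1, 3, 4, 5, 2]),
   (4095, [0, 1, 2, 3, 5, 4]), (7935, [0, 1, 2, 5, 4, 3]), (3583, [0, 1, 2, 3, 5, 4]),
   (7935, [0, 1, 4, 3, 5, 2]), (3583, [0, 1, 3, 2, 5, 4]), (0, [2, 3, 4, 5]),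
   (3327, [0, 1, 2, 3, 4, 5]), (8187, [0, 1, 3, 4, 5, 2]), (3967, [0, 1, 2, 3, 5, 4]),
   (7919, [0, 1, 2, 5, 4, 3]), (3455, [0, 1, 2, 3, 5, 4]), (7919, [0, 1, 5, 2, 4, 3]),
   (3455, [0, 1, 3, 2, 5, 4]), (0, [2, 3, 4, 5]), (1279, [0, 1, 2, 3, 4, 5]),
   (16351, [0, 2, 3, 4, 5, 1]), (8187, [0, 1, 2, 3, 5, 4]), (8187, [0, 1, 2, 5, 3, 4]),
   (7675, [0, 1, 2, 3, 4, 5]), (8187, [0, 3, 5, 1, 2, 4]), (7919, [0, 1, 3, 2, 4, 5]),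
   (7919, [0, 1, 3, 4, 2, 5]), (3579, [0, 1, 2, 3, 4, 5]), (8187, [0, 5, 3, 1, 2, 4]),
   (7919, [0, 3, 1, 2, 4, 5]), (7919, [0, 3, 1, 4, 2, 5]), (3579, [0, 2, 1, 3, 4, 5]),
   (7675, [0, 3, 4, 1, 2, 5]), (3579, [0, 3, 4, 1, 2, 5]), (3579, [0, 3, 4, 2, 1, 5]),
   (1531, [0, 1, 2, 3, 4, 5])]

theorem chk2 : check E2 C2 = true := by decide +kernel
theorem chk3 : check E3 C3 = true := by decide +kernel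
theorem chk4 : check E4 C4 = true := by decide +kernel
theorem chk5 : check E5 C5 = true := by decide +kernel
theorem chk6 : check E6 C6 = true := by decide +kernel

end Pure
end MP433
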