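import Pool.Agent.Work.MP_433a35_co.Final

/-!
# Large induced matchings from a local inequality (MP_433a35_co)

Double counting over all maximum independent sets `I` of a finite graph `H` and all ways to exchange
one member of `I`; then the application to the square of the line graph of `G`.
-/

set_option linter.unusedSectionVars false

namespace MP433

open Finset

section abs
variable {E : Type*} [Fintype E] [DecidableEq E] (H : SimpleGraph E)

open Classical in
/-- the vertices outside the closed neighbourhoods of the members of `I0` -/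
noncomputable def TT (I0 : Finset E) : Finset E := univ.filter fun e => ∀ f ∈ I0, e ∉ Reed.nb H f

lemma mem_TT {I0 : Finset E} {e : E} : e ∈ TT H I0 ↔ ∀ f ∈ I0, e ∉ Reed.nb H f := by simp [TT]

lemma nb_symm {e f : E} : e ∈ Reed.nb H f ↔ f ∈ Reed.nb H e := by
  rw [Reed.mem_nb, Reed.mem_nb]
  constructor
  · rintro (h | h)
    · exact Or.inl h.symm
    · exact Or.inr h.symm
  · rintro (h | h)
    · exact Or.inl h.symm
    · exact Or.inr h.symm

/-- Every vertex sees a maximum independent set twice, or once and then it can be exchanged. -/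
lemma two_le {I : Finset E} (hI : I ∈ Reed.mis H univ) (e : E) :
    2 ≤ (I.filter fun x => e ∈ Reed.nb H x).card +
      (I.filter fun x => e ∈ TT H (I.erase x)).card := by
  have hI' := (Reed.mem_mis H).1 hI
  rcases Nat.lt_or_ge (I.filter fun x => e ∈ Reed.nb H x).card 2 with h | h
  · have hne : (I.filter fun x => e ∈ Reed.nb H x).Nonempty := by
      by_contra hne
      rw [not_nonempty_iff_eq_empty, filter_eq_empty_iff] at hne
      have heI : e ∉ I := fun he => hne he ((Reed.mem_nb H).2 (Or.inl rfl))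
      have h1 : Reed.Indep H (insert e I) := by
        refine Reed.indep_insert H hI'.1.2 ?_
        intro r hr hadj
        exact hne hr ((Reed.mem_nb H).2 (Or.inr hadj))
      have h2 := hI'.2 (insert e I) (subset_univ _) h1
      rw [card_insert_of_notMem heI] at h2
      omega
    obtain ⟨x, hx⟩ := hne
    have h1 : (I.filter fun x => e ∈ Reed.nb H x).card = 1 := by
      have : 0 < (I.filter fun x => e ∈ Reed.nb H x).card := card_pos.2 ⟨x, hx⟩
      omega
    have h2 : 0 < (I.filter fun x => e ∈ TT H (I.erase x)).card := by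
      rw [card_pos]
      refine ⟨x, ?_⟩
      rw [mem_filter, mem_TT]
      refine ⟨(mem_filter.1 hx).1, ?_⟩
      intro f hf hef
      rw [mem_erase] at hf
      have hf' : f ∈ I.filter fun x => e ∈ Reed.nb H x := mem_filter.2 ⟨hf.2, hef⟩
      rw [card_eq_one] at h1
      obtain ⟨y, hy⟩ := h1
      rw [hy, mem_singleton] at hx hf'
      exact hf.1 (hf'.trans hx.symm)
    omega
  · omega

/-- Summation of `two_le` over all vertices. -/
lemma two_card_le {I : Finset E} (hI : I ∈ Reed.mis H univ) :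
    2 * Fintype.card E ≤ ∑ x ∈ I, ((Reed.nb H x).card + (TT H (I.erase x)).card) := by
  have h1 : ∑ _e : E, 2 ≤ ∑ e : E, ((I.filter fun x => e ∈ Reed.nb H x).card +
      (I.filter fun x => e ∈ TT H (I.erase x)).card) := sum_le_sum fun e _ => two_le H hI e
  rw [sum_const, card_univ, smul_eq_mul] at h1
  have h2 : ∀ (R : E → Finset E), ∑ e : E, (I.filter fun x => e ∈ R x).card =
      ∑ x ∈ I, (R x).card := by
    intro R
    simp only [card_filter]
    rw [sum_comm]
    refine sum_congr rfl fun x _ => ?_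
    rw [← sum_filter]
    simp
  rw [sum_add_distrib, h2, h2, ← sum_add_distrib] at h1
  linarith

/-- The regrouping: pairs (maximum independent set, member) against pairs (rest, vertex which
completes the rest). -/
lemma regroup (φ : Finset E → E → ℝ) :
    ∑ I ∈ Reed.mis H univ, ∑ x ∈ I, φ (I.erase x) x =
      ∑ I0 ∈ (Reed.mis H univ).biUnion (fun I => I.image fun x => I.erase x),
        ∑ f ∈ TT H I0, φ I0 f := by
  rw [sum_sigma', sum_sigma']
  refine sum_bij' (i := fun p _ => ⟨p.1.erase p.2, p.2⟩) (j := fun p _ => ⟨insert p.2 p.1, p.2⟩)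
    ?_ ?_ ?_ ?_ ?_
  · rintro ⟨I, x⟩ hp
    rw [mem_sigma] at hp ⊢
    simp only at hp ⊢
    refine ⟨mem_biUnion.2 ⟨I, hp.1, mem_image.2 ⟨x, hp.2, rfl⟩⟩, ?_⟩
    rw [mem_TT]
    intro f hf hxf
    have hind := ((Reed.mem_mis H).1 hp.1).1.2
    rw [mem_erase] at hf
    rw [Reed.mem_nb] at hxf
    rcases hxf with h | h
    · exact hf.1 h.symm
    · exact hind f hf.2 x hp.2 h
  · rintro ⟨I0, f⟩ hp
    rw [mem_sigma, mem_biUnion] at hp
    simp only at hp
    obtain ⟨⟨I, hI, hI0⟩, hf⟩ := hp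
    rw [mem_image] at hI0
    obtain ⟨x, hx, rfl⟩ := hI0
    rw [mem_sigma]
    simp only
    refine ⟨?_, mem_insert_self _ _⟩
    rw [mem_TT] at hf
    have hI' := (Reed.mem_mis H).1 hI
    have hfn : f ∉ I.erase x := fun h => hf f h ((Reed.mem_nb H).2 (Or.inl rfl))
    rw [Reed.mem_mis]
    refine ⟨⟨subset_univ _, ?_⟩, ?_⟩
    · refine Reed.indep_insert H (Reed.indep_mono H (erase_subset _ _) hI'.1.2) ?_
      intro r hr hadj
      exact hf r hr ((Reed.mem_nb H).2 (Or.inr hadj))
    · intro T _ hT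
      have h1 := hI'.2 T (subset_univ _) hT
      rw [card_insert_of_notMem hfn, card_erase_add_one hx]
      exact h1
  · rintro ⟨I, x⟩ hp
    rw [mem_sigma] at hp
    simp only at hp ⊢
    rw [insert_erase hp.2]
  · rintro ⟨I0, f⟩ hp
    rw [mem_sigma] at hp
    simp only at hp ⊢
    rw [mem_TT] at hp
    have hfn : f ∉ I0 := fun h => hp.2 f h ((Reed.mem_nb H).2 (Or.inl rfl))
    rw [erase_insert hfn]
  · rintro ⟨I, x⟩ _
    rfl

/-- The set `TT H (I.erase x)` is a clique. -/
lemma TT_clique {I : Finset E} (hI : I ∈ Reed.mis H univ) {x : E} (hx : x ∈ I) :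
    ∀ a ∈ TT H (I.erase x), ∀ b ∈ TT H (I.erase x), a ≠ b → H.Adj a b := by
  intro a ha b hb hab
  by_contra hnadj
  rw [mem_TT] at ha hb
  have hI' := (Reed.mem_mis H).1 hI
  have han : a ∉ I.erase x := fun h => ha a h ((Reed.mem_nb H).2 (Or.inl rfl))
  have hbn : b ∉ I.erase x := fun h => hb b h ((Reed.mem_nb H).2 (Or.inl rfl))
  have h1 : Reed.Indep H (insert a (I.erase x)) := by
    refine Reed.indep_insert H (Reed.indep_mono H (erase_subset _ _) hI'.1.2) ?_
    intro r hr hadj
    exact ha r hr ((Reed.mem_nb H).2 (Or.inr hadj))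
  have h2 : Reed.Indep H (insert b (insert a (I.erase x))) := by
    refine Reed.indep_insert H h1 ?_
    intro r hr hadj
    rw [mem_insert] at hr
    rcases hr with rfl | hr
    · exact hnadj hadj
    · exact hb r hr ((Reed.mem_nb H).2 (Or.inr hadj))
  have h3 := hI'.2 _ (subset_univ _) h2
  have hbn' : b ∉ insert a (I.erase x) := by
    rw [mem_insert]
    rintro (h | h)
    · exact hab h.symm
    · exact hbn h
  rw [card_insert_of_notMem hbn', card_insert_of_notMem han, card_erase_add_one hx] at h3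
  omega

/-- **Exchange argument.** -/
theorem exchange (B : ℝ)
    (hloc : ∀ I0 : Finset E, (∀ a ∈ TT H I0, ∀ b ∈ TT H I0, a ≠ b → H.Adj a b) →
      ∑ f ∈ TT H I0, (((Reed.nb H f).card : ℝ) + ((TT H I0).card : ℝ)) ≤
        B * ((TT H I0).card : ℝ)) :
    ∃ I : Finset E, Reed.Indep H I ∧ 2 * (Fintype.card E : ℝ) ≤ B * (I.card : ℝ) := by
  obtain ⟨I1, hI1⟩ := Reed.mis_nonempty H univ
  have hI1' := (Reed.mem_mis H).1 hI1
  refine ⟨I1, hI1'.1.2, ?_⟩
  have hcard : ∀ I ∈ Reed.mis H univ, (I.card : ℝ) = (I1.card : ℝ) := by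
    intro I hI
    have h := (Reed.mem_mis H).1 hI
    have h1 := h.2 I1 (subset_univ _) hI1'.1.2
    have h2 := hI1'.2 I (subset_univ _) h.1.2
    exact_mod_cast le_antisymm h2 h1
  have hpos : (0 : ℝ) < ((Reed.mis H univ).card : ℝ) := by
    exact_mod_cast card_pos.2 ⟨I1, hI1⟩
  have h1 : ∑ _I ∈ Reed.mis H univ, (2 * (Fintype.card E : ℝ)) ≤
      ∑ I ∈ Reed.mis H univ, ∑ x ∈ I,
        (((Reed.nb H x).card : ℝ) + ((TT H (I.erase x)).card : ℝ)) := by
    refine sum_le_sum fun I hI => ?_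
    have := two_card_le H hI
    exact_mod_cast this
  have h2 := regroup H (fun I0 x => ((Reed.nb H x).card : ℝ) + ((TT H I0).card : ℝ))
  have h3 := regroup H (fun _ _ => (1 : ℝ))
  rw [h2] at h1
  have h4 : ∑ I0 ∈ (Reed.mis H univ).biUnion (fun I => I.image fun x => I.erase x),
        ∑ f ∈ TT H I0, (((Reed.nb H f).card : ℝ) + ((TT H I0).card : ℝ)) ≤
      B * ∑ I0 ∈ (Reed.mis H univ).biUnion (fun I => I.image fun x => I.erase x),
        ∑ _f ∈ TT H I0, (1 : ℝ) := by
    rw [mul_sum]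
    refine sum_le_sum fun I0 hI0 => ?_
    rw [mem_biUnion] at hI0
    obtain ⟨I, hI, hI0⟩ := hI0
    rw [mem_image] at hI0
    obtain ⟨x, hx, rfl⟩ := hI0
    have := hloc _ (TT_clique H hI hx)
    simpa using this
  rw [← h3] at h4
  have h5 : ∑ I ∈ Reed.mis H univ, ∑ _x ∈ I, (1 : ℝ) =
      ((Reed.mis H univ).card : ℝ) * (I1.card : ℝ) := by
    rw [← nsmul_eq_mul, ← sum_const]
    refine sum_congr rfl fun I hI => ?_
    rw [sum_const, nsmul_eq_mul, mul_one]
    exact hcard I hI
  rw [h5] at h4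
  rw [sum_const, nsmul_eq_mul] at h1
  have h6 : ((Reed.mis H univ).card : ℝ) * (2 * (Fintype.card E : ℝ)) ≤
      ((Reed.mis H univ).card : ℝ) * (B * (I1.card : ℝ)) := by
    calc _ ≤ _ := h1
      _ ≤ _ := h4
      _ = _ := by ring
  exact le_of_mul_le_mul_left h6 hpos

end abs

section loc
variable {V : Type*} [Fintype V] [DecidableEq V] (G : SimpleGraph V) [DecidableRel G.Adj]

lemma mem_nb_edge {u v : V} (h : G.Adj u v) (g : G.edgeSet) :
    (⟨s(u, v), h⟩ : G.edgeSet) ∈ Reed.nb (LineSq G) g ↔ ∃ a ∈ g.1, G.Adj u a ∨ G.Adj v a := by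
  obtain ⟨g, hg⟩ := g
  induction g using Sym2.inductionOn with
  | hf a b =>
    have hab : G.Adj a b := hg
    have e1 : (∃ c ∈ (s(a, b) : Sym2 V), G.Adj u c ∨ G.Adj v c) ↔
        (G.Adj a u ∨ G.Adj a v ∨ G.Adj b u ∨ G.Adj b v) := by
      constructor
      · rintro ⟨c, hc, h1⟩
        rw [Sym2.mem_iff] at hc
        rcases hc with rfl | rfl <;> rcases h1 with h1 | h1
        · exact Or.inl h1.symm
        · exact Or.inr (Or.inl h1.symm)
        · exact Or.inr (Or.inr (Or.inl h1.symm))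
        · exact Or.inr (Or.inr (Or.inr h1.symm))
      · rintro (h1 | h1 | h1 | h1)
        · exact ⟨a, Sym2.mem_mk_left _ _, Or.inl h1.symm⟩
        · exact ⟨a, Sym2.mem_mk_left _ _, Or.inr h1.symm⟩
        · exact ⟨b, Sym2.mem_mk_right _ _, Or.inl h1.symm⟩
        · exact ⟨b, Sym2.mem_mk_right _ _, Or.inr h1.symm⟩
    rw [Reed.mem_nb, e1, ← touch_iff G hab h]
    constructor
    · rintro (h1 | h1)
      · have h2 : s(u, v) = s(a, b) := congrArg Subtype.val h1
        refine ⟨a, Sym2.mem_mk_left _ _, a, ?_, Or.inl rfl⟩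
        rw [h2]; exact Sym2.mem_mk_left _ _
      · exact h1.2
    · intro h1
      by_cases h2 : (⟨s(u, v), h⟩ : G.edgeSet) = ⟨s(a, b), hg⟩
      · exact Or.inl h2
      · exact Or.inr ⟨fun h3 => h2 h3.symm, h1⟩

/-- the subgraph of `G` induced by the vertices which have no neighbour among the ends of `I0` -/
def FW (I0 : Finset G.edgeSet) : SimpleGraph V where
  Adj u v := G.Adj u v ∧ (∀ g ∈ I0, ∀ a ∈ (g : Sym2 V), ¬ G.Adj u a) ∧
    (∀ g ∈ I0, ∀ a ∈ (g : Sym2 V), ¬ G.Adj v a)
  symm := ⟨fun _ _ h => ⟨h.1.symm, h.2.2, h.2.1⟩⟩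
  loopless := ⟨fun _ h => G.loopless.irrefl _ h.1⟩

lemma mem_TT_edge {I0 : Finset G.edgeSet} {u v : V} (h : G.Adj u v) :
    (⟨s(u, v), h⟩ : G.edgeSet) ∈ TT (LineSq G) I0 ↔ (FW G I0).Adj u v := by
  rw [mem_TT]
  constructor
  · intro h1
    refine ⟨h, ?_, ?_⟩
    · intro g hg a ha hadj
      exact h1 g hg ((mem_nb_edge G h g).2 ⟨a, ha, Or.inl hadj⟩)
    · intro g hg a ha hadj
      exact h1 g hg ((mem_nb_edge G h g).2 ⟨a, ha, Or.inr hadj⟩)
  · rintro ⟨_, h1, h2⟩ g hg h3
    obtain ⟨a, ha, h4 | h4⟩ := (mem_nb_edge G h g).1 h3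
    · exact h1 g hg a ha h4
    · exact h2 g hg a ha h4

/-- If `TT` is a clique then the graph `FW` has no two edges without a touching pair. -/
lemma FW_free {I0 : Finset G.edgeSet}
    (hc : ∀ a ∈ TT (LineSq G) I0, ∀ b ∈ TT (LineSq G) I0, a ≠ b → (LineSq G).Adj a b)
    (a b c e : V) (hab : (FW G I0).Adj a b) (hce : (FW G I0).Adj c e) :
    (FW G I0).Adj a c ∨ (FW G I0).Adj a e ∨ (FW G I0).Adj b c ∨ (FW G I0).Adj b e := by
  have h1 := (mem_TT_edge G hab.1).2 hab
  have h2 := (mem_TT_edge G hce.1).2 hce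
  have h3 : ∃ x ∈ s(a, b), ∃ y ∈ s(c, e), x = y ∨ G.Adj x y := by
    by_cases he : (⟨s(a, b), hab.1⟩ : G.edgeSet) = ⟨s(c, e), hce.1⟩
    · have h4 : s(a, b) = s(c, e) := congrArg Subtype.val he
      refine ⟨a, Sym2.mem_mk_left _ _, a, ?_, Or.inl rfl⟩
      rw [← h4]; exact Sym2.mem_mk_left _ _
    · exact (hc _ h1 _ h2 he).2
  rw [touch_iff G hab.1 hce.1] at h3
  rcases h3 with h | h | h | h
  · exact Or.inl ⟨h, hab.2.1, hce.2.1⟩
  · exact Or.inr (Or.inl ⟨h, hab.2.1, hce.2.2⟩)
  · exact Or.inr (Or.inr (Or.inl ⟨h, hab.2.2, hce.2.1⟩))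
  · exact Or.inr (Or.inr (Or.inr ⟨h, hab.2.2, hce.2.2⟩))

/-- real indicator of adjacency -/
noncomputable def ia (K : SimpleGraph V) [DecidableRel K.Adj] (x y : V) : ℝ :=
  if K.Adj x y then 1 else 0

lemma ia_nonneg (K : SimpleGraph V) [DecidableRel K.Adj] (x y : V) : 0 ≤ ia K x y := by
  unfold ia; split_ifs <;> norm_num

lemma ia_symm (K : SimpleGraph V) [DecidableRel K.Adj] (x y : V) : ia K x y = ia K y x := by
  unfold ia; simp only [K.adj_comm]

lemma sum_ia (K : SimpleGraph V) [DecidableRel K.Adj] (x : V) : ∑ y, ia K x y = (K.degree x : ℝ) := by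
  unfold ia
  rw [sum_boole, ← SimpleGraph.card_neighborFinset_eq_degree]
  congr 2
  ext y; simp

lemma sum_ia' (K : SimpleGraph V) [DecidableRel K.Adj] (x : V) : ∑ y, ia K y x = (K.degree x : ℝ) := by
  rw [← sum_ia K x]
  exact sum_congr rfl fun y _ => ia_symm K y x

/-- four adjacency indicators -/
noncomputable def mm (u v x y : V) : ℝ := ia G u x + ia G u y + ia G v x + ia G v y

/-- The sum of `mm` over all ordered adjacent pairs. -/
lemma sum_mm_le (D : ℝ) (hD0 : 0 ≤ D) (hD : ∀ v, (G.degree v : ℝ) ≤ D) (u v : V) :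
    ∑ x, ∑ y, ia G x y * mm G u v x y ≤ 4 * D ^ 2 := by
  have h1 : ∀ w : V, ∑ x, ∑ y, ia G x y * ia G w x ≤ D ^ 2 := by
    intro w
    calc ∑ x, ∑ y, ia G x y * ia G w x = ∑ x, (G.degree x : ℝ) * ia G w x := by
          refine sum_congr rfl fun x _ => ?_
          rw [← sum_mul, sum_ia]
      _ ≤ ∑ x, D * ia G w x :=
          sum_le_sum fun x _ => mul_le_mul_of_nonneg_right (hD x) (ia_nonneg G w x)
      _ = D * (G.degree w : ℝ) := by rw [← mul_sum, sum_ia]
      _ ≤ D * D := mul_le_mul_of_nonneg_left (hD w) hD0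
      _ = D ^ 2 := by ring
  have h2 : ∀ w : V, ∑ x, ∑ y, ia G x y * ia G w y ≤ D ^ 2 := by
    intro w
    rw [sum_comm]
    refine le_trans (le_of_eq ?_) (h1 w)
    refine sum_congr rfl fun y _ => sum_congr rfl fun x _ => ?_
    rw [ia_symm G x y]
  have h3 : ∑ x, ∑ y, ia G x y * mm G u v x y =
      ∑ x, ∑ y, ia G x y * ia G u x + ∑ x, ∑ y, ia G x y * ia G u y +
      ∑ x, ∑ y, ia G x y * ia G v x + ∑ x, ∑ y, ia G x y * ia G v y := by
    simp only [← sum_add_distrib]
    refine sum_congr rfl fun x _ => sum_congr rfl fun y _ => ?_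
    unfold mm; ring
  rw [h3]
  linarith [h1 u, h1 v, h2 u, h2 v]

/-- The local count for one edge of a graph `F` of pairwise touching edges. -/
lemma N2_add_le (F : SimpleGraph V) [DecidableRel F.Adj] (hF : F ≤ G)
    (D : ℝ) (hD0 : 0 ≤ D) (hD : ∀ v, (G.degree v : ℝ) ≤ D) (u v : V)
    (htouch : ∀ x y, F.Adj x y → (G.Adj u x ∨ G.Adj u y ∨ G.Adj v x ∨ G.Adj v y)) :
    N2 G u v + ∑ x, ∑ y, ia F x y * (mm G u v x y - 1) ≤ 4 * D ^ 2 := by
  have h0 : N2 G u v = ∑ x, ∑ y, (if G.Adj x y ∧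
      (G.Adj u x ∨ G.Adj u y ∨ G.Adj v x ∨ G.Adj v y) then (1 : ℝ) else 0) := by
    unfold N2
    rw [card_filter, ← univ_product_univ, sum_product]
    push_cast
    rfl
  rw [h0, ← sum_add_distrib]
  refine le_trans ?_ (sum_mm_le G D hD0 hD u v)
  refine sum_le_sum fun x _ => ?_
  rw [← sum_add_distrib]
  refine sum_le_sum fun y _ => ?_
  have hux := ia_nonneg G u x
  have huy := ia_nonneg G u y
  have hvx := ia_nonneg G v x
  have hvy := ia_nonneg G v y
  by_cases hG : G.Adj x y
  · have hm : (G.Adj u x ∨ G.Adj u y ∨ G.Adj v x ∨ G.Adj v y) → 1 ≤ mm G u v x y := by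
      rintro (h | h | h | h)
      · have : ia G u x = 1 := if_pos h
        unfold mm; linarith
      · have : ia G u y = 1 := if_pos h
        unfold mm; linarith
      · have : ia G v x = 1 := if_pos h
        unfold mm; linarith
      · have : ia G v y = 1 := if_pos h
        unfold mm; linarith
    have h1 : ia G x y = 1 := if_pos hG
    have hmm : 0 ≤ mm G u v x y := by unfold mm; linarith
    rw [h1, one_mul]
    by_cases hFxy : F.Adj x y
    · have h2 : ia F x y = 1 := if_pos hFxy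
      rw [if_pos ⟨hG, htouch x y hFxy⟩, h2]
      linarith
    · have h2 : ia F x y = 0 := if_neg hFxy
      rw [h2, zero_mul, add_zero]
      split_ifs with h3
      · exact hm h3.2
      · exact hmm
  · have h1 : ia G x y = 0 := if_neg hG
    have h2 : ia F x y = 0 := if_neg fun h => hG (hF h)
    rw [if_neg fun h => hG h.1, h1, h2]
    simp

/-- The number of touching pairs of a graph `F` inside `G`, when `F` is induced on its
non-isolated vertices. -/
lemma sum_mm_F (F : SimpleGraph V) [DecidableRel F.Adj]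
    (hW : ∀ u x, 0 < F.degree u → 0 < F.degree x → (G.Adj u x ↔ F.Adj u x)) :
    ∑ u, ∑ v, ia F u v * ∑ x, ∑ y, ia F x y * mm G u v x y =
      4 * ∑ u, ∑ x, ia F u x * ((F.degree u : ℝ) * (F.degree x : ℝ)) := by
  -- one of the four sums
  have h1 : ∑ u, ∑ v, ia F u v * ∑ x, ∑ y, ia F x y * ia G u x =
      ∑ u, ∑ x, ia F u x * ((F.degree u : ℝ) * (F.degree x : ℝ)) := by
    refine sum_congr rfl fun u _ => ?_
    rw [← sum_mul, sum_ia, mul_sum]
    refine sum_congr rfl fun x _ => ?_
    rw [← sum_mul, sum_ia]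
    by_cases hu : 0 < F.degree u
    · by_cases hx : 0 < F.degree x
      · have h2 : ia G u x = ia F u x := by
          unfold ia; simp only [hW u x hu hx]
        rw [h2]; ring
      · have h2 : F.degree x = 0 := by omega
        rw [h2]; simp
    · have h2 : F.degree u = 0 := by omega
      rw [h2]; simp
  have h2 : ∑ u, ∑ v, ia F u v * ∑ x, ∑ y, ia F x y * ia G u y =
      ∑ u, ∑ v, ia F u v * ∑ x, ∑ y, ia F x y * ia G u x := by
    refine sum_congr rfl fun u _ => sum_congr rfl fun v _ => ?_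
    congr 1
    rw [sum_comm]
    refine sum_congr rfl fun x _ => sum_congr rfl fun y _ => ?_
    rw [ia_symm F y x]
  have h3 : ∑ u, ∑ v, ia F u v * ∑ x, ∑ y, ia F x y * ia G v x =
      ∑ u, ∑ v, ia F u v * ∑ x, ∑ y, ia F x y * ia G u x := by
    rw [sum_comm]
    refine sum_congr rfl fun u _ => sum_congr rfl fun v _ => ?_
    rw [ia_symm F v u]
  have h4 : ∑ u, ∑ v, ia F u v * ∑ x, ∑ y, ia F x y * ia G v y =
      ∑ u, ∑ v, ia F u v * ∑ x, ∑ y, ia F x y * ia G u y := by
    rw [sum_comm]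
    refine sum_congr rfl fun u _ => sum_congr rfl fun v _ => ?_
    rw [ia_symm F v u]
  have h5 : ∑ u, ∑ v, ia F u v * ∑ x, ∑ y, ia F x y * mm G u v x y =
      ∑ u, ∑ v, ia F u v * ∑ x, ∑ y, ia F x y * ia G u x +
      ∑ u, ∑ v, ia F u v * ∑ x, ∑ y, ia F x y * ia G u y +
      ∑ u, ∑ v, ia F u v * ∑ x, ∑ y, ia F x y * ia G v x +
      ∑ u, ∑ v, ia F u v * ∑ x, ∑ y, ia F x y * ia G v y := by
    simp only [← sum_add_distrib]
    refine sum_congr rfl fun u _ => sum_congr rfl fun v _ => ?_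
    simp only [← mul_add, ← sum_add_distrib]
    congr 1
  rw [h5, h4, h3, h2, h1]
  ring

/-- **From the pure inequality to large induced matchings.** -/
theorem sharp_of_pure (D : ℕ) (hD : ∀ v, G.degree v ≤ D)
    (pure : ∀ (F : SimpleGraph V) [DecidableRel F.Adj],
      (∀ a b c e, F.Adj a b → F.Adj c e → F.Adj a c ∨ F.Adj a e ∨ F.Adj b c ∨ F.Adj b e) →
      (∀ v, F.degree v ≤ D) →
      2 * (∑ u, F.degree u) ^ 2 ≤
        4 * (∑ u, ∑ v ∈ F.neighborFinset u, F.degree u * F.degree v) +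
          D ^ 2 * (∑ u, F.degree u)) :
    ∃ M : Finset (Sym2 V), StrongMatching G M ∧ 4 * G.edgeFinset.card ≤ 5 * D ^ 2 * M.card := by
  classical
  have hDr : ∀ v, (G.degree v : ℝ) ≤ (D : ℝ) := fun v => by exact_mod_cast hD v
  have hD0 : (0 : ℝ) ≤ (D : ℝ) := Nat.cast_nonneg _
  obtain ⟨I, hI, hcard⟩ := exchange (LineSq G) (5 / 2 * (D : ℝ) ^ 2) (by
    intro I0 hc
    set T := TT (LineSq G) I0 with hT
    set F := FW G I0 with hF
    have hFG : F ≤ G := fun x y h => h.1
    have hfree := FW_free G hc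
    have hdeg : ∀ v, F.degree v ≤ D := by
      intro v
      refine le_trans ?_ (hD v)
      rw [← SimpleGraph.card_neighborFinset_eq_degree, ← SimpleGraph.card_neighborFinset_eq_degree]
      refine card_le_card fun x hx => ?_
      rw [SimpleGraph.mem_neighborFinset] at hx ⊢
      exact hFG hx
    have hWall : ∀ w, 0 < F.degree w → ∀ g ∈ I0, ∀ a ∈ (g : Sym2 V), ¬ G.Adj w a := by
      intro w hw
      obtain ⟨x, hx⟩ := (F.degree_pos_iff_exists_adj w).1 hw
      exact hx.2.1
    have hW : ∀ u x, 0 < F.degree u → 0 < F.degree x → (G.Adj u x ↔ F.Adj u x) := by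
      intro u x hu hx
      exact ⟨fun h => ⟨h, hWall u hu, hWall x hx⟩, fun h => h.1⟩
    -- the pure inequality over the reals
    have hpure := pure F hfree hdeg
    set t2 : ℝ := ∑ u, (F.degree u : ℝ) with ht2
    set w3 : ℝ := ∑ u, ∑ x, ia F u x * ((F.degree u : ℝ) * (F.degree x : ℝ)) with hw3
    have hpure' : 2 * t2 ^ 2 ≤ 4 * w3 + (D : ℝ) ^ 2 * t2 := by
      have e1 : w3 = ∑ u, ∑ v ∈ F.neighborFinset u, (F.degree u : ℝ) * (F.degree v : ℝ) := by
        rw [hw3]
        refine sum_congr rfl fun u _ => ?_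
        unfold ia
        simp only [ite_mul, one_mul, zero_mul]
        rw [← sum_filter]
        refine sum_congr ?_ fun _ _ => rfl
        ext y; simp
      rw [e1, ht2]
      exact_mod_cast hpure
    -- ordered pairs and members of T
    set T' : Finset (Sym2 V) := T.image Subtype.val with hT'
    have hmem : ∀ x y, s(x, y) ∈ T' ↔ F.Adj x y := by
      intro x y
      rw [hT', mem_image]
      constructor
      · rintro ⟨g, hg, hgv⟩
        have hxy : G.Adj x y := by
          have := g.2; rw [hgv] at this; exact this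
        have hge : g = ⟨s(x, y), hxy⟩ := Subtype.ext hgv
        rw [hge] at hg
        exact (mem_TT_edge G hxy).1 hg
      · intro h
        exact ⟨⟨s(x, y), h.1⟩, (mem_TT_edge G h.1).2 h, rfl⟩
    have hdiag : ∀ g ∈ T', ¬ g.IsDiag := by
      intro g hg
      rw [hT', mem_image] at hg
      obtain ⟨f, _, rfl⟩ := hg
      exact G.not_isDiag_of_mem_edgeSet f.2
    have hpair : ∀ w : Sym2 V → ℝ, ∑ x, ∑ y, ia F x y * w s(x, y) = 2 * ∑ g ∈ T', w g := by
      intro w
      rw [← pair_sum T' hdiag w, sum_filter, ← univ_product_univ, sum_product]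
      refine sum_congr rfl fun x _ => sum_congr rfl fun y _ => ?_
      unfold ia
      simp only [hmem]
      split_ifs <;> simp
    have hTcard : (T'.card : ℝ) = (T.card : ℝ) := by
      rw [hT', card_image_of_injective _ Subtype.val_injective]
    have ht2T : t2 = 2 * (T.card : ℝ) := by
      have h1 := hpair fun _ => 1
      rw [sum_const, nsmul_eq_mul, mul_one, hTcard] at h1
      rw [← h1, ht2]
      refine sum_congr rfl fun x _ => ?_
      simp only [mul_one]
      rw [sum_ia]
    have hN : ∑ x, ∑ y, ia F x y * N2 G x y = 4 * ∑ f ∈ T, ((Reed.nb (LineSq G) f).card : ℝ) := by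
      set w : Sym2 V → ℝ := fun e => if h : e ∈ G.edgeSet then
        2 * ((Reed.nb (LineSq G) ⟨e, h⟩).card : ℝ) else 0 with hw
      have h1 := hpair w
      have h2 : ∑ x, ∑ y, ia F x y * N2 G x y = ∑ x, ∑ y, ia F x y * w s(x, y) := by
        refine sum_congr rfl fun x _ => sum_congr rfl fun y _ => ?_
        by_cases hxy : F.Adj x y
        · have hG : G.Adj x y := hFG hxy
          rw [N2_eq_nb G x y hG, hw]
          simp only
          rw [dif_pos (show s(x, y) ∈ G.edgeSet from hG)]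
        · have : ia F x y = 0 := if_neg hxy
          rw [this]; simp
      rw [h2, h1]
      have h3 : ∑ g ∈ T', w g = ∑ f ∈ T, 2 * ((Reed.nb (LineSq G) f).card : ℝ) := by
        rw [hT', sum_image (fun a _ b _ h => Subtype.val_injective h)]
        refine sum_congr rfl fun f _ => ?_
        rw [hw]; simp only
        rw [dif_pos f.2]
      rw [h3, ← mul_sum]
      ring
    -- the count
    have hcount : ∑ u, ∑ v, ia F u v * (N2 G u v + ∑ x, ∑ y, ia F x y * (mm G u v x y - 1)) ≤
        ∑ u, ∑ v, ia F u v * (4 * (D : ℝ) ^ 2) := by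
      refine sum_le_sum fun u _ => sum_le_sum fun v _ => ?_
      by_cases huv : F.Adj u v
      · refine mul_le_mul_of_nonneg_left ?_ (ia_nonneg F u v)
        refine N2_add_le G F hFG (D : ℝ) hD0 hDr u v ?_
        intro x y hxy
        rcases hfree u v x y huv hxy with h | h | h | h
        · exact Or.inl h.1
        · exact Or.inr (Or.inl h.1)
        · exact Or.inr (Or.inr (Or.inl h.1))
        · exact Or.inr (Or.inr (Or.inr h.1))
      · have : ia F u v = 0 := if_neg huv
        rw [this]; simp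
    have hFF : ∑ u, ∑ v, ia F u v = t2 := by
      rw [ht2]; exact sum_congr rfl fun u _ => sum_ia F u
    have hR : ∑ u, ∑ v, ia F u v * (4 * (D : ℝ) ^ 2) = 4 * (D : ℝ) ^ 2 * t2 := by
      rw [← hFF]
      simp only [mul_sum]
      exact sum_congr rfl fun u _ => sum_congr rfl fun v _ => by ring
    have hL : ∑ u, ∑ v, ia F u v * (N2 G u v + ∑ x, ∑ y, ia F x y * (mm G u v x y - 1)) =
        ∑ u, ∑ v, ia F u v * N2 G u v + 4 * w3 - t2 ^ 2 := by
      have h1 := sum_mm_F G F hW
      rw [← hw3] at h1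
      have h2 : ∑ u, ∑ v, ia F u v * ∑ x, ∑ y, ia F x y = t2 ^ 2 := by
        rw [hFF]
        rw [pow_two]
        nth_rewrite 2 [← hFF]
        simp only [sum_mul]
      rw [← h1, ← h2, ← sum_add_distrib, ← sum_sub_distrib]
      refine sum_congr rfl fun u _ => ?_
      rw [← sum_add_distrib, ← sum_sub_distrib]
      refine sum_congr rfl fun v _ => ?_
      rw [← mul_add, ← mul_sub, add_sub_assoc, ← sum_sub_distrib]
      congr 2
      refine sum_congr rfl fun x _ => ?_
      rw [← sum_sub_distrib]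
      refine sum_congr rfl fun y _ => ?_
      ring
    rw [hL, hR, hN] at hcount
    rw [sum_add_distrib, sum_const, nsmul_eq_mul]
    nlinarith [hcount, hpure', ht2T])
  refine ⟨I.image Subtype.val, ⟨?_, ?_⟩, ?_⟩
  · intro e he
    rw [mem_image] at he
    obtain ⟨f, _, rfl⟩ := he
    exact f.2
  · intro e he e' he' hne x hx y hy
    rw [mem_image] at he he'
    obtain ⟨a, ha, rfl⟩ := he
    obtain ⟨b, hb, rfl⟩ := he'
    have hab : a ≠ b := fun h => hne (by rw [h])
    have h5 := hI a ha b hb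
    constructor
    · intro h
      exact h5 ⟨hab, x, hx, y, hy, Or.inl h⟩
    · intro h
      exact h5 ⟨hab, x, hx, y, hy, Or.inr h⟩
  · rw [card_image_of_injective _ Subtype.val_injective]
    have h1 : Fintype.card G.edgeSet = G.edgeFinset.card := by
      rw [← Set.toFinset_card]; rfl
    have h2 : (4 * (G.edgeFinset.card : ℝ)) ≤ 5 * (D : ℝ) ^ 2 * (I.card : ℝ) := by
      rw [← h1]; linarith
    exact_mod_cast h2

end loc

end MP433
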