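import Pool.Agent.Work.MP_433a35_co.Edge
import Pool.Agent.Work.MP_433a35_co.FP

set_option autoImplicit false

/-!
# The star inequality from the main inequality
-/

namespace MP433

open Finset

variable {V : Type*} [Fintype V] [DecidableEq V]
variable {G F : SimpleGraph V} [DecidableRel G.Adj] [DecidableRel F.Adj]

omit [DecidableEq V] in
/-- Every edge of a strong clique is touched by each of its edges. -/
lemma two_phi_le_N2 (hF : StrongClique G F) {u v : V} (huv : F.Adj u v) :
    2 * phi F ≤ N2 G u v := by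
  have h1 : 2 * phi F =
      (((univ : Finset (V × V)).filter (fun p => F.Adj p.1 p.2)).card : ℝ) := by
    unfold phi
    rw [mul_div_cancel₀ _ (two_ne_zero' ℝ), Finset.card_filter, Nat.cast_sum]
    rw [← Finset.univ_product_univ, Finset.sum_product]
    refine Finset.sum_congr rfl fun x _ => ?_
    unfold f
    rw [← Nat.cast_sum, ← Finset.card_filter]
    congr 2
    ext y
    simp
  rw [h1]
  unfold N2
  refine Nat.cast_le.2 (Finset.card_le_card fun p hp => ?_)
  simp only [mem_filter, mem_univ, true_and] at hp ⊢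
  exact ⟨hF.1 hp, hF.2 u v p.1 p.2 huv hp⟩

/-- The chord of the convex function `1 / (2 D² + h)`. -/
lemma chord {D φ h : ℝ} (hD0 : 0 < D) (hφ : 3 * φ ≤ 4 * D ^ 2) (h0 : 0 ≤ h)
    (h1 : h ≤ 4 * D ^ 2 - 2 * φ) :
    1 / (2 * D ^ 2 + h) ≤ 1 / (2 * D ^ 2) * (1 - h / (6 * D ^ 2 - 2 * φ)) := by
  have hD2 : 0 < D ^ 2 := by positivity
  have hK : 0 < 6 * D ^ 2 - 2 * φ := by linarith
  obtain ⟨K, hKe⟩ : ∃ K : ℝ, K = 6 * D ^ 2 - 2 * φ := ⟨_, rfl⟩
  rw [← hKe] at hK ⊢
  have hφe : 4 * D ^ 2 - 2 * φ = K - 2 * D ^ 2 := by linarith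
  rw [hφe] at h1
  rw [div_le_iff₀ (by positivity)]
  have : 1 / (2 * D ^ 2) * (1 - h / K) * (2 * D ^ 2 + h) =
      1 + h * (K - 2 * D ^ 2 - h) / (2 * D ^ 2 * K) := by
    field_simp
    ring
  rw [this]
  have : 0 ≤ h * (K - 2 * D ^ 2 - h) / (2 * D ^ 2 * K) :=
    div_nonneg (mul_nonneg h0 (by linarith)) (by positivity)
  linarith

/-- The star inequality from the main inequality. -/
theorem star_of_main (hF : StrongClique G F) (D : ℝ) (hD0 : 0 < D) (hD : ∀ u, d G u ≤ D)
    (hN : ∀ u v, N2 G u v ≤ 4 * D ^ 2)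
    (main : D ^ 2 ≤ phi F → 3 * phi F ≤ 4 * D ^ 2 →
      4 * D^2 * phi F - 3 * D^4 ≤ ∑ u, f F u * g G F u
        + 1/2 * ∑ u, ∑ w, a G F u w * (a G F u w - z F u w)) :
    ∑ u, ∑ v ∈ F.neighborFinset u, 1 / (6 * D^2 - N2 G u v) ≤ 1 := by
  have hD2 : 0 < D ^ 2 := by positivity
  have hcard : ∀ c : ℝ, ∑ u, ∑ v ∈ F.neighborFinset u, c = 2 * phi F * c := by
    intro c
    have : ∀ u, ∑ v ∈ F.neighborFinset u, c = f F u * c := by
      intro u
      rw [Finset.sum_const, nsmul_eq_mul]
      rfl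
    simp only [this]
    rw [← Finset.sum_mul]
    unfold phi
    ring
  have hφ : 3 * phi F ≤ 4 * D ^ 2 := by
    have := faron_postle hF (2 * D) (fun u v _ => by linarith [hD u, hD v])
    linarith
  have hφ0 : 0 ≤ phi F := by
    unfold phi
    exact div_nonneg (Finset.sum_nonneg fun u _ => by unfold f; positivity) (by norm_num)
  rcases le_total (phi F) (D ^ 2) with hc | hc
  · -- few edges
    calc ∑ u, ∑ v ∈ F.neighborFinset u, 1 / (6 * D^2 - N2 G u v)
        ≤ ∑ u, ∑ v ∈ F.neighborFinset u, 1 / (2 * D ^ 2) := by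
          refine Finset.sum_le_sum fun u _ => Finset.sum_le_sum fun v _ => ?_
          apply one_div_le_one_div_of_le (by positivity)
          linarith [hN u v]
      _ = 2 * phi F * (1 / (2 * D ^ 2)) := hcard _
      _ ≤ 1 := by
          rw [mul_one_div, div_le_one (by positivity)]
          linarith
  · have hK : 0 < 6 * D ^ 2 - 2 * phi F := by linarith
    have hsum := edge_count hF D
    have hm := main hc hφ
    have hlast : 0 ≤ ∑ u, f F u * (D ^ 2 - ∑ x ∈ G.neighborFinset u, d G x) := by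
      refine Finset.sum_nonneg fun u _ => mul_nonneg (by unfold f; positivity) ?_
      have h1 : ∑ x ∈ G.neighborFinset u, d G x ≤ ∑ x ∈ G.neighborFinset u, D :=
        Finset.sum_le_sum fun x _ => hD x
      rw [Finset.sum_const, nsmul_eq_mul] at h1
      have h2 : ((G.neighborFinset u).card : ℝ) * D ≤ D * D :=
        mul_le_mul_of_nonneg_right (hD u) hD0.le
      rw [sub_nonneg, pow_two]
      exact h1.trans h2
    have hs : (∑ u, f F u) = 2 * phi F := by unfold phi; ring
    have hS : 4 * (phi F - D ^ 2) * (3 * D ^ 2 - phi F) ≤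
        ∑ u, ∑ v ∈ F.neighborFinset u, (4 * D ^ 2 - N2 G u v) := by
      rw [hs] at hsum
      nlinarith [hsum, hm, hlast]
    calc ∑ u, ∑ v ∈ F.neighborFinset u, 1 / (6 * D^2 - N2 G u v)
        ≤ ∑ u, ∑ v ∈ F.neighborFinset u, (1 / (2 * D ^ 2) *
            (1 - (4 * D ^ 2 - N2 G u v) / (6 * D ^ 2 - 2 * phi F))) := by
          refine Finset.sum_le_sum fun u _ => Finset.sum_le_sum fun v hv => ?_
          have huv : F.Adj u v := by simpa using hv
          have h1 := two_phi_le_N2 hF huv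
          have := chord (h := 4 * D ^ 2 - N2 G u v) hD0 hφ (by linarith [hN u v]) (by linarith)
          refine le_trans (le_of_eq ?_) this
          congr 1
          ring
      _ = 1 / (2 * D ^ 2) * (2 * phi F -
            (∑ u, ∑ v ∈ F.neighborFinset u, (4 * D ^ 2 - N2 G u v)) / (6 * D ^ 2 - 2 * phi F)) := by
          obtain ⟨K, hKe⟩ : ∃ K : ℝ, K = 6 * D ^ 2 - 2 * phi F := ⟨_, rfl⟩
          rw [← hKe]
          have h1 : (2 * phi F) = ∑ u, ∑ v ∈ F.neighborFinset u, (1 : ℝ) := by
            rw [hcard]; ring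
          rw [h1]
          simp only [Finset.sum_div, ← Finset.sum_sub_distrib, Finset.mul_sum]
      _ ≤ 1 / (2 * D ^ 2) * (2 * D ^ 2) := by
          apply mul_le_mul_of_nonneg_left _ (by positivity)
          have h2 : 2 * phi F - 2 * D ^ 2 ≤
              (∑ u, ∑ v ∈ F.neighborFinset u, (4 * D ^ 2 - N2 G u v)) / (6 * D ^ 2 - 2 * phi F) := by
            rw [le_div_iff₀ hK]
            nlinarith [hS]
          linarith
      _ = 1 := by field_simp

end MP433
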