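import Pool.Agent.Work.MP_433a35_co.Weights

/-! Statements of the open modules (skeleton; do not import in final files). -/

namespace MP433

open Finset

variable {V : Type*} [Fintype V] [DecidableEq V]
variable {G F : SimpleGraph V} [DecidableRel G.Adj] [DecidableRel F.Adj]

/-- Pair.lean (helper93) -/
theorem pair_ineq {p q a b z : ℝ} (hz : 0 ≤ z) (hza : z ≤ a) (hzb : z ≤ b) (hap : a ≤ p)
    (hbq : b ≤ q) (h1 : q + a - z ≤ 1) (h2 : p + b - z ≤ 1) : 0 ≤ NN p q a b z := by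
  sorry

/-- FIneq.lean (helper93) -/
theorem F_ineq {p q t : ℝ} (hp0 : 0 ≤ p) (hp1 : p ≤ 1) (hq0 : 0 ≤ q) (hq1 : q ≤ 1)
    (ht1 : 1 ≤ t) (ht2 : t ≤ 4/3) : 4 * t - 3 ≤ t * FF p q t := by
  sorry

/-- Main.lean: the summation. -/
theorem main_ineq (hF : StrongClique G F) (D : ℝ) (hD0 : 0 < D) (hD : ∀ u, d G u ≤ D)
    (h1 : D^2 ≤ phi F) (h2 : 3 * phi F ≤ 4 * D^2) :
    4 * D^2 * phi F - 3 * D^4 ≤ ∑ u, f F u * g G F u
      + 1/2 * ∑ u, ∑ w, a G F u w * (a G F u w - z F u w) := by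
  sorry

/-- Star.lean -/
theorem star (hF : StrongClique G F) (D : ℝ) (hD0 : 0 < D) (hD : ∀ u, d G u ≤ D) :
    ∑ u, ∑ v ∈ F.neighborFinset u, 1 / (6 * D^2 - N2 G u v) ≤ 1 := by
  sorry

end MP433
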