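import Pool.Agent.Work.MP_433a35_co.Defs

/-!
# Weight functions of the pair inequality (MP_433a35_co)

All functions are of a normalised `F`-degree `p = f u / D ∈ [0,1]`.
-/

namespace MP433

noncomputable def la (p : ℝ) : ℝ := 1336/1000 - 750/1000 * p + 908/1000 * p^2
noncomputable def mu (p : ℝ) : ℝ := 823/1000 - 1282/1000 * p + 465/1000 * p^2
noncomputable def ka (p : ℝ) : ℝ := 1028/1000 - 1304/1000 * p + 458/1000 * p^2
noncomputable def ga (p : ℝ) : ℝ := 86/1000 * p + 287/1000 * p^2
noncomputable def om (p : ℝ) : ℝ := 1330/1000 - 473/1000 * p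
noncomputable def rh (p : ℝ) : ℝ := 248/1000 * p

/-- the expression of a non-adjacent pair `u, w` : `p = f u`, `q = f w`, `a = |F(u) ∩ N(w)|`,
`b = |F(w) ∩ N(u)|`, `z = |F(u) ∩ F(w)|`, all divided by `D`. -/
noncomputable def NN (p q a b z : ℝ) : ℝ :=
  1/2 * a * (a - z) + 1/2 * b * (b - z) + p * b + q * a
    + mu p * (a - z) + mu q * (b - z) + (ka p + ka q) * z
    + ga q * (a - z) + ga p * (b - z)
    - la p * (a - p/2) * (q - b) - la q * (b - q/2) * (p - a)
    - 1/2 * (p * om p * (q + b) + q * om q * (p + a))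
    + 1/2 * (p * rh p * (q - b) + q * rh q * (p - a))

/-- the expression of an `F`-edge -/
noncomputable def FF (p q t : ℝ) : ℝ :=
  t * (om p + om q) - mu p * (1 - q) - mu q * (1 - p) - ka p * q - ka q * p
    - (1 - p) * ga p - (1 - q) * ga q - rh p * (2 - p)^2 / 3 - rh q * (2 - q)^2 / 3

end MP433
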